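import Mathlib

/-!
Interval exchanges, their codings, critical exponents and repetition thresholds.
-/

open Finset

namespace Pool.Agent.Helper44.IET

/-- data of an exchange of `d` intervals: positive lengths with sum one and a permutation -/
structure Exchange (d : ℕ) where
  /-- the lengths -/
  len : Fin d → ℝ
  /-- the permutation -/
  perm : Equiv.Perm (Fin d)
  /-- lengths are positive -/
  len_pos : ∀ j, 0 < len j
  /-- lengths sum to one -/
  len_sum : ∑ j, len j = 1

namespace Exchange

variable {d : ℕ} (E : Exchange d)

/-- left endpoint of the `j`-th interval -/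
noncomputable def left (j : Fin d) : ℝ := ∑ i ∈ univ.filter (fun i => i < j), E.len i

/-- left endpoint of the image of the `j`-th interval, which is the `perm j`-th from the left -/
noncomputable def imageLeft (j : Fin d) : ℝ :=
  ∑ i ∈ univ.filter (fun i => E.perm i < E.perm j), E.len i

/-- the `j`-th interval -/
def interval (j : Fin d) : Set ℝ := Set.Ico (E.left j) (E.left j + E.len j)

/-- the exchange map: it translates each interval onto its image -/
noncomputable def T (x : ℝ) : ℝ :=
  x + ∑ j, (E.interval j).indicator (fun _ => E.imageLeft j - E.left j) x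

/-- the permutation maps no proper initial segment onto itself -/
def Irreducible : Prop :=
  ∀ k : ℕ, 0 < k → k < d → ¬ ∀ i : Fin d, (i : ℕ) < k → (E.perm i : ℕ) < k

/-- the forward orbits of the interior cut points are infinite and pairwise disjoint -/
def Keane : Prop :=
  ∀ i j : Fin d, 0 < (i : ℕ) → 0 < (j : ℕ) → ∀ m n : ℕ,
    E.T^[m] (E.left i) = E.T^[n] (E.left j) → i = j ∧ m = n

/-- `u` is the coding of some point of `[0,1)` -/
def IsCoding (u : ℕ → Fin d) : Prop :=
  ∃ x ∈ Set.Ico (0:ℝ) 1, ∀ n, E.T^[n] x ∈ E.interval (u n)

end Exchange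

/-- the class of all codings of irreducible `d`-interval exchanges with Keane's condition -/
def Codings (d : ℕ) : Set (ℕ → Fin d) :=
  {u | ∃ E : Exchange d, E.Irreducible ∧ E.Keane ∧ E.IsCoding u}

/-- the factor of `u` of length `l` at position `i` is the prefix of length `l` of `v v v ...`
where `v` has length `p` -/
def HasPower {A : Type*} (u : ℕ → A) (i p l : ℕ) : Prop :=
  ∀ j, j + p < l → u (i + j) = u (i + j + p)

/-- critical exponent -/
noncomputable def critExp {A : Type*} (u : ℕ → A) : EReal :=
  ⨆ (i : ℕ) (p : ℕ) (l : ℕ) (_ : 0 < p) (_ : HasPower u i p l), (((l : ℝ) / (p : ℝ) : ℝ) : EReal)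

/-- supremum of the exponents of powers with base of length at least `n` -/
noncomputable def critExpFrom {A : Type*} (u : ℕ → A) (n : ℕ) : EReal :=
  ⨆ (i : ℕ) (p : ℕ) (l : ℕ) (_ : 0 < p) (_ : n ≤ p) (_ : HasPower u i p l),
    (((l : ℝ) / (p : ℝ) : ℝ) : EReal)

open Classical in
/-- asymptotic critical exponent: infinite if the critical exponent is, and otherwise the limit
(equivalently the infimum, the sequence being nonincreasing) of `critExpFrom u n` -/
noncomputable def asympCritExp {A : Type*} (u : ℕ → A) : EReal :=
  if critExp u = ⊤ then ⊤ else ⨅ n : ℕ, critExpFrom u n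

/-- repetition threshold of the class of codings of `d`-interval exchanges -/
noncomputable def RT (d : ℕ) : EReal := ⨅ (u : ℕ → Fin d) (_ : u ∈ Codings d), critExp u

/-- asymptotic repetition threshold of the class of codings of `d`-interval exchanges -/
noncomputable def RTstar (d : ℕ) : EReal := ⨅ (u : ℕ → Fin d) (_ : u ∈ Codings d), asympCritExp u

/-! ### basic facts -/

namespace Exchange

variable {d : ℕ} (E : Exchange d)

lemma left_add_le {i j : Fin d} (h : i < j) : E.left i + E.len i ≤ E.left j := by
  unfold left
  have h1 : i ∉ univ.filter (fun k => k < i) := by simp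
  rw [add_comm, ← Finset.sum_insert h1]
  apply Finset.sum_le_sum_of_subset_of_nonneg
  · intro k hk
    rw [mem_insert, mem_filter] at hk
    rw [mem_filter]
    refine ⟨mem_univ _, ?_⟩
    rcases hk with rfl | hk
    · exact h
    · exact lt_trans hk.2 h
  · intro k _ _; exact (E.len_pos k).le

lemma imageLeft_add_le {i j : Fin d} (h : E.perm i < E.perm j) :
    E.imageLeft i + E.len i ≤ E.imageLeft j := by
  unfold imageLeft
  have h1 : i ∉ univ.filter (fun k => E.perm k < E.perm i) := by simp
  rw [add_comm, ← Finset.sum_insert h1]
  apply Finset.sum_le_sum_of_subset_of_nonneg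
  · intro k hk
    rw [mem_insert, mem_filter] at hk
    rw [mem_filter]
    refine ⟨mem_univ _, ?_⟩
    rcases hk with rfl | hk
    · exact h
    · exact lt_trans hk.2 h
  · intro k _ _; exact (E.len_pos k).le

lemma interval_inj {x : ℝ} {i j : Fin d} (hi : x ∈ E.interval i) (hj : x ∈ E.interval j) :
    i = j := by
  rcases lt_trichotomy i j with h | h | h
  · have := E.left_add_le h
    have h1 := hi.2
    have h2 := hj.1
    linarith
  · exact h
  · have := E.left_add_le h
    have h1 := hj.2
    have h2 := hi.1
    linarith

lemma T_of_mem {x : ℝ} {j : Fin d} (h : x ∈ E.interval j) :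
    E.T x = x + (E.imageLeft j - E.left j) := by
  unfold T
  congr 1
  rw [Finset.sum_eq_single j]
  · rw [Set.indicator_of_mem h]
  · intro i _ hij
    rw [Set.indicator_of_notMem]
    intro h2
    exact hij (E.interval_inj h2 h)
  · intro h2; exact absurd (mem_univ j) h2

lemma T_inj {x y : ℝ} {i j : Fin d} (hx : x ∈ E.interval i) (hy : y ∈ E.interval j)
    (h : E.T x = E.T y) : x = y ∧ i = j := by
  rw [E.T_of_mem hx, E.T_of_mem hy] at h
  have x1 := hx.1
  have x2 := hx.2
  have y1 := hy.1
  have y2 := hy.2
  have hij : i = j := by
    have hp : E.perm i = E.perm j := by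
      rcases lt_trichotomy (E.perm i) (E.perm j) with h1 | h1 | h1
      · have := E.imageLeft_add_le h1; linarith
      · exact h1
      · have := E.imageLeft_add_le h1; linarith
    exact E.perm.injective hp
  subst hij
  exact ⟨by linarith, rfl⟩

end Exchange

end Pool.Agent.Helper44.IET
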