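import Mathlib

/-!
Double counting tools for the bounded cover theorem on families of sets.
-/

open Finset

namespace Pool.Agent.Helper44.Cover

noncomputable section

open scoped Classical

section swap

variable {α : Type*} [DecidableEq α] [Fintype α]

/-- double counting of the edges between two consecutive levels -/
lemma edge_swap (k : ℕ) (g : Finset α → α → ℝ) :
    ∑ W ∈ powersetCard k (univ : Finset α), ∑ x ∈ Wᶜ, g W x
      = ∑ V ∈ powersetCard (k+1) (univ : Finset α), ∑ x ∈ V, g (V.erase x) x := by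
  rw [Finset.sum_sigma', Finset.sum_sigma']
  refine Finset.sum_bij' (fun p _ => ⟨insert p.2 p.1, p.2⟩) (fun p _ => ⟨p.1.erase p.2, p.2⟩)
    ?_ ?_ ?_ ?_ ?_
  · rintro ⟨W, x⟩ h
    simp only [mem_sigma, mem_powersetCard, subset_univ, true_and, mem_compl] at h ⊢
    refine ⟨?_, mem_insert_self _ _⟩
    rw [card_insert_of_notMem h.2, h.1]
  · rintro ⟨V, x⟩ h
    simp only [mem_sigma, mem_powersetCard, subset_univ, true_and, mem_compl] at h ⊢
    refine ⟨?_, notMem_erase _ _⟩
    rw [card_erase_of_mem h.2, h.1]; rfl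
  · rintro ⟨W, x⟩ h
    simp only [mem_sigma, mem_powersetCard, subset_univ, true_and, mem_compl] at h ⊢
    simp [erase_insert h.2]
  · rintro ⟨V, x⟩ h
    simp only [mem_sigma, mem_powersetCard, subset_univ, true_and] at h ⊢
    simp [insert_erase h.2]
  · rintro ⟨W, x⟩ h
    simp only [mem_sigma, mem_powersetCard, subset_univ, true_and, mem_compl] at h ⊢
    simp [erase_insert h.2]

lemma sum_erase_comm {β : Type*} [DecidableEq β] (S : Finset β) (g : β → β → ℝ) :
    ∑ y ∈ S, ∑ z ∈ S.erase y, g y z = ∑ y ∈ S, ∑ z ∈ S.erase y, g z y := by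
  rw [Finset.sum_comm' (s := S) (t := fun y => S.erase y) (t' := S) (s' := fun y => S.erase y)]
  intro x y
  simp only [mem_erase, ne_eq]
  tauto

/-- sum over ordered triples of distinct elements -/
def D3 {β : Type*} [DecidableEq β] (S : Finset β) (g : β → β → β → ℝ) : ℝ :=
  ∑ p ∈ S, ∑ q ∈ S.erase p, ∑ r ∈ (S.erase p).erase q, g p q r

lemma D3_swap12 {β : Type*} [DecidableEq β] (S : Finset β) (g : β → β → β → ℝ) :
    D3 S (fun p q r => g q p r) = D3 S g := by
  unfold D3
  rw [sum_erase_comm S (fun p q => ∑ r ∈ (S.erase p).erase q, g p q r)]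
  refine Finset.sum_congr rfl fun p _ => Finset.sum_congr rfl fun q _ => ?_
  rw [erase_right_comm]

lemma D3_swap23 {β : Type*} [DecidableEq β] (S : Finset β) (g : β → β → β → ℝ) :
    D3 S (fun p q r => g p r q) = D3 S g := by
  unfold D3
  refine Finset.sum_congr rfl fun p _ => ?_
  exact (sum_erase_comm (S.erase p) (fun q r => g p q r)).symm

lemma D3_mono {β : Type*} [DecidableEq β] (S : Finset β) (g h : β → β → β → ℝ)
    (H : ∀ p ∈ S, ∀ q ∈ S.erase p, ∀ r ∈ (S.erase p).erase q, g p q r ≤ h p q r) :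
    D3 S g ≤ D3 S h := by
  unfold D3
  exact Finset.sum_le_sum fun p hp => Finset.sum_le_sum fun q hq => Finset.sum_le_sum fun r hr =>
    H p hp q hq r hr

lemma D3_add {β : Type*} [DecidableEq β] (S : Finset β) (g h : β → β → β → ℝ) :
    D3 S (fun p q r => g p q r + h p q r) = D3 S g + D3 S h := by
  unfold D3
  simp only [Finset.sum_add_distrib]

end swap

/-- indicator of a proposition, real valued -/
def ind (p : Prop) : ℝ := if p then 1 else 0

lemma ind_nonneg (p : Prop) : 0 ≤ ind p := by
  unfold ind; split_ifs <;> norm_num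

lemma ind_le_one (p : Prop) : ind p ≤ 1 := by
  unfold ind; split_ifs <;> norm_num

lemma ind_true {p : Prop} (h : p) : ind p = 1 := if_pos h

lemma ind_false {p : Prop} (h : ¬ p) : ind p = 0 := if_neg h

lemma ind_mono {p q : Prop} (h : p → q) : ind p ≤ ind q := by
  by_cases hp : p
  · rw [ind_true hp, ind_true (h hp)]
  · rw [ind_false hp]; exact ind_nonneg q

/-- number of elements of `S` lying in a set of at most `t` elements -/
lemma sum_ind_mem {β : Type*} [DecidableEq β] (S Y : Finset β) (t : ℕ) (hY : Y.card ≤ t) :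
    ∑ x ∈ S, ind (x ∈ Y) ≤ (t : ℝ) := by
  have e : ∑ x ∈ S, ind (x ∈ Y) = ∑ x ∈ S.filter (fun x => x ∈ Y), (1 : ℝ) := by
    rw [Finset.sum_filter]
    refine Finset.sum_congr rfl fun x _ => ?_
    by_cases h : x ∈ Y
    · rw [ind_true h, if_pos h]
    · rw [ind_false h, if_neg h]
  rw [e]
  simp only [sum_const, nsmul_eq_mul, mul_one]
  have h : (S.filter fun x => x ∈ Y) ⊆ Y := fun x hx => (mem_filter.1 hx).2
  exact_mod_cast (card_le_card h).trans hY

end

end Pool.Agent.Helper44.Cover
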