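import Pool.Agent.Helper44.CoverBasic

/-!
Labels attached to a family of sets with bounded covers, and the local counting bounds.
-/

set_option linter.unusedSectionVars false
set_option linter.unusedVariables false

open Finset

namespace Pool.Agent.Helper44.Cover

noncomputable section

open scoped Classical

variable {α : Type*} [DecidableEq α]

/-- every member `C` of `F` contains a set `Z C` of at most `t` elements which is contained in no
member of `F` properly contained in `C` -/
structure Cov (F : Finset (Finset α)) (Z : Finset α → Finset α) (t : ℕ) : Prop where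
  sub : ∀ C ∈ F, Z C ⊆ C
  card : ∀ C ∈ F, (Z C).card ≤ t
  no : ∀ C ∈ F, ∀ T ∈ F, T ⊂ C → ¬ Z C ⊆ T

/-- sets strictly below a member `C` of `F` and containing `Z C` -/
def isA (F : Finset (Finset α)) (Z : Finset α → Finset α) (W : Finset α) : Prop :=
  ∃ C ∈ F, W ⊂ C ∧ Z C ⊆ W

/-- sets below (possibly equal to) a member `C` of `F` and containing `Z C` -/
def isAF (F : Finset (Finset α)) (Z : Finset α → Finset α) (W : Finset α) : Prop :=
  ∃ C ∈ F, W ⊆ C ∧ Z C ⊆ W

/-- a chosen witness set -/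
def wz (F : Finset (Finset α)) (Z : Finset α → Finset α) (V : Finset α) : Finset α :=
  if h : isAF F Z V then Z h.choose else ∅

variable {F : Finset (Finset α)} {Z : Finset α → Finset α} {t : ℕ}

lemma isA.isAF {W : Finset α} (h : isA F Z W) : isAF F Z W := by
  obtain ⟨C, hC, h1, h2⟩ := h
  exact ⟨C, hC, h1.1, h2⟩

lemma isAF_of_mem (hc : Cov F Z t) {W : Finset α} (h : W ∈ F) : isAF F Z W :=
  ⟨W, h, Subset.refl _, hc.sub W h⟩

lemma isAF_cases {W : Finset α} (h : isAF F Z W) : isA F Z W ∨ W ∈ F := by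
  obtain ⟨C, hC, h1, h2⟩ := h
  rcases eq_or_ssubset_of_subset h1 with h | h
  · right; rw [h]; exact hC
  · left; exact ⟨C, hC, h, h2⟩

lemma not_isA_of_mem (hc : Cov F Z t) {W : Finset α} (h : W ∈ F) : ¬ isA F Z W := by
  rintro ⟨C, hC, h1, h2⟩
  exact hc.no C hC W h h1 h2

lemma wz_card (hc : Cov F Z t) (V : Finset α) : (wz F Z V).card ≤ t := by
  unfold wz
  split_ifs with h
  · exact hc.card _ h.choose_spec.1
  · simp

lemma exit {V W : Finset α} (hV : isAF F Z V) (hWV : W ⊂ V) (hW : ¬ isA F Z W) :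
    ∃ p ∈ wz F Z V, p ∈ V ∧ p ∉ W := by
  by_contra hcon
  push Not at hcon
  apply hW
  have hs := hV.choose_spec
  have e : wz F Z V = Z hV.choose := by unfold wz; rw [dif_pos hV]
  refine ⟨hV.choose, hs.1, lt_of_lt_of_le hWV hs.2.1, ?_⟩
  intro p hp
  exact hcon p (by rw [e]; exact hp) (hs.2.2 hp)

lemma exit1 {V : Finset α} {x : α} (hV : isAF F Z V) (hx : x ∈ V)
    (hW : ¬ isA F Z (V.erase x)) : x ∈ wz F Z V := by
  obtain ⟨p, h1, h2, h3⟩ := exit hV (erase_ssubset hx) hW
  have : p = x := by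
    by_contra hne
    exact h3 (mem_erase.2 ⟨hne, h2⟩)
  rw [← this]; exact h1

/-- indicator of label A -/
def cA (F : Finset (Finset α)) (Z : Finset α → Finset α) (W : Finset α) : ℝ := ind (isA F Z W)
/-- indicator of membership -/
def cF (F : Finset (Finset α)) (W : Finset α) : ℝ := ind (W ∈ F)
/-- indicator of label B -/
def cB (F : Finset (Finset α)) (Z : Finset α → Finset α) (W : Finset α) : ℝ := ind (¬ isAF F Z W)

lemma cA_nonneg (W : Finset α) : 0 ≤ cA F Z W := ind_nonneg _
lemma cF_nonneg (W : Finset α) : 0 ≤ cF F W := ind_nonneg _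
lemma cB_nonneg (W : Finset α) : 0 ≤ cB F Z W := ind_nonneg _

lemma c_sum (hc : Cov F Z t) (W : Finset α) : cA F Z W + cF F W + cB F Z W = 1 := by
  unfold cA cF cB
  by_cases h1 : isA F Z W
  · have h2 : W ∉ F := fun h => not_isA_of_mem hc h h1
    rw [ind_true h1, ind_false h2, ind_false (not_not.2 h1.isAF)]; norm_num
  · by_cases h2 : W ∈ F
    · rw [ind_false h1, ind_true h2, ind_false (not_not.2 (isAF_of_mem hc h2))]; norm_num
    · have h3 : ¬ isAF F Z W := fun h => (isAF_cases h).elim h1 h2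
      rw [ind_false h1, ind_false h2, ind_true h3]; norm_num

lemma notA_eq (hc : Cov F Z t) (W : Finset α) : ind (¬ isA F Z W) = cF F W + cB F Z W := by
  have h := c_sum hc W
  have : ind (¬ isA F Z W) = 1 - cA F Z W := by
    unfold cA
    by_cases h1 : isA F Z W
    · rw [ind_true h1, ind_false (not_not.2 h1)]; norm_num
    · rw [ind_false h1, ind_true h1]; norm_num
  linarith

variable [Fintype α]

/-- level sums -/
def lev (k : ℕ) (g : Finset α → ℝ) : ℝ := ∑ W ∈ powersetCard k (univ : Finset α), g W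

lemma lev_nonneg (k : ℕ) {g : Finset α → ℝ} (h : ∀ W, 0 ≤ g W) : 0 ≤ lev k g :=
  Finset.sum_nonneg fun W _ => h W

/-- edges from a set not labelled A up to a set labelled A -/
def outk (F : Finset (Finset α)) (Z : Finset α → Finset α) (k : ℕ) : ℝ :=
  ∑ W ∈ powersetCard k (univ : Finset α), ∑ x ∈ Wᶜ, ind (¬ isA F Z W) * cA F Z (insert x W)

/-- edges from a set not labelled A up to a member of the family -/
def ek (F : Finset (Finset α)) (Z : Finset α → Finset α) (k : ℕ) : ℝ :=
  ∑ W ∈ powersetCard k (univ : Finset α), ∑ x ∈ Wᶜ, ind (¬ isA F Z W) * cF F (insert x W)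

/-- edges from a set labelled A up to a set labelled B -/
def inn (F : Finset (Finset α)) (Z : Finset α → Finset α) (k : ℕ) : ℝ :=
  ∑ W ∈ powersetCard k (univ : Finset α), ∑ x ∈ Wᶜ, cA F Z W * cB F Z (insert x W)

lemma inn_nonneg (k : ℕ) : 0 ≤ inn F Z k :=
  Finset.sum_nonneg fun W _ => Finset.sum_nonneg fun x _ => mul_nonneg (cA_nonneg _) (cB_nonneg _)

lemma outk_nonneg (k : ℕ) : 0 ≤ outk F Z k :=
  Finset.sum_nonneg fun W _ => Finset.sum_nonneg fun x _ => mul_nonneg (ind_nonneg _) (cA_nonneg _)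

lemma ek_nonneg (k : ℕ) : 0 ≤ ek F Z k :=
  Finset.sum_nonneg fun W _ => Finset.sum_nonneg fun x _ => mul_nonneg (ind_nonneg _) (cF_nonneg _)

lemma card_compl_real {k : ℕ} {W : Finset α} (hW : W ∈ powersetCard k (univ : Finset α)) :
    ((Wᶜ).card : ℝ) = (Fintype.card α : ℝ) - k := by
  have h1 : W.card = k := (mem_powersetCard.1 hW).2
  rw [card_compl, h1, Nat.cast_sub]
  rw [← h1]; exact card_le_univ W

lemma card_real {k : ℕ} {W : Finset α} (hW : W ∈ powersetCard k (univ : Finset α)) :
    ((W).card : ℝ) = k := by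
  rw [(mem_powersetCard.1 hW).2]

/-- the flux identity -/
lemma flux (hc : Cov F Z t) (k : ℕ) :
    ((Fintype.card α : ℝ) - k) * (lev k (cF F) + lev k (cB F Z))
      = (k + 1) * lev (k+1) (cB F Z) + outk F Z k + ek F Z k - inn F Z k := by
  have h1 : ((Fintype.card α : ℝ) - k) * (lev k (cF F) + lev k (cB F Z))
      = ∑ W ∈ powersetCard k (univ : Finset α), ∑ x ∈ Wᶜ, ind (¬ isA F Z W) := by
    unfold lev
    rw [← Finset.sum_add_distrib, Finset.mul_sum]
    refine Finset.sum_congr rfl fun W hW => ?_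
    rw [Finset.sum_const, nsmul_eq_mul, card_compl_real hW, notA_eq hc]
  have h2 : ∑ W ∈ powersetCard k (univ : Finset α), ∑ x ∈ Wᶜ, ind (¬ isA F Z W)
      = outk F Z k + ek F Z k + ∑ W ∈ powersetCard k (univ : Finset α), ∑ x ∈ Wᶜ,
          ind (¬ isA F Z W) * cB F Z (insert x W) := by
    unfold outk ek
    rw [← Finset.sum_add_distrib, ← Finset.sum_add_distrib]
    refine Finset.sum_congr rfl fun W _ => ?_
    rw [← Finset.sum_add_distrib, ← Finset.sum_add_distrib]
    refine Finset.sum_congr rfl fun x _ => ?_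
    rw [← mul_add, ← mul_add, c_sum hc, mul_one]
  have h3 : ∑ W ∈ powersetCard k (univ : Finset α), ∑ x ∈ Wᶜ,
          ind (¬ isA F Z W) * cB F Z (insert x W) + inn F Z k
      = (k + 1) * lev (k+1) (cB F Z) := by
    have h4 : ∑ W ∈ powersetCard k (univ : Finset α), ∑ x ∈ Wᶜ, cB F Z (insert x W)
        = (k + 1) * lev (k+1) (cB F Z) := by
      rw [edge_swap k (fun W x => cB F Z (insert x W))]
      unfold lev
      rw [Finset.mul_sum]
      refine Finset.sum_congr rfl fun V hV => ?_
      rw [Finset.sum_congr rfl (g := fun _ => cB F Z V)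
        (fun x hx => by rw [insert_erase hx])]
      rw [Finset.sum_const, nsmul_eq_mul, card_real hV]
      push_cast; ring
    rw [← h4]
    unfold inn
    rw [← Finset.sum_add_distrib]
    refine Finset.sum_congr rfl fun W _ => ?_
    rw [← Finset.sum_add_distrib]
    refine Finset.sum_congr rfl fun x _ => ?_
    rw [← add_mul]
    have : ind (¬ isA F Z W) + cA F Z W = 1 := by
      rw [notA_eq hc]; have := c_sum hc W; linarith
    rw [this, one_mul]
  linarith

lemma outk_le (hc : Cov F Z t) (k : ℕ) : outk F Z k ≤ t * lev (k+1) (cA F Z) := by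
  unfold outk
  rw [edge_swap k (fun W x => ind (¬ isA F Z W) * cA F Z (insert x W))]
  unfold lev
  rw [Finset.mul_sum]
  refine Finset.sum_le_sum fun V hV => ?_
  by_cases h : isA F Z V
  · have e : cA F Z V = 1 := ind_true h
    rw [e, mul_one]
    refine le_trans (Finset.sum_le_sum (g := fun x => ind (x ∈ wz F Z V)) fun x hx => ?_)
      (sum_ind_mem V _ t (wz_card hc V))
    rw [insert_erase hx, e, mul_one]
    exact ind_mono fun h2 => exit1 h.isAF hx h2
  · have e : cA F Z V = 0 := ind_false h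
    rw [e, mul_zero]
    refine (Finset.sum_eq_zero fun x hx => ?_).le
    rw [insert_erase hx, e, mul_zero]

lemma ek_le (hc : Cov F Z t) (k : ℕ) : ek F Z k ≤ t * lev (k+1) (cF F) := by
  unfold ek
  rw [edge_swap k (fun W x => ind (¬ isA F Z W) * cF F (insert x W))]
  unfold lev
  rw [Finset.mul_sum]
  refine Finset.sum_le_sum fun V hV => ?_
  by_cases h : V ∈ F
  · have e : cF F V = 1 := ind_true h
    rw [e, mul_one]
    refine le_trans (Finset.sum_le_sum (g := fun x => ind (x ∈ wz F Z V)) fun x hx => ?_)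
      (sum_ind_mem V _ t (wz_card hc V))
    rw [insert_erase hx, e, mul_one]
    exact ind_mono fun h2 => exit1 (isAF_of_mem hc h) hx h2
  · have e : cF F V = 0 := ind_false h
    rw [e, mul_zero]
    refine (Finset.sum_eq_zero fun x hx => ?_).le
    rw [insert_erase hx, e, mul_zero]

/-- the up-neighbours labelled A -/
def Q (F : Finset (Finset α)) (Z : Finset α → Finset α) (W : Finset α) : Finset α :=
  (Wᶜ).filter fun x => isA F Z (insert x W)

lemma mem_Q {W : Finset α} {x : α} : x ∈ Q F Z W ↔ x ∉ W ∧ isA F Z (insert x W) := by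
  unfold Q; rw [mem_filter, mem_compl]

lemma sum_cA (W : Finset α) : ∑ x ∈ Wᶜ, cA F Z (insert x W) = ((Q F Z W).card : ℝ) := by
  unfold Q
  rw [Finset.card_eq_sum_ones, Finset.sum_filter]
  push_cast
  refine Finset.sum_congr rfl fun x _ => ?_
  unfold cA
  by_cases h : isA F Z (insert x W)
  · rw [ind_true h, if_pos h]
  · rw [ind_false h, if_neg h]

lemma outk_eq (k : ℕ) : outk F Z k
    = ∑ W ∈ powersetCard k (univ : Finset α), ind (¬ isA F Z W) * ((Q F Z W).card : ℝ) := by
  unfold outk
  refine Finset.sum_congr rfl fun W _ => ?_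
  rw [← sum_cA, Finset.mul_sum]

/-- sets with few up-neighbours labelled A -/
lemma small_part (hc : Cov F Z t) (k m : ℕ) (h1 : 2 * k + 1 + m ≤ Fintype.card α)
    (h2 : 2 * m + k + 1 ≤ Fintype.card α) :
    ∑ W ∈ powersetCard k (univ : Finset α),
      ind (¬ isA F Z W ∧ (Q F Z W).card ≤ m) * ((Q F Z W).card : ℝ)
      ≤ m * lev (k+1) (cB F Z) + t * lev (k+1) (cF F) := by
  set n : ℝ := (Fintype.card α : ℝ) with hn
  set S : ℝ := ∑ W ∈ powersetCard k (univ : Finset α),
      ind (¬ isA F Z W ∧ (Q F Z W).card ≤ m) with hS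
  have hS0 : 0 ≤ S := Finset.sum_nonneg fun W _ => ind_nonneg _
  have a1 : ∑ W ∈ powersetCard k (univ : Finset α),
      ind (¬ isA F Z W ∧ (Q F Z W).card ≤ m) * ((Q F Z W).card : ℝ) ≤ m * S := by
    rw [hS, Finset.mul_sum]
    refine Finset.sum_le_sum fun W _ => ?_
    by_cases h : (¬ isA F Z W ∧ (Q F Z W).card ≤ m)
    · rw [ind_true h]
      have : ((Q F Z W).card : ℝ) ≤ m := by exact_mod_cast h.2
      linarith
    · rw [ind_false h]; simp
  have a2 : (n - k - m) * S ≤ (k+1) * lev (k+1) (cB F Z) + t * lev (k+1) (cF F) := by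
    have b1 : (n - k - m) * S ≤ ∑ W ∈ powersetCard k (univ : Finset α), ∑ x ∈ Wᶜ,
        (ind (¬ isA F Z W) * cF F (insert x W) + cB F Z (insert x W)) := by
      rw [hS, Finset.mul_sum]
      refine Finset.sum_le_sum fun W hW => ?_
      by_cases h : (¬ isA F Z W ∧ (Q F Z W).card ≤ m)
      · rw [ind_true h, ind_true h.1, mul_one]
        have c1 : ∑ x ∈ Wᶜ, (1 * cF F (insert x W) + cB F Z (insert x W))
            = ∑ x ∈ Wᶜ, (1 - cA F Z (insert x W)) := by
          refine Finset.sum_congr rfl fun x _ => ?_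
          have := c_sum hc (insert x W)
          linarith
        rw [c1, Finset.sum_sub_distrib, sum_cA, Finset.sum_const, nsmul_eq_mul, mul_one,
          card_compl_real hW]
        have : ((Q F Z W).card : ℝ) ≤ m := by exact_mod_cast h.2
        linarith
      · rw [ind_false h, mul_zero]
        exact Finset.sum_nonneg fun x _ => add_nonneg (mul_nonneg (ind_nonneg _) (cF_nonneg _))
          (cB_nonneg _)
    refine b1.trans ?_
    simp only [Finset.sum_add_distrib]
    have b2 : ∑ W ∈ powersetCard k (univ : Finset α), ∑ x ∈ Wᶜ, cB F Z (insert x W)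
        = (k + 1) * lev (k+1) (cB F Z) := by
      rw [edge_swap k (fun W x => cB F Z (insert x W))]
      unfold lev
      rw [Finset.mul_sum]
      refine Finset.sum_congr rfl fun V hV => ?_
      rw [Finset.sum_congr rfl (g := fun _ => cB F Z V)
        (fun x hx => by rw [insert_erase hx])]
      rw [Finset.sum_const, nsmul_eq_mul, card_real hV]
      push_cast; ring
    rw [b2]
    have b3 := ek_le hc (F := F) (Z := Z) k
    unfold ek at b3
    linarith
  have hB : 0 ≤ lev (k+1) (cB F Z) := lev_nonneg _ fun W => cB_nonneg W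
  have hF : 0 ≤ lev (k+1) (cF F) := lev_nonneg _ fun W => cF_nonneg W
  have e1 : (2 * (k:ℝ) + 1 + m) ≤ n := by rw [hn]; exact_mod_cast h1
  have e2 : (2 * (m:ℝ) + k + 1) ≤ n := by rw [hn]; exact_mod_cast h2
  have m0 : (0:ℝ) ≤ m := Nat.cast_nonneg _
  have k0 : (0:ℝ) ≤ k := Nat.cast_nonneg _
  have t0 : (0:ℝ) ≤ t := Nat.cast_nonneg _
  have hD : 0 < n - k - m := by linarith
  refine a1.trans ?_
  -- multiply by D
  have a3 : (n - k - m) * (m * S) ≤ (n - k - m) * (m * lev (k+1) (cB F Z) + t * lev (k+1) (cF F)) := by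
    have : (n - k - m) * (m * S) = m * ((n - k - m) * S) := by ring
    rw [this]
    refine (mul_le_mul_of_nonneg_left a2 m0).trans ?_
    have c1 : (m:ℝ) * ((k+1) * lev (k+1) (cB F Z)) ≤ (n - k - m) * (m * lev (k+1) (cB F Z)) := by
      have : (m:ℝ) * ((k+1) * lev (k+1) (cB F Z)) = (k+1) * (m * lev (k+1) (cB F Z)) := by ring
      rw [this]
      apply mul_le_mul_of_nonneg_right (by linarith) (by positivity)
    have c2 : (m:ℝ) * (t * lev (k+1) (cF F)) ≤ (n - k - m) * (t * lev (k+1) (cF F)) := by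
      apply mul_le_mul_of_nonneg_right (by linarith) (by positivity)
    linarith
  exact le_of_mul_le_mul_left a3 hD

end

end Pool.Agent.Helper44.Cover
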