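import Pool.Agent.Helper44.CoverLabels

/-!
Third moment bounds for the number of exits.
-/

set_option linter.unusedSectionVars false
set_option linter.unusedVariables false

open Finset

namespace Pool.Agent.Helper44.Cover

noncomputable section

open scoped Classical

lemma sum_le_sum_sub {β : Type*} {S T : Finset β} {f g : β → ℝ} (hST : S ⊆ T)
    (h : ∀ i ∈ S, f i ≤ g i) (h0 : ∀ i, 0 ≤ g i) : ∑ i ∈ S, f i ≤ ∑ i ∈ T, g i :=
  (Finset.sum_le_sum h).trans (Finset.sum_le_sum_of_subset_of_nonneg hST fun i _ _ => h0 i)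

section general

variable {β : Type*} [DecidableEq β]

lemma D3_one (S : Finset β) :
    D3 S (fun _ _ _ => (1:ℝ)) = (S.card : ℝ) * ((S.card : ℝ) - 1) * ((S.card : ℝ) - 2) := by
  unfold D3
  have h1 : ∀ p ∈ S, ∑ q ∈ S.erase p, ∑ r ∈ (S.erase p).erase q, (1:ℝ)
      = ((S.card : ℝ) - 1) * ((S.card : ℝ) - 2) := by
    intro p hp
    have c1 : ((S.erase p).card : ℝ) = (S.card : ℝ) - 1 := by
      rw [card_erase_of_mem hp, Nat.cast_sub (card_pos.2 ⟨p, hp⟩)]; simp
    have h2 : ∀ q ∈ S.erase p, ∑ r ∈ (S.erase p).erase q, (1:ℝ) = (S.card : ℝ) - 2 := by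
      intro q hq
      rw [Finset.sum_const, nsmul_eq_mul, mul_one, card_erase_of_mem hq,
        Nat.cast_sub (card_pos.2 ⟨q, hq⟩), c1]
      push_cast; ring
    rw [Finset.sum_congr rfl h2, Finset.sum_const, nsmul_eq_mul, c1]
  rw [Finset.sum_congr rfl h1, Finset.sum_const, nsmul_eq_mul]
  ring

lemma D3_first (S : Finset β) (g : β → β → ℝ) :
    D3 S (fun p q _ => g p q) = ((S.card : ℝ) - 2) * ∑ p ∈ S, ∑ q ∈ S.erase p, g p q := by
  unfold D3
  rw [Finset.mul_sum]
  refine Finset.sum_congr rfl fun p hp => ?_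
  rw [Finset.mul_sum]
  refine Finset.sum_congr rfl fun q hq => ?_
  have c1 : ((S.erase p).card : ℝ) = (S.card : ℝ) - 1 := by
    rw [card_erase_of_mem hp, Nat.cast_sub (card_pos.2 ⟨p, hp⟩)]; simp
  rw [Finset.sum_const, nsmul_eq_mul, card_erase_of_mem hq,
        Nat.cast_sub (card_pos.2 ⟨q, hq⟩), c1]
  push_cast; ring

lemma moment (S : Finset β) (c : β → β → Prop) :
    (S.card : ℝ) * ((S.card : ℝ) - 1) * ((S.card : ℝ) - 2)
      ≤ D3 S (fun x y z => ind (c x y ∧ c x z ∧ c y z))
        + 3 * (((S.card : ℝ) - 2) * ∑ x ∈ S, ∑ y ∈ S.erase x, ind (¬ c x y)) := by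
  rw [← D3_one]
  have h1 : D3 S (fun _ _ _ => (1:ℝ)) ≤ D3 S (fun x y z => ind (c x y ∧ c x z ∧ c y z)
      + (ind (¬ c x y) + (ind (¬ c x z) + ind (¬ c y z)))) := by
    apply D3_mono
    intro x _ y _ z _
    by_cases a : c x y <;> by_cases b : c x z <;> by_cases d : c y z <;>
      simp [ind, a, b, d]
  refine h1.trans ?_
  rw [D3_add, D3_add, D3_add]
  have e1 : D3 S (fun x y z => ind (¬ c x y))
      = ((S.card : ℝ) - 2) * ∑ x ∈ S, ∑ y ∈ S.erase x, ind (¬ c x y) :=
    D3_first S (fun x y => ind (¬ c x y))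
  have e2 : D3 S (fun x y z => ind (¬ c x z))
      = ((S.card : ℝ) - 2) * ∑ x ∈ S, ∑ y ∈ S.erase x, ind (¬ c x y) := by
    rw [← e1]
    exact D3_swap23 S (fun x y z => ind (¬ c x y))
  have e3 : D3 S (fun x y z => ind (¬ c y z))
      = ((S.card : ℝ) - 2) * ∑ x ∈ S, ∑ y ∈ S.erase x, ind (¬ c x y) := by
    rw [← e2]
    exact D3_swap12 S (fun x y z => ind (¬ c x z))
  rw [e1, e2, e3]
  linarith

end general

variable {α : Type*} [DecidableEq α]
variable {F : Finset (Finset α)} {Z : Finset α → Finset α} {t : ℕ}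

/-- weight of a two step exit -/
def P2 (F : Finset (Finset α)) (Z : Finset α → Finset α) (V : Finset α) (y x : α) : ℝ :=
  ind (y ∈ wz F Z V) * ind (x ∈ wz F Z (V.erase y))

/-- weight of a three step exit -/
def P3 (F : Finset (Finset α)) (Z : Finset α → Finset α) (U : Finset α) (p q r : α) : ℝ :=
  ind (p ∈ wz F Z U) * P2 F Z (U.erase p) q r

lemma P2_nonneg (V : Finset α) (y x : α) : 0 ≤ P2 F Z V y x :=
  mul_nonneg (ind_nonneg _) (ind_nonneg _)

lemma P3_nonneg (V : Finset α) (p q r : α) : 0 ≤ P3 F Z V p q r :=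
  mul_nonneg (ind_nonneg _) (P2_nonneg _ _ _)

lemma P2_sum (hc : Cov F Z t) (V : Finset α) :
    ∑ y ∈ V, ∑ x ∈ V.erase y, P2 F Z V y x ≤ (t:ℝ)^2 := by
  have h1 : ∀ y ∈ V, ∑ x ∈ V.erase y, P2 F Z V y x ≤ ind (y ∈ wz F Z V) * t := by
    intro y _
    unfold P2
    rw [← Finset.mul_sum]
    exact mul_le_mul_of_nonneg_left (sum_ind_mem _ _ t (wz_card hc _)) (ind_nonneg _)
  refine (Finset.sum_le_sum h1).trans ?_
  rw [← Finset.sum_mul, pow_two]
  exact mul_le_mul_of_nonneg_right (sum_ind_mem _ _ t (wz_card hc _)) (Nat.cast_nonneg _)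

lemma P3_sum (hc : Cov F Z t) (U : Finset α) : D3 U (P3 F Z U) ≤ (t:ℝ)^3 := by
  unfold D3
  have h1 : ∀ p ∈ U, ∑ q ∈ U.erase p, ∑ r ∈ (U.erase p).erase q, P3 F Z U p q r
      ≤ ind (p ∈ wz F Z U) * (t:ℝ)^2 := by
    intro p _
    unfold P3
    simp only [← Finset.mul_sum]
    exact mul_le_mul_of_nonneg_left (P2_sum hc (U.erase p)) (ind_nonneg _)
  refine (Finset.sum_le_sum h1).trans ?_
  rw [← Finset.sum_mul]
  have : (t:ℝ)^3 = t * (t:ℝ)^2 := by ring
  rw [this]
  exact mul_le_mul_of_nonneg_right (sum_ind_mem _ _ t (wz_card hc _)) (by positivity)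

lemma pair_exit {V : Finset α} {y x : α} (hV : isAF F Z V) (hy : y ∈ V) (hx : x ∈ V.erase y)
    (hW : ¬ isA F Z ((V.erase y).erase x)) (h1 : isA F Z (V.erase y)) (h2 : isA F Z (V.erase x)) :
    1 ≤ P2 F Z V y x + P2 F Z V x y := by
  have hxV : x ∈ V := mem_of_mem_erase hx
  have hne : x ≠ y := ne_of_mem_erase hx
  have hss : (V.erase y).erase x ⊂ V := lt_of_le_of_lt (erase_subset _ _) (erase_ssubset hy)
  obtain ⟨p, hp1, hp2, hp3⟩ := exit hV hss hW
  have hp : p = y ∨ p = x := by
    by_contra hcon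
    push Not at hcon
    exact hp3 (mem_erase.2 ⟨hcon.2, mem_erase.2 ⟨hcon.1, hp2⟩⟩)
  rcases hp with hp | hp
  · subst hp
    have h3 : x ∈ wz F Z (V.erase p) := exit1 h1.isAF hx hW
    have : P2 F Z V p x = 1 := by unfold P2; rw [ind_true hp1, ind_true h3]; norm_num
    have := P2_nonneg (F := F) (Z := Z) V x p
    linarith
  · subst hp
    have hW' : ¬ isA F Z ((V.erase p).erase y) := by rw [erase_right_comm]; exact hW
    have h3 : y ∈ wz F Z (V.erase p) :=
      exit1 h2.isAF (mem_erase.2 ⟨hne.symm, hy⟩) hW'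
    have : P2 F Z V p y = 1 := by unfold P2; rw [ind_true hp1, ind_true h3]; norm_num
    have := P2_nonneg (F := F) (Z := Z) V y p
    linarith

lemma triple_exit {U : Finset α} {z y x : α} (hU : isAF F Z U) (hz : z ∈ U) (hy : y ∈ U.erase z)
    (hx : x ∈ (U.erase z).erase y)
    (hW : ¬ isA F Z (((U.erase z).erase y).erase x))
    (h1 : isA F Z (U.erase z)) (h2 : isA F Z (U.erase y)) (h3 : isA F Z (U.erase x))
    (h4 : isA F Z ((U.erase z).erase y)) (h5 : isA F Z ((U.erase z).erase x))
    (h6 : isA F Z ((U.erase y).erase x)) :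
    1 ≤ P3 F Z U z y x + (P3 F Z U z x y + (P3 F Z U y z x + (P3 F Z U y x z
      + (P3 F Z U x z y + P3 F Z U x y z)))) := by
  have hyU : y ∈ U := mem_of_mem_erase hy
  have hyz : y ≠ z := ne_of_mem_erase hy
  have hx1 : x ∈ U.erase z := mem_of_mem_erase hx
  have hxy : x ≠ y := ne_of_mem_erase hx
  have hxU : x ∈ U := mem_of_mem_erase hx1
  have hxz : x ≠ z := ne_of_mem_erase hx1
  have hss : ((U.erase z).erase y).erase x ⊂ U :=
    lt_of_le_of_lt ((erase_subset _ _).trans (erase_subset _ _)) (erase_ssubset hz)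
  obtain ⟨p, hp1, hp2, hp3⟩ := exit hU hss hW
  have hp : p = z ∨ p = y ∨ p = x := by
    by_contra hcon
    push Not at hcon
    exact hp3 (mem_erase.2 ⟨hcon.2.2, mem_erase.2 ⟨hcon.2.1, mem_erase.2 ⟨hcon.1, hp2⟩⟩⟩)
  have n1 := P3_nonneg (F := F) (Z := Z) U z y x
  have n2 := P3_nonneg (F := F) (Z := Z) U z x y
  have n3 := P3_nonneg (F := F) (Z := Z) U y z x
  have n4 := P3_nonneg (F := F) (Z := Z) U y x z
  have n5 := P3_nonneg (F := F) (Z := Z) U x z y
  have n6 := P3_nonneg (F := F) (Z := Z) U x y z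
  rcases hp with hp | hp | hp
  · subst hp
    have key := pair_exit (V := U.erase p) (y := y) (x := x) h1.isAF hy hx hW h4 h5
    have e1 : P3 F Z U p y x = P2 F Z (U.erase p) y x := by
      unfold P3; rw [ind_true hp1, one_mul]
    have e2 : P3 F Z U p x y = P2 F Z (U.erase p) x y := by
      unfold P3; rw [ind_true hp1, one_mul]
    linarith
  · subst hp
    have hW' : ¬ isA F Z (((U.erase p).erase z).erase x) := by
      rw [erase_right_comm (a := p) (b := z)]; exact hW
    have h4' : isA F Z ((U.erase p).erase z) := by rw [erase_right_comm]; exact h4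
    have key := pair_exit (V := U.erase p) (y := z) (x := x) h2.isAF
      (mem_erase.2 ⟨hyz.symm, hz⟩) (mem_erase.2 ⟨hxz, mem_erase.2 ⟨hxy, hxU⟩⟩) hW' h4' h6
    have e1 : P3 F Z U p z x = P2 F Z (U.erase p) z x := by
      unfold P3; rw [ind_true hp1, one_mul]
    have e2 : P3 F Z U p x z = P2 F Z (U.erase p) x z := by
      unfold P3; rw [ind_true hp1, one_mul]
    linarith
  · subst hp
    have hW' : ¬ isA F Z (((U.erase p).erase z).erase y) := by
      rw [erase_right_comm (a := p) (b := z), erase_right_comm (s := U.erase z)]; exact hW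
    have h5' : isA F Z ((U.erase p).erase z) := by rw [erase_right_comm]; exact h5
    have h6' : isA F Z ((U.erase p).erase y) := by rw [erase_right_comm]; exact h6
    have key := pair_exit (V := U.erase p) (y := z) (x := y) h3.isAF
      (mem_erase.2 ⟨hxz.symm, hz⟩) (mem_erase.2 ⟨hyz, mem_erase.2 ⟨hxy.symm, hyU⟩⟩) hW' h5' h6'
    have e1 : P3 F Z U p z y = P2 F Z (U.erase p) z y := by
      unfold P3; rw [ind_true hp1, one_mul]
    have e2 : P3 F Z U p y z = P2 F Z (U.erase p) y z := by
      unfold P3; rw [ind_true hp1, one_mul]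
    linarith

variable [Fintype α]

lemma edge_swap2 (k : ℕ) (g : Finset α → α → α → ℝ) :
    ∑ W ∈ powersetCard k (univ : Finset α), ∑ x ∈ Wᶜ, ∑ y ∈ (insert x W)ᶜ, g W x y
      = ∑ V ∈ powersetCard (k+2) (univ : Finset α), ∑ y ∈ V, ∑ x ∈ V.erase y,
          g ((V.erase y).erase x) x y := by
  rw [edge_swap k (fun W x => ∑ y ∈ (insert x W)ᶜ, g W x y)]
  have h1 : ∀ V ∈ powersetCard (k+1) (univ : Finset α),
      ∑ x ∈ V, ∑ y ∈ (insert x (V.erase x))ᶜ, g (V.erase x) x y
        = ∑ y ∈ Vᶜ, ∑ x ∈ V, g (V.erase x) x y := by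
    intro V _
    rw [Finset.sum_comm (s := Vᶜ)]
    refine Finset.sum_congr rfl fun x hx => ?_
    rw [insert_erase hx]
  rw [Finset.sum_congr rfl h1, edge_swap (k+1) (fun V y => ∑ x ∈ V, g (V.erase x) x y)]

lemma edge_swap3 (k : ℕ) (g : Finset α → α → α → α → ℝ) :
    ∑ W ∈ powersetCard k (univ : Finset α), ∑ x ∈ Wᶜ, ∑ y ∈ (insert x W)ᶜ,
        ∑ z ∈ (insert y (insert x W))ᶜ, g W x y z
      = ∑ U ∈ powersetCard (k+3) (univ : Finset α),
          D3 U (fun z y x => g (((U.erase z).erase y).erase x) x y z) := by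
  rw [edge_swap2 k (fun W x y => ∑ z ∈ (insert y (insert x W))ᶜ, g W x y z)]
  have h1 : ∀ V ∈ powersetCard (k+2) (univ : Finset α),
      ∑ y ∈ V, ∑ x ∈ V.erase y, ∑ z ∈ (insert y (insert x ((V.erase y).erase x)))ᶜ,
        g ((V.erase y).erase x) x y z
        = ∑ z ∈ Vᶜ, ∑ y ∈ V, ∑ x ∈ V.erase y, g ((V.erase y).erase x) x y z := by
    intro V _
    rw [Finset.sum_comm (s := Vᶜ)]
    refine Finset.sum_congr rfl fun y hy => ?_
    rw [Finset.sum_comm (s := Vᶜ)]
    refine Finset.sum_congr rfl fun x hx => ?_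
    rw [insert_erase hx, insert_erase hy]
  rw [Finset.sum_congr rfl h1,
    edge_swap (k+2) (fun V z => ∑ y ∈ V, ∑ x ∈ V.erase y, g ((V.erase y).erase x) x y z)]
  rfl

/-- clean relation -/
def cl (F : Finset (Finset α)) (Z : Finset α → Finset α) (W : Finset α) (x y : α) : Prop :=
  isA F Z (insert y (insert x W))

/-- number of ordered clean triples -/
def T3 (F : Finset (Finset α)) (Z : Finset α → Finset α) (W : Finset α) : ℝ :=
  D3 (Q F Z W) (fun x y z => ind (cl F Z W x y ∧ cl F Z W x z ∧ cl F Z W y z))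

/-- number of ordered unclean pairs -/
def U2 (F : Finset (Finset α)) (Z : Finset α → Finset α) (W : Finset α) : ℝ :=
  ∑ x ∈ Q F Z W, ∑ y ∈ (Q F Z W).erase x, ind (¬ cl F Z W x y)

lemma T3_nonneg (W : Finset α) : 0 ≤ T3 F Z W :=
  Finset.sum_nonneg fun _ _ => Finset.sum_nonneg fun _ _ => Finset.sum_nonneg fun _ _ =>
    ind_nonneg _

lemma U2_nonneg (W : Finset α) : 0 ≤ U2 F Z W :=
  Finset.sum_nonneg fun _ _ => Finset.sum_nonneg fun _ _ => ind_nonneg _

lemma sum_U2 (hc : Cov F Z t) (k : ℕ) :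
    ∑ W ∈ powersetCard k (univ : Finset α), ind (¬ isA F Z W) * U2 F Z W
      ≤ 2 * (t:ℝ)^2 * lev (k+2) (cF F) + t * inn F Z (k+1) := by
  set H : Finset α → α → α → ℝ := fun W x y => ind (¬ isA F Z W ∧ isA F Z (insert x W) ∧
    isA F Z (insert y W) ∧ ¬ isA F Z (insert y (insert x W))) with hH
  have step1 : ∑ W ∈ powersetCard k (univ : Finset α), ind (¬ isA F Z W) * U2 F Z W
      ≤ ∑ W ∈ powersetCard k (univ : Finset α), ∑ x ∈ Wᶜ, ∑ y ∈ (insert x W)ᶜ, H W x y := by
    refine Finset.sum_le_sum fun W _ => ?_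
    unfold U2
    rw [Finset.mul_sum]
    refine sum_le_sum_sub (fun x hx => ?_) (fun x hx => ?_)
      (fun x => Finset.sum_nonneg fun _ _ => ind_nonneg _)
    · exact mem_compl.2 (mem_Q.1 hx).1
    · rw [Finset.mul_sum]
      refine sum_le_sum_sub (fun y hy => ?_) (fun y hy => ?_) (fun _ => ind_nonneg _)
      · have h1 := mem_erase.1 hy
        have h2 := mem_Q.1 h1.2
        rw [mem_compl, mem_insert]
        push Not
        exact ⟨h1.1, h2.1⟩
      · have h1 := mem_erase.1 hy
        have h2 := mem_Q.1 h1.2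
        have h3 := mem_Q.1 hx
        by_cases a : isA F Z W
        · rw [ind_false (not_not.2 a), zero_mul]; exact ind_nonneg _
        · rw [ind_true a, one_mul]
          exact ind_mono fun h => ⟨a, h3.2, h2.2, h⟩
  refine step1.trans ?_
  rw [edge_swap2 k H]
  have step2 : ∀ V ∈ powersetCard (k+2) (univ : Finset α),
      ∑ y ∈ V, ∑ x ∈ V.erase y, H ((V.erase y).erase x) x y
      ≤ 2 * (t:ℝ)^2 * cF F V + ∑ y ∈ V, t * (cA F Z (V.erase y) * cB F Z V) := by
    intro V _
    have hk : ∀ y ∈ V, ∀ x ∈ V.erase y, H ((V.erase y).erase x) x y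
        = ind (¬ isA F Z ((V.erase y).erase x) ∧ isA F Z (V.erase y) ∧
          isA F Z (V.erase x) ∧ ¬ isA F Z V) := by
      intro y hy x hx
      have hxV : x ∈ V := mem_of_mem_erase hx
      have hne : x ≠ y := ne_of_mem_erase hx
      simp only [hH]
      rw [insert_erase hx, insert_erase hy, erase_right_comm,
        insert_erase (mem_erase.2 ⟨hne.symm, hy⟩)]
    have hn : 0 ≤ ∑ y ∈ V, (t:ℝ) * (cA F Z (V.erase y) * cB F Z V) :=
      Finset.sum_nonneg fun _ _ => mul_nonneg (Nat.cast_nonneg _)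
        (mul_nonneg (cA_nonneg _) (cB_nonneg _))
    by_cases hA : isA F Z V
    · have : ∑ y ∈ V, ∑ x ∈ V.erase y, H ((V.erase y).erase x) x y = 0 := by
        refine Finset.sum_eq_zero fun y hy => Finset.sum_eq_zero fun x hx => ?_
        rw [hk y hy x hx]
        exact ind_false fun h => h.2.2.2 hA
      rw [this]
      have := cF_nonneg (F := F) V
      positivity
    · by_cases hF : V ∈ F
      · have h1 : ∑ y ∈ V, ∑ x ∈ V.erase y, H ((V.erase y).erase x) x y
            ≤ ∑ y ∈ V, ∑ x ∈ V.erase y, (P2 F Z V y x + P2 F Z V x y) := by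
          refine Finset.sum_le_sum fun y hy => Finset.sum_le_sum fun x hx => ?_
          rw [hk y hy x hx]
          by_cases h : (¬ isA F Z ((V.erase y).erase x) ∧ isA F Z (V.erase y) ∧
            isA F Z (V.erase x) ∧ ¬ isA F Z V)
          · rw [ind_true h]
            exact pair_exit (isAF_of_mem hc hF) hy hx h.1 h.2.1 h.2.2.1
          · rw [ind_false h]
            exact add_nonneg (P2_nonneg _ _ _) (P2_nonneg _ _ _)
        have h2 : ∑ y ∈ V, ∑ x ∈ V.erase y, (P2 F Z V y x + P2 F Z V x y)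
            ≤ 2 * (t:ℝ)^2 := by
          simp only [Finset.sum_add_distrib]
          rw [← sum_erase_comm V (fun y x => P2 F Z V y x)]
          have := P2_sum hc V
          linarith
        have h3 : cF F V = 1 := ind_true hF
        rw [h3]
        linarith
      · have hB : ¬ isAF F Z V := fun h => (isAF_cases h).elim hA hF
        have h3 : cB F Z V = 1 := ind_true hB
        have h4 : cF F V = 0 := ind_false hF
        rw [h3, h4, mul_zero, zero_add]
        refine Finset.sum_le_sum fun y hy => ?_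
        rw [mul_one]
        by_cases hAy : isA F Z (V.erase y)
        · have h5 : cA F Z (V.erase y) = 1 := ind_true hAy
          rw [h5, mul_one]
          refine le_trans (Finset.sum_le_sum (g := fun x => ind (x ∈ wz F Z (V.erase y)))
            fun x hx => ?_) (sum_ind_mem _ _ t (wz_card hc _))
          rw [hk y hy x hx]
          exact ind_mono fun h => exit1 hAy.isAF hx h.1
        · have h5 : cA F Z (V.erase y) = 0 := ind_false hAy
          rw [h5, mul_zero]
          refine (Finset.sum_eq_zero fun x hx => ?_).le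
          rw [hk y hy x hx]
          exact ind_false fun h => hAy h.2.1
  refine (Finset.sum_le_sum step2).trans ?_
  rw [Finset.sum_add_distrib, ← Finset.mul_sum]
  unfold inn lev
  rw [edge_swap (k+1) (fun W x => cA F Z W * cB F Z (insert x W))]
  rw [Finset.mul_sum (a := (t:ℝ))]
  refine add_le_add le_rfl (Finset.sum_le_sum fun V _ => ?_)
  rw [Finset.mul_sum]
  refine Finset.sum_le_sum fun y hy => ?_
  rw [insert_erase hy]

lemma sum_T3 (hc : Cov F Z t) (k : ℕ) :
    ∑ W ∈ powersetCard k (univ : Finset α), ind (¬ isA F Z W) * T3 F Z W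
      ≤ 6 * (t:ℝ)^3 * ((Fintype.card α).choose (k+3)) + 2 * (t:ℝ)^2 * inn F Z (k+2) := by
  set G : Finset α → α → α → α → ℝ := fun W x y z => ind (¬ isA F Z W ∧ isA F Z (insert x W) ∧
    isA F Z (insert y W) ∧ isA F Z (insert z W) ∧ isA F Z (insert y (insert x W)) ∧
    isA F Z (insert z (insert x W)) ∧ isA F Z (insert z (insert y W))) with hG
  have step1 : ∑ W ∈ powersetCard k (univ : Finset α), ind (¬ isA F Z W) * T3 F Z W
      ≤ ∑ W ∈ powersetCard k (univ : Finset α), ∑ x ∈ Wᶜ, ∑ y ∈ (insert x W)ᶜ,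
        ∑ z ∈ (insert y (insert x W))ᶜ, G W x y z := by
    refine Finset.sum_le_sum fun W _ => ?_
    unfold T3 D3
    rw [Finset.mul_sum]
    refine sum_le_sum_sub (fun x hx => ?_) (fun x hx => ?_)
      (fun x => Finset.sum_nonneg fun _ _ => Finset.sum_nonneg fun _ _ => ind_nonneg _)
    · exact mem_compl.2 (mem_Q.1 hx).1
    · rw [Finset.mul_sum]
      refine sum_le_sum_sub (fun y hy => ?_) (fun y hy => ?_)
        (fun _ => Finset.sum_nonneg fun _ _ => ind_nonneg _)
      · have h1 := mem_erase.1 hy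
        have h2 := mem_Q.1 h1.2
        rw [mem_compl, mem_insert]
        push Not
        exact ⟨h1.1, h2.1⟩
      · rw [Finset.mul_sum]
        refine sum_le_sum_sub (fun z hz => ?_) (fun z hz => ?_) (fun _ => ind_nonneg _)
        · have h1 := mem_erase.1 hz
          have h2 := mem_erase.1 h1.2
          have h3 := mem_Q.1 h2.2
          rw [mem_compl, mem_insert, mem_insert]
          push Not
          exact ⟨h1.1, h2.1, h3.1⟩
        · have y1 := mem_erase.1 hy
          have y2 := mem_Q.1 y1.2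
          have z1 := mem_erase.1 hz
          have z2 := mem_erase.1 z1.2
          have z3 := mem_Q.1 z2.2
          have x1 := mem_Q.1 hx
          by_cases a : isA F Z W
          · rw [ind_false (not_not.2 a), zero_mul]; exact ind_nonneg _
          · rw [ind_true a, one_mul]
            exact ind_mono fun h => ⟨a, x1.2, y2.2, z3.2, h.1, h.2.1, h.2.2⟩
  refine step1.trans ?_
  rw [edge_swap3 k G]
  have step2 : ∀ U ∈ powersetCard (k+3) (univ : Finset α),
      D3 U (fun z y x => G (((U.erase z).erase y).erase x) x y z)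
      ≤ 6 * (t:ℝ)^3 + ∑ z ∈ U, 2 * (t:ℝ)^2 * (cA F Z (U.erase z) * cB F Z U) := by
    intro U _
    have hk : ∀ z ∈ U, ∀ y ∈ U.erase z, ∀ x ∈ (U.erase z).erase y,
        G (((U.erase z).erase y).erase x) x y z
        = ind (¬ isA F Z (((U.erase z).erase y).erase x) ∧ isA F Z ((U.erase z).erase y) ∧
          isA F Z ((U.erase z).erase x) ∧ isA F Z ((U.erase y).erase x) ∧ isA F Z (U.erase z) ∧
          isA F Z (U.erase y) ∧ isA F Z (U.erase x)) := by
      intro z hz y hy x hx
      have hyU : y ∈ U := mem_of_mem_erase hy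
      have hyz : y ≠ z := ne_of_mem_erase hy
      have hx1 : x ∈ U.erase z := mem_of_mem_erase hx
      have hxy : x ≠ y := ne_of_mem_erase hx
      have hxU : x ∈ U := mem_of_mem_erase hx1
      have hxz : x ≠ z := ne_of_mem_erase hx1
      have e1 : insert x (((U.erase z).erase y).erase x) = (U.erase z).erase y := insert_erase hx
      have e2 : insert y (((U.erase z).erase y).erase x) = (U.erase z).erase x := by
        rw [erase_right_comm (s := U.erase z)]
        exact insert_erase (mem_erase.2 ⟨hxy.symm, hy⟩)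
      have e3 : insert z (((U.erase z).erase y).erase x) = (U.erase y).erase x := by
        rw [erase_right_comm (s := U), erase_right_comm (s := U.erase y)]
        exact insert_erase (mem_erase.2 ⟨hxz.symm, mem_erase.2 ⟨hyz.symm, hz⟩⟩)
      have e4 : insert y ((U.erase z).erase y) = U.erase z := insert_erase hy
      have e5 : insert z ((U.erase z).erase y) = U.erase y := by
        rw [erase_right_comm (s := U)]
        exact insert_erase (mem_erase.2 ⟨hyz.symm, hz⟩)
      have e6 : insert z ((U.erase z).erase x) = U.erase x := by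
        rw [erase_right_comm (s := U)]
        exact insert_erase (mem_erase.2 ⟨hxz.symm, hz⟩)
      simp only [hG]
      rw [e1, e2, e3, e4, e5, e6]
    have hn : 0 ≤ ∑ z ∈ U, 2 * (t:ℝ)^2 * (cA F Z (U.erase z) * cB F Z U) :=
      Finset.sum_nonneg fun _ _ => mul_nonneg (by positivity)
        (mul_nonneg (cA_nonneg _) (cB_nonneg _))
    by_cases hAF : isAF F Z U
    · have h1 : D3 U (fun z y x => G (((U.erase z).erase y).erase x) x y z)
          ≤ D3 U (fun z y x => P3 F Z U z y x + (P3 F Z U z x y + (P3 F Z U y z x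
            + (P3 F Z U y x z + (P3 F Z U x z y + P3 F Z U x y z))))) := by
        apply D3_mono
        intro z hz y hy x hx
        rw [hk z hz y hy x hx]
        by_cases h : (¬ isA F Z (((U.erase z).erase y).erase x) ∧ isA F Z ((U.erase z).erase y) ∧
          isA F Z ((U.erase z).erase x) ∧ isA F Z ((U.erase y).erase x) ∧ isA F Z (U.erase z) ∧
          isA F Z (U.erase y) ∧ isA F Z (U.erase x))
        · rw [ind_true h]
          obtain ⟨hW, g4, g5, g6, g1, g2, g3⟩ := h
          exact triple_exit hAF hz hy hx hW g1 g2 g3 g4 g5 g6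
        · rw [ind_false h]
          have n1 := P3_nonneg (F := F) (Z := Z) U z y x
          have n2 := P3_nonneg (F := F) (Z := Z) U z x y
          have n3 := P3_nonneg (F := F) (Z := Z) U y z x
          have n4 := P3_nonneg (F := F) (Z := Z) U y x z
          have n5 := P3_nonneg (F := F) (Z := Z) U x z y
          have n6 := P3_nonneg (F := F) (Z := Z) U x y z
          linarith
      have s0 := P3_sum hc U
      have d1 : D3 U (fun z y x => P3 F Z U z y x) = D3 U (P3 F Z U) := rfl
      have d2 : D3 U (fun z y x => P3 F Z U z x y) = D3 U (P3 F Z U) :=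
        D3_swap23 U (P3 F Z U)
      have d3 : D3 U (fun z y x => P3 F Z U y z x) = D3 U (P3 F Z U) :=
        D3_swap12 U (P3 F Z U)
      have d4 : D3 U (fun z y x => P3 F Z U y x z) = D3 U (P3 F Z U) := by
        rw [← d2]
        exact D3_swap12 U (fun z y x => P3 F Z U z x y)
      have d5 : D3 U (fun z y x => P3 F Z U x z y) = D3 U (P3 F Z U) := by
        rw [← d3]
        exact D3_swap23 U (fun z y x => P3 F Z U y z x)
      have d6 : D3 U (fun z y x => P3 F Z U x y z) = D3 U (P3 F Z U) := by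
        rw [← d5]
        exact D3_swap12 U (fun z y x => P3 F Z U x z y)
      simp only [D3_add] at h1
      rw [d1, d2, d3, d4, d5, d6] at h1
      linarith
    · have h3 : cB F Z U = 1 := ind_true hAF
      have ht : (0:ℝ) ≤ 6 * (t:ℝ)^3 := by positivity
      refine le_trans ?_ (le_add_of_nonneg_left ht)
      unfold D3
      refine Finset.sum_le_sum fun z hz => ?_
      rw [h3, mul_one]
      by_cases hAz : isA F Z (U.erase z)
      · have h5 : cA F Z (U.erase z) = 1 := ind_true hAz
        rw [h5, mul_one]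
        have h1 : ∑ y ∈ U.erase z, ∑ x ∈ (U.erase z).erase y,
            G (((U.erase z).erase y).erase x) x y z
            ≤ ∑ y ∈ U.erase z, ∑ x ∈ (U.erase z).erase y,
              (P2 F Z (U.erase z) y x + P2 F Z (U.erase z) x y) := by
          refine Finset.sum_le_sum fun y hy => Finset.sum_le_sum fun x hx => ?_
          rw [hk z hz y hy x hx]
          by_cases h : (¬ isA F Z (((U.erase z).erase y).erase x) ∧
            isA F Z ((U.erase z).erase y) ∧
            isA F Z ((U.erase z).erase x) ∧ isA F Z ((U.erase y).erase x) ∧ isA F Z (U.erase z) ∧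
            isA F Z (U.erase y) ∧ isA F Z (U.erase x))
          · rw [ind_true h]
            exact pair_exit hAz.isAF hy hx h.1 h.2.1 h.2.2.1
          · rw [ind_false h]
            exact add_nonneg (P2_nonneg _ _ _) (P2_nonneg _ _ _)
        refine h1.trans ?_
        simp only [Finset.sum_add_distrib]
        rw [← sum_erase_comm (U.erase z) (fun y x => P2 F Z (U.erase z) y x)]
        have := P2_sum hc (U.erase z)
        linarith
      · have h5 : cA F Z (U.erase z) = 0 := ind_false hAz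
        rw [h5, mul_zero]
        refine (Finset.sum_eq_zero fun y hy => Finset.sum_eq_zero fun x hx => ?_).le
        exact (hk z hz y hy x hx).trans (ind_false fun h => hAz h.2.2.2.2.1)
  refine (Finset.sum_le_sum step2).trans ?_
  rw [Finset.sum_add_distrib]
  have e1 : ∑ U ∈ powersetCard (k+3) (univ : Finset α), 6 * (t:ℝ)^3
      = 6 * (t:ℝ)^3 * ((Fintype.card α).choose (k+3)) := by
    rw [Finset.sum_const, nsmul_eq_mul, card_powersetCard, card_univ]; ring
  rw [e1]
  unfold inn
  rw [edge_swap (k+2) (fun W x => cA F Z W * cB F Z (insert x W))]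
  rw [Finset.mul_sum (a := 2 * (t:ℝ)^2)]
  refine add_le_add le_rfl (Finset.sum_le_sum fun V _ => ?_)
  rw [Finset.mul_sum]
  refine Finset.sum_le_sum fun y hy => ?_
  rw [insert_erase hy]

/-- sets with many up-neighbours labelled A -/
lemma large_part (hc : Cov F Z t) (k m : ℕ) (hm : 2 ≤ m) :
    ∑ W ∈ powersetCard k (univ : Finset α),
      ind (¬ isA F Z W ∧ ¬ (Q F Z W).card ≤ m) * ((Q F Z W).card : ℝ)
      ≤ (6 * (t:ℝ)^3 * ((Fintype.card α).choose (k+3)) + 2 * (t:ℝ)^2 * inn F Z (k+2))
          / (m * (m - 1))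
        + 3 * (2 * (t:ℝ)^2 * lev (k+2) (cF F) + t * inn F Z (k+1)) / m := by
  have m2 : (2:ℝ) ≤ m := by exact_mod_cast hm
  have mpos : (0:ℝ) < m * (m - 1) := by nlinarith
  have mpos' : (0:ℝ) < m := by linarith
  have h1 : ∀ W ∈ powersetCard k (univ : Finset α),
      ind (¬ isA F Z W ∧ ¬ (Q F Z W).card ≤ m) * ((Q F Z W).card : ℝ)
      ≤ (ind (¬ isA F Z W) * T3 F Z W) / (m * (m - 1))
        + 3 * (ind (¬ isA F Z W) * U2 F Z W) / m := by
    intro W _
    have hT := T3_nonneg (F := F) (Z := Z) W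
    have hU := U2_nonneg (F := F) (Z := Z) W
    by_cases h : (¬ isA F Z W ∧ ¬ (Q F Z W).card ≤ m)
    · rw [ind_true h, ind_true h.1, one_mul, one_mul, one_mul]
      set M : ℝ := ((Q F Z W).card : ℝ) with hM
      have hMm : (m:ℝ) + 1 ≤ M := by
        have : m + 1 ≤ (Q F Z W).card := by have := h.2; omega
        rw [hM]; exact_mod_cast this
      have key := moment (Q F Z W) (cl F Z W)
      have key' : M * (M - 1) * (M - 2) ≤ T3 F Z W + 3 * ((M - 2) * U2 F Z W) := key
      have a1 : 0 < M - 1 := by linarith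
      have a2 : 0 < M - 2 := by linarith
      have a3 : 0 < (M - 1) * (M - 2) := mul_pos a1 a2
      have b1 : M ≤ T3 F Z W / ((M - 1) * (M - 2)) + 3 * U2 F Z W / (M - 1) := by
        have : T3 F Z W / ((M - 1) * (M - 2)) + 3 * U2 F Z W / (M - 1)
            = (T3 F Z W + 3 * ((M - 2) * U2 F Z W)) / ((M - 1) * (M - 2)) := by
          field_simp
        rw [this, le_div_iff₀ a3]
        linarith
      have b2 : T3 F Z W / ((M - 1) * (M - 2)) ≤ T3 F Z W / (m * (m - 1)) := by
        apply div_le_div_of_nonneg_left hT mpos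
        apply mul_le_mul <;> linarith
      have b3 : 3 * U2 F Z W / (M - 1) ≤ 3 * U2 F Z W / m := by
        apply div_le_div_of_nonneg_left (by linarith) mpos'
        linarith
      linarith
    · rw [ind_false h, zero_mul]
      have := ind_nonneg (¬ isA F Z W)
      positivity
  refine (Finset.sum_le_sum h1).trans ?_
  rw [Finset.sum_add_distrib, ← Finset.sum_div, ← Finset.sum_div, ← Finset.mul_sum]
  apply add_le_add
  · exact div_le_div_of_nonneg_right (sum_T3 hc k) mpos.le
  · apply div_le_div_of_nonneg_right _ mpos'.le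
    have := sum_U2 hc k (F := F) (Z := Z)
    linarith

end

end Pool.Agent.Helper44.Cover
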