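import Mathlib

/-!
The numerical part of the bounded cover theorem.
-/

open Finset

namespace Pool.Agent.Helper44.Cover

lemma choose_step (n k : ℕ) (hk : k < n) :
    ((k:ℝ) + 1) * (n.choose (k+1) : ℝ) = ((n:ℝ) - k) * (n.choose k : ℝ) := by
  have h := Nat.choose_succ_right_eq n k
  have h2 : ((n.choose (k+1) * (k+1) : ℕ) : ℝ) = ((n.choose k * (n-k) : ℕ) : ℝ) := by
    exact_mod_cast h
  push_cast [Nat.cast_sub hk.le] at h2
  linarith

lemma telescope_recip (p k1 : ℕ) (h : k1 + 1 ≤ p) :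
    ∑ k ∈ range k1, 1 / (((p:ℝ) - k) * ((p:ℝ) - k - 1)) ≤ 1 / ((p:ℝ) - k1) := by
  have key : ∀ j, j + 1 ≤ p → ∑ k ∈ range j, 1 / (((p:ℝ) - k) * ((p:ℝ) - k - 1))
      = 1 / ((p:ℝ) - j) - 1 / (p:ℝ) := by
    intro j
    induction j with
    | zero => intro _; simp
    | succ j ih =>
      intro hj
      rw [Finset.sum_range_succ, ih (by omega)]
      have h1 : ((j:ℝ) + 2) ≤ p := by exact_mod_cast hj
      have h2 : (p:ℝ) - j ≠ 0 := by intro h; linarith
      have h3 : (p:ℝ) - j - 1 ≠ 0 := by intro h; linarith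
      have h4 : (p:ℝ) ≠ 0 := by
        have : (0:ℝ) ≤ j := Nat.cast_nonneg _
        intro h; linarith
      have e : (p:ℝ) - ((j+1 : ℕ) : ℝ) = (p:ℝ) - j - 1 := by push_cast; ring
      rw [e]
      field_simp
      ring
  rw [key k1 h]
  have : (0:ℝ) ≤ 1 / (p:ℝ) := by positivity
  linarith

lemma shift_sum (n k1 s : ℕ) (h : k1 + s ≤ n) (g : ℕ → ℝ) (hg : ∀ k, 0 ≤ g k) :
    ∑ k ∈ range k1, g (k + s) ≤ ∑ k ∈ range n, g k := by
  have h1 : ∑ k ∈ range k1, g (k + s) = ∑ k ∈ (range k1).map (addRightEmbedding s), g k := by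
    rw [Finset.sum_map]; rfl
  rw [h1]
  refine Finset.sum_le_sum_of_subset_of_nonneg ?_ fun i _ _ => hg i
  intro x hx
  rw [mem_map] at hx
  obtain ⟨k, hk, rfl⟩ := hx
  rw [mem_range] at hk ⊢
  rw [addRightEmbedding_apply]
  omega

set_option maxHeartbeats 8000000 in
lemma numeric (n t : ℕ) (ht : 1 ≤ t) (hn : 12 * t ≤ n) (a f b o e i : ℕ → ℝ)
    (a0 : ∀ k, 0 ≤ a k) (f0 : ∀ k, 0 ≤ f k) (b0 : ∀ k, 0 ≤ b k)
    (i0 : ∀ k, 0 ≤ i k)
    (hsum : ∀ k, a k + f k + b k = (n.choose k : ℝ))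
    (hflux : ∀ k, ((n:ℝ) - k) * (f k + b k) = (k + 1) * b (k+1) + o k + e k - i k)
    (ho : ∀ k, o k ≤ t * a (k+1)) (he : ∀ k, e k ≤ t * f (k+1))
    (hlow : ∀ k m : ℕ, 2 ≤ m → 2 * k + 1 + m ≤ n → 2 * m + k + 1 ≤ n →
      o k ≤ m * b (k+1) + t * f (k+1)
        + (6 * (t:ℝ)^3 * (n.choose (k+3) : ℝ) + 2 * (t:ℝ)^2 * i (k+2)) / (m * (m - 1))
        + 3 * (2 * (t:ℝ)^2 * f (k+2) + t * i (k+1)) / m)
    (htop : f n + b n = 1) :
    ∑ k ∈ range (n+1), f k ≤ (1 + 144 * (t:ℝ)^2 / n) * (n.choose (n/2) : ℝ) := by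
  set N : ℝ := (n.choose (n/2) : ℝ) with hN
  set S : ℝ := ∑ k ∈ range (n+1), f k with hS
  have hNk : ∀ k, (n.choose k : ℝ) ≤ N := fun k => by
    rw [hN]; exact_mod_cast Nat.choose_le_middle k n
  have hN0 : 0 ≤ N := Nat.cast_nonneg _
  have hS0 : 0 ≤ S := Finset.sum_nonneg fun k _ => f0 k
  have tR : (1:ℝ) ≤ t := by exact_mod_cast ht
  have nR : 12 * (t:ℝ) ≤ n := by exact_mod_cast hn
  have npos : (0:ℝ) < n := by linarith
  set p : ℕ := (n-1)/2 with hp
  set h : ℕ := n/2 with hh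
  set k1 : ℕ := p + 1 - 6 * t with hk1
  have hp6 : 6 * t ≤ p + 1 := by omega
  -- the term
  set τ : ℕ → ℝ := fun k => ((2 * (k:ℝ) + 1 - n) * b (k+1) + o k + e k - i k) / ((n:ℝ) - k) with hτ
  -- step A
  have stepA : S ≤ 1 + ∑ k ∈ range n, τ k := by
    have h1 : ∀ k ∈ range n, f k = (b (k+1) - b k) + τ k := by
      intro k hk
      have hk' : (k:ℝ) < n := by exact_mod_cast mem_range.1 hk
      have hd : (n:ℝ) - k ≠ 0 := by intro h; linarith
      have := hflux k
      have e1 : τ k = f k - b (k+1) + b k := by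
        simp only [hτ]
        rw [div_eq_iff hd]
        linear_combination -this
      rw [e1]; ring
    have h2 : S = f n + ∑ k ∈ range n, f k := by
      rw [hS, Finset.sum_range_succ]; ring
    rw [h2, Finset.sum_congr rfl h1, Finset.sum_add_distrib, Finset.sum_range_sub]
    have := b0 0
    linarith
  -- bounds on the terms
  set J : ℕ → ℝ := fun k => i k / ((n:ℝ) - k) with hJ
  have dpos : ∀ k, k < n → (0:ℝ) < (n:ℝ) - k := fun k hk => by
    have : (k:ℝ) < n := by exact_mod_cast hk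
    linarith
  have afN : ∀ k, a k + f k ≤ N := fun k => by
    have := hsum k; have := b0 k; have := hNk k; linarith
  have oe : ∀ k, o k + e k ≤ t * (a (k+1) + f (k+1)) := fun k => by
    have := ho k; have := he k; linarith
  -- upper levels
  have up1 : ∀ k, k < n → n + t ≤ 2 * k + 1 → τ k ≤ (n.choose k : ℝ) - n.choose (k+1) - J k := by
    intro k hk h2
    have hd := dpos k hk
    have h2' : (n:ℝ) + t ≤ 2 * k + 1 := by exact_mod_cast h2
    have e0 : τ k + J k = ((2 * (k:ℝ) + 1 - n) * b (k+1) + o k + e k) / ((n:ℝ) - k) := by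
      simp only [hτ, hJ]; ring
    have c1 := choose_step n k hk
    have c2 := hsum (k+1)
    have c3 := oe k
    have c4 : b (k+1) = (n.choose (k+1) : ℝ) - (a (k+1) + f (k+1)) := by linarith
    have c5 : 0 ≤ a (k+1) + f (k+1) := add_nonneg (a0 _) (f0 _)
    have c6 : τ k + J k ≤ (n.choose k : ℝ) - n.choose (k+1) := by
      rw [e0, div_le_iff₀ hd, c4]
      nlinarith
    linarith
  have up2 : ∀ k, k < n → h ≤ k → τ k ≤ (n.choose k : ℝ) - n.choose (k+1)
      + t * N / ((n:ℝ) - k) - J k := by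
    intro k hk h2
    have hd := dpos k hk
    have h2' : (n:ℝ) ≤ 2 * k + 1 := by
      have : n ≤ 2 * k + 1 := by omega
      exact_mod_cast this
    have e0 : τ k + J k - t * N / ((n:ℝ) - k)
        = ((2 * (k:ℝ) + 1 - n) * b (k+1) + o k + e k - t * N) / ((n:ℝ) - k) := by
      simp only [hτ, hJ]; ring
    have c1 := choose_step n k hk
    have c2 := hsum (k+1)
    have c3 := oe k
    have c4 : b (k+1) = (n.choose (k+1) : ℝ) - (a (k+1) + f (k+1)) := by linarith
    have c5 : 0 ≤ a (k+1) + f (k+1) := add_nonneg (a0 _) (f0 _)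
    have c6 := afN (k+1)
    have c7 : (t:ℝ) * (a (k+1) + f (k+1)) ≤ t * N :=
      mul_le_mul_of_nonneg_left c6 (by linarith)
    have c8 : τ k + J k - t * N / ((n:ℝ) - k) ≤ (n.choose k : ℝ) - n.choose (k+1) := by
      rw [e0, div_le_iff₀ hd, c4]
      nlinarith
    linarith
  -- lower levels
  have low1 : ∀ k, k < h → τ k ≤ t * N / ((n:ℝ) - k) - J k := by
    intro k hk
    have hkn : k < n := by omega
    have hd := dpos k hkn
    have h2' : 2 * (k:ℝ) + 1 ≤ n := by
      have : 2 * k + 1 ≤ n := by omega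
      exact_mod_cast this
    have e0 : τ k + J k = ((2 * (k:ℝ) + 1 - n) * b (k+1) + o k + e k) / ((n:ℝ) - k) := by
      simp only [hτ, hJ]; ring
    have c3 := oe k
    have c6 := afN (k+1)
    have c7 : (t:ℝ) * (a (k+1) + f (k+1)) ≤ t * N :=
      mul_le_mul_of_nonneg_left c6 (by linarith)
    have c8 := b0 (k+1)
    have c9 : τ k + J k ≤ t * N / ((n:ℝ) - k) := by
      rw [e0]
      apply div_le_div_of_nonneg_right _ hd.le
      nlinarith
    linarith
  have low2 : ∀ k, k < k1 → τ k ≤ (2 * t * f (k+1) + t * f (k+2)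
      + 6 * (t:ℝ)^3 * N * (1 / (((p:ℝ) - k) * ((p:ℝ) - k - 1)))
      + i (k+2) / 2 + i (k+1) / 2) / ((n:ℝ) - k) - J k := by
    intro k hk
    have hkn : k < n := by omega
    have hd := dpos k hkn
    obtain ⟨m, hm⟩ : ∃ m, p = k + m := ⟨p - k, by omega⟩
    have hm6 : 6 * t ≤ m := by omega
    have hm6' : 6 * (t:ℝ) ≤ m := by exact_mod_cast hm6
    have key := hlow k m (by omega) (by omega) (by omega)
    have em : (p:ℝ) - k = m := by rw [hm]; push_cast; ring
    have h2' : 2 * (k:ℝ) + 1 + m ≤ n := by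
      have : 2 * k + 1 + m ≤ n := by omega
      exact_mod_cast this
    have mpos : (0:ℝ) < m := by linarith
    have mpos1 : (0:ℝ) < m - 1 := by linarith
    have mm : (0:ℝ) < m * (m - 1) := mul_pos mpos mpos1
    have e0 : τ k + J k = ((2 * (k:ℝ) + 1 - n) * b (k+1) + o k + e k) / ((n:ℝ) - k) := by
      simp only [hτ, hJ]; ring
    rw [em]
    have c0 := he k
    have c1 : (6 * (t:ℝ)^3 * (n.choose (k+3) : ℝ) + 2 * (t:ℝ)^2 * i (k+2)) / (m * (m - 1))
        ≤ 6 * (t:ℝ)^3 * N * (1 / (m * (m - 1))) + i (k+2) / 2 := by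
      rw [add_div]
      apply add_le_add
      · rw [mul_one_div]
        apply div_le_div_of_nonneg_right _ mm.le
        exact mul_le_mul_of_nonneg_left (hNk _) (by positivity)
      · rw [div_le_div_iff₀ mm (by norm_num)]
        have := i0 (k+2)
        have c2 : 4 * (t:ℝ)^2 ≤ m * (m - 1) := by nlinarith
        nlinarith
    have c2 : 3 * (2 * (t:ℝ)^2 * f (k+2) + t * i (k+1)) / m ≤ t * f (k+2) + i (k+1) / 2 := by
      rw [div_le_iff₀ mpos]
      have h3 := f0 (k+2)
      have h4 := i0 (k+1)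
      have h5 : 6 * (t:ℝ)^2 * f (k+2) ≤ t * f (k+2) * m := by
        have : t * f (k+2) * (6 * (t:ℝ)) ≤ t * f (k+2) * m :=
          mul_le_mul_of_nonneg_left hm6' (by positivity)
        nlinarith
      have h6 : 3 * (t:ℝ) * i (k+1) ≤ i (k+1) / 2 * m := by
        have : i (k+1) / 2 * (6 * (t:ℝ)) ≤ i (k+1) / 2 * m :=
          mul_le_mul_of_nonneg_left hm6' (by positivity)
        nlinarith
      nlinarith
    have c3 : (2 * (k:ℝ) + 1 - n) * b (k+1) + m * b (k+1) ≤ 0 := by
      have := b0 (k+1)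
      nlinarith
    have c4 : τ k + J k ≤ (2 * t * f (k+1) + t * f (k+2)
      + 6 * (t:ℝ)^3 * N * (1 / (m * (m - 1))) + i (k+2) / 2 + i (k+1) / 2) / ((n:ℝ) - k) := by
      rw [e0]
      apply div_le_div_of_nonneg_right _ hd.le
      linarith
    linarith
  -- summation
  have hk1h : k1 ≤ h := by omega
  have hhn : h ≤ n := by omega
  have split : ∑ k ∈ range n, τ k = ∑ k ∈ range k1, τ k + ∑ k ∈ Ico k1 h, τ k
      + ∑ k ∈ Ico h n, τ k := by
    rw [Finset.range_eq_Ico, ← Finset.sum_Ico_consecutive τ (Nat.zero_le h) hhn,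
      ← Finset.sum_Ico_consecutive τ (Nat.zero_le k1) hk1h, Finset.range_eq_Ico]
  have splitJ : ∑ k ∈ range n, J k = ∑ k ∈ range k1, J k + ∑ k ∈ Ico k1 h, J k
      + ∑ k ∈ Ico h n, J k := by
    rw [Finset.range_eq_Ico, ← Finset.sum_Ico_consecutive J (Nat.zero_le h) hhn,
      ← Finset.sum_Ico_consecutive J (Nat.zero_le k1) hk1h, Finset.range_eq_Ico]
  -- upper part
  have sUp : ∑ k ∈ Ico h n, τ k ≤ N - 1 + 4 * (t:ℝ)^2 * N / n - ∑ k ∈ Ico h n, J k := by
    have q1 : ∀ k ∈ Ico h n, τ k ≤ (((n.choose k : ℝ) - n.choose (k+1)) - J k)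
        + (if k < h + t then 4 * (t:ℝ) * N / n else 0) := by
      intro k hk
      rw [mem_Ico] at hk
      by_cases h3 : n + t ≤ 2 * k + 1
      · have := up1 k hk.2 h3
        split_ifs
        · have : 0 ≤ 4 * (t:ℝ) * N / n := by positivity
          linarith
        · linarith
      · have h4 : k < h + t := by omega
        rw [if_pos h4]
        have := up2 k hk.2 hk.1
        have h5 : (t:ℝ) * N / ((n:ℝ) - k) ≤ 4 * (t:ℝ) * N / n := by
          rw [div_le_div_iff₀ (dpos k hk.2) npos]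
          have h6 : 2 * (k:ℝ) + 1 < n + t := by
            have : 2 * k + 1 < n + t := by omega
            exact_mod_cast this
          have h7 : (n:ℝ) ≤ 4 * ((n:ℝ) - k) := by linarith
          have h8 : 0 ≤ (t:ℝ) * N := by positivity
          nlinarith
        linarith
    refine (Finset.sum_le_sum q1).trans ?_
    rw [Finset.sum_add_distrib, Finset.sum_sub_distrib]
    have q2 : ∑ k ∈ Ico h n, ((n.choose k : ℝ) - n.choose (k+1)) = N - 1 := by
      have := Finset.sum_Ico_sub (fun k => -(n.choose k : ℝ)) hhn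
      have h3 : ∀ k ∈ Ico h n, ((n.choose k : ℝ) - n.choose (k+1))
          = (-(n.choose (k+1) : ℝ)) - (-(n.choose k : ℝ)) := fun k _ => by ring
      rw [Finset.sum_congr rfl h3, this, Nat.choose_self]
      push_cast
      ring
    have q3 : ∑ k ∈ Ico h n, (if k < h + t then 4 * (t:ℝ) * N / n else 0)
        ≤ 4 * (t:ℝ)^2 * N / n := by
      rw [← Finset.sum_filter]
      rw [Finset.sum_const, nsmul_eq_mul]
      have h3 : ((Ico h n).filter fun k => k < h + t) ⊆ Ico h (h+t) := by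
        intro k hk
        rw [mem_filter, mem_Ico] at hk
        rw [mem_Ico]
        exact ⟨hk.1.1, hk.2⟩
      have h4 : ((((Ico h n).filter fun k => k < h + t).card : ℕ) : ℝ) ≤ t := by
        have := card_le_card h3
        rw [Nat.card_Ico] at this
        have h5 : ((Ico h n).filter fun k => k < h + t).card ≤ t := by omega
        exact_mod_cast h5
      have h5 : 0 ≤ 4 * (t:ℝ) * N / n := by positivity
      calc _ ≤ (t:ℝ) * (4 * (t:ℝ) * N / n) := mul_le_mul_of_nonneg_right h4 h5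
        _ = _ := by ring
    rw [q2]
    linarith
  -- middle part
  have sMid : ∑ k ∈ Ico k1 h, τ k ≤ 12 * (t:ℝ)^2 * N / n - ∑ k ∈ Ico k1 h, J k := by
    have q1 : ∀ k ∈ Ico k1 h, τ k ≤ 2 * (t:ℝ) * N / n - J k := by
      intro k hk
      rw [mem_Ico] at hk
      have := low1 k hk.2
      have hkn : k < n := by omega
      have h5 : (t:ℝ) * N / ((n:ℝ) - k) ≤ 2 * (t:ℝ) * N / n := by
        rw [div_le_div_iff₀ (dpos k hkn) npos]
        have h6 : 2 * (k:ℝ) ≤ n := by
          have : 2 * k ≤ n := by omega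
          exact_mod_cast this
        have h8 : 0 ≤ (t:ℝ) * N := by positivity
        nlinarith
      linarith
    refine (Finset.sum_le_sum q1).trans ?_
    rw [Finset.sum_sub_distrib, Finset.sum_const, nsmul_eq_mul, Nat.card_Ico]
    have h4 : ((h - k1 : ℕ) : ℝ) ≤ 6 * t := by
      have : h - k1 ≤ 6 * t := by omega
      exact_mod_cast this
    have h5 : 0 ≤ 2 * (t:ℝ) * N / n := by positivity
    have h6 : ((h - k1 : ℕ) : ℝ) * (2 * (t:ℝ) * N / n) ≤ 12 * (t:ℝ)^2 * N / n := by
      calc _ ≤ (6 * (t:ℝ)) * (2 * (t:ℝ) * N / n) := mul_le_mul_of_nonneg_right h4 h5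
        _ = _ := by ring
    linarith
  -- low part
  have hJ0 : ∀ k, k < n → 0 ≤ J k := fun k hk => div_nonneg (i0 k) (dpos k hk).le
  have sLow : ∑ k ∈ range k1, τ k ≤ 6 * (t:ℝ) / n * S + 12 / 5 * (t:ℝ)^2 * N / n
      + ∑ k ∈ range n, J k - ∑ k ∈ range k1, J k := by
    have q1 : ∀ k ∈ range k1, τ k ≤ (2 / n) * (2 * t * f (k+1)) + (2 / n) * (t * f (k+2))
        + (2 / n) * (6 * (t:ℝ)^3 * N) * (1 / (((p:ℝ) - k) * ((p:ℝ) - k - 1)))
        + J (k+2) / 2 + J (k+1) / 2 - J k := by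
      intro k hk
      rw [mem_range] at hk
      refine (low2 k hk).trans ?_
      have hkn : k < n := by omega
      have hd := dpos k hkn
      have h6 : 2 * (k:ℝ) ≤ n := by
        have : 2 * k ≤ n := by omega
        exact_mod_cast this
      have h7 : 1 / ((n:ℝ) - k) ≤ 2 / n := by
        rw [div_le_div_iff₀ hd npos]; linarith
      have h8 : ∀ X : ℝ, 0 ≤ X → X / ((n:ℝ) - k) ≤ (2 / n) * X := by
        intro X hX
        rw [div_eq_mul_one_div, mul_comm]
        exact mul_le_mul_of_nonneg_right h7 hX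
      have hpk : (0:ℝ) < ((p:ℝ) - k) * ((p:ℝ) - k - 1) := by
        have : (k:ℝ) + 6 ≤ p := by
          have : k + 6 ≤ p := by omega
          exact_mod_cast this
        apply mul_pos <;> linarith
      have x1 := h8 (2 * t * f (k+1)) (by have := f0 (k+1); positivity)
      have x2 := h8 (t * f (k+2)) (by have := f0 (k+2); positivity)
      have x3 := h8 (6 * (t:ℝ)^3 * N * (1 / (((p:ℝ) - k) * ((p:ℝ) - k - 1)))) (by positivity)
      have x4 : i (k+2) / 2 / ((n:ℝ) - k) ≤ J (k+2) / 2 := by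
        have hk2 : k + 2 < n := by omega
        have hd2 := dpos (k+2) hk2
        have : i (k+2) / ((n:ℝ) - k) ≤ i (k+2) / ((n:ℝ) - ((k+2 : ℕ):ℝ)) := by
          apply div_le_div_of_nonneg_left (i0 _) hd2
          push_cast; linarith
        simp only [hJ]
        rw [div_right_comm]
        linarith
      have x5 : i (k+1) / 2 / ((n:ℝ) - k) ≤ J (k+1) / 2 := by
        have hk2 : k + 1 < n := by omega
        have hd2 := dpos (k+1) hk2
        have : i (k+1) / ((n:ℝ) - k) ≤ i (k+1) / ((n:ℝ) - ((k+1 : ℕ):ℝ)) := by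
          apply div_le_div_of_nonneg_left (i0 _) hd2
          push_cast; linarith
        simp only [hJ]
        rw [div_right_comm]
        linarith
      rw [add_div, add_div, add_div, add_div]
      have e3 : (2 / (n:ℝ)) * (6 * (t:ℝ)^3 * N) * (1 / (((p:ℝ) - k) * ((p:ℝ) - k - 1)))
          = (2 / (n:ℝ)) * (6 * (t:ℝ)^3 * N * (1 / (((p:ℝ) - k) * ((p:ℝ) - k - 1)))) := by ring
      rw [e3]
      linarith
    refine (Finset.sum_le_sum q1).trans ?_
    rw [Finset.sum_sub_distrib, Finset.sum_add_distrib, Finset.sum_add_distrib,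
      Finset.sum_add_distrib, Finset.sum_add_distrib]
    have y1 : ∑ k ∈ range k1, (2 / (n:ℝ)) * (2 * t * f (k+1)) ≤ 4 * (t:ℝ) / n * S := by
      have : ∑ k ∈ range k1, (2 / (n:ℝ)) * (2 * t * f (k+1))
          = 4 * (t:ℝ) / n * ∑ k ∈ range k1, f (k+1) := by
        rw [Finset.mul_sum]; refine Finset.sum_congr rfl fun k _ => ?_; ring
      rw [this]
      apply mul_le_mul_of_nonneg_left _ (by positivity)
      exact shift_sum (n+1) k1 1 (by omega) f f0
    have y2 : ∑ k ∈ range k1, (2 / (n:ℝ)) * (t * f (k+2)) ≤ 2 * (t:ℝ) / n * S := by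
      have : ∑ k ∈ range k1, (2 / (n:ℝ)) * (t * f (k+2))
          = 2 * (t:ℝ) / n * ∑ k ∈ range k1, f (k+2) := by
        rw [Finset.mul_sum]; refine Finset.sum_congr rfl fun k _ => ?_; ring
      rw [this]
      apply mul_le_mul_of_nonneg_left _ (by positivity)
      exact shift_sum (n+1) k1 2 (by omega) f f0
    have y3 : ∑ k ∈ range k1, (2 / (n:ℝ)) * (6 * (t:ℝ)^3 * N)
          * (1 / (((p:ℝ) - k) * ((p:ℝ) - k - 1))) ≤ 12 / 5 * (t:ℝ)^2 * N / n := by
      rw [← Finset.mul_sum]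
      have z1 := telescope_recip p k1 (by omega)
      have z2 : (p:ℝ) - k1 = 6 * t - 1 := by
        have : k1 + 6 * t = p + 1 := by omega
        have : (k1:ℝ) + 6 * t = p + 1 := by exact_mod_cast this
        linarith
      rw [z2] at z1
      have z3 : (1:ℝ) / (6 * t - 1) ≤ 1 / (5 * t) := by
        apply div_le_div_of_nonneg_left (by norm_num) (by positivity); linarith
      have z4 : 0 ≤ (2 / (n:ℝ)) * (6 * (t:ℝ)^3 * N) := by positivity
      refine (mul_le_mul_of_nonneg_left (z1.trans z3) z4).trans (le_of_eq ?_)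
      field_simp
      ring
    have y4 : ∑ k ∈ range k1, J (k+2) / 2 ≤ (∑ k ∈ range n, J k) / 2 := by
      rw [← Finset.sum_div]
      apply div_le_div_of_nonneg_right _ (by norm_num)
      have := shift_sum n k1 2 (by omega) (fun k => if k < n then J k else 0)
        (fun k => by split_ifs with h3; exact hJ0 k h3; exact le_rfl)
      have w1 : ∑ k ∈ range k1, J (k+2) = ∑ k ∈ range k1, (if k + 2 < n then J (k+2) else 0) := by
        refine Finset.sum_congr rfl fun k hk => ?_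
        rw [mem_range] at hk
        rw [if_pos (by omega)]
      have w2 : ∑ k ∈ range n, J k = ∑ k ∈ range n, (if k < n then J k else 0) := by
        refine Finset.sum_congr rfl fun k hk => ?_
        rw [mem_range] at hk
        rw [if_pos hk]
      rw [w1, w2]; exact this
    have y5 : ∑ k ∈ range k1, J (k+1) / 2 ≤ (∑ k ∈ range n, J k) / 2 := by
      rw [← Finset.sum_div]
      apply div_le_div_of_nonneg_right _ (by norm_num)
      have := shift_sum n k1 1 (by omega) (fun k => if k < n then J k else 0)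
        (fun k => by split_ifs with h3; exact hJ0 k h3; exact le_rfl)
      have w1 : ∑ k ∈ range k1, J (k+1) = ∑ k ∈ range k1, (if k + 1 < n then J (k+1) else 0) := by
        refine Finset.sum_congr rfl fun k hk => ?_
        rw [mem_range] at hk
        rw [if_pos (by omega)]
      have w2 : ∑ k ∈ range n, J k = ∑ k ∈ range n, (if k < n then J k else 0) := by
        refine Finset.sum_congr rfl fun k hk => ?_
        rw [mem_range] at hk
        rw [if_pos hk]
      rw [w1, w2]; exact this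
    have y6 : 4 * (t:ℝ) / n * S + 2 * (t:ℝ) / n * S = 6 * (t:ℝ) / n * S := by ring
    linarith
  -- conclusion
  have total : S ≤ N + (16 + 12/5) * (t:ℝ)^2 * N / n + 6 * (t:ℝ) / n * S := by
    have e1 : (16 + 12/5) * (t:ℝ)^2 * N / n = 4 * (t:ℝ)^2 * N / n + 12 * (t:ℝ)^2 * N / n
        + 12 / 5 * (t:ℝ)^2 * N / n := by ring
    rw [e1]
    rw [split] at stepA
    linarith
  -- divide
  set u : ℝ := 6 * (t:ℝ) / n with hu
  have hu1 : u ≤ 1/2 := by
    rw [hu, div_le_iff₀ npos]; linarith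
  have hu0 : 0 ≤ u := by rw [hu]; positivity
  set v : ℝ := (16 + 12/5) * (t:ℝ)^2 / n with hv
  have hv0 : 0 ≤ v := by rw [hv]; positivity
  have t2 : S * (1 - u) ≤ N * (1 + v) := by
    have : (16 + 12/5) * (t:ℝ)^2 * N / n = v * N := by rw [hv]; ring
    rw [this] at total
    nlinarith
  have t3 : S * (1 - u) ≤ N * ((1 + 2*u) * (1 + v)) * (1 - u) := by
    have h3 : 1 ≤ (1 + 2*u) * (1 - u) := by nlinarith
    have h4 : 0 ≤ N * (1 + v) := by positivity
    nlinarith
  have t4 : S ≤ N * ((1 + 2*u) * (1 + v)) := le_of_mul_le_mul_right t3 (by linarith)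
  refine t4.trans ?_
  rw [mul_comm]
  apply mul_le_mul_of_nonneg_right _ hN0
  have e2 : (1 + 2*u) * (1 + v) ≤ 1 + 2 * u + 2 * v := by nlinarith
  refine e2.trans ?_
  have e3 : 2 * u + 2 * v ≤ 144 * (t:ℝ)^2 / n := by
    rw [hu, hv]
    have : 2 * (6 * (t:ℝ) / n) + 2 * ((16 + 12/5) * (t:ℝ)^2 / n)
        = (12 * t + (184/5) * (t:ℝ)^2) / n := by ring
    rw [this]
    apply div_le_div_of_nonneg_right _ npos.le
    nlinarith
  linarith

end Pool.Agent.Helper44.Cover
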