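import Pool.Agent.Helper44.IETWords

/-!
The counting inequality giving the lower bound for the critical exponent.
-/

open Finset Filter

namespace Pool.Agent.Helper44.IET

lemma abel_aux (a : ℕ → ℝ) (m : ℕ) :
    ∑ j ∈ range m, (a j - a (j + 1)) * ((j : ℝ) + 1) = ∑ j ∈ range m, a j - m * a m := by
  induction m with
  | zero => simp
  | succ m ih =>
    rw [Finset.sum_range_succ, Finset.sum_range_succ, ih]
    push_cast
    ring

lemma tele_aux (a : ℕ → ℝ) (n r : ℕ) (hr : r ≤ n) :
    a r = a n + ∑ j ∈ range n, if r < j + 1 then (a j - a (j + 1)) else 0 := by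
  induction n with
  | zero =>
    have : r = 0 := by omega
    subst this; simp
  | succ n ih =>
    rw [Finset.sum_range_succ]
    rcases Nat.lt_or_ge n r with h | h
    · have hrn : r = n + 1 := by omega
      subst hrn
      rw [Finset.sum_eq_zero]
      · simp
      · intro j hj
        rw [mem_range] at hj
        rw [if_neg (by omega)]
    · rw [ih h, if_pos (by omega)]
      ring

lemma sum_inv_le (n : ℕ) (hn : 1 ≤ n) :
    ∑ j ∈ range n, 1 / ((n : ℝ) + 2 * j) ≤ 1 / (n : ℝ) + Real.log 3 / 2 := by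
  have hn0 : (0 : ℝ) < n := by exact_mod_cast hn
  have key : ∀ m : ℕ, ∑ j ∈ range (m + 1), 1 / ((n : ℝ) + 2 * j)
      ≤ 1 / (n : ℝ) + (Real.log ((n : ℝ) + 2 * m) - Real.log n) / 2 := by
    intro m
    induction m with
    | zero => simp
    | succ m ih =>
      rw [Finset.sum_range_succ]
      have h1 : (0 : ℝ) < (n : ℝ) + 2 * m := by positivity
      have h2 : (0 : ℝ) < (n : ℝ) + 2 * ((m + 1 : ℕ) : ℝ) := by positivity
      have h3 := Real.log_le_sub_one_of_pos (div_pos h1 h2)
      rw [Real.log_div h1.ne' h2.ne'] at h3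
      have h4 : ((n : ℝ) + 2 * m) / ((n : ℝ) + 2 * ((m + 1 : ℕ) : ℝ)) - 1
          = -(2 * (1 / ((n : ℝ) + 2 * ((m + 1 : ℕ) : ℝ)))) := by
        field_simp
        push_cast
        ring
      rw [h4] at h3
      linarith
  obtain ⟨m, rfl⟩ : ∃ m, n = m + 1 := ⟨n - 1, by omega⟩
  refine le_trans (key m) ?_
  have h5 : Real.log (((m + 1 : ℕ) : ℝ) + 2 * m) ≤ Real.log 3 + Real.log ((m + 1 : ℕ) : ℝ) := by
    rw [← Real.log_mul (by norm_num) hn0.ne']
    apply Real.log_le_log
    · positivity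
    · push_cast; linarith
  linarith

lemma weighted_le {ι : Type*} (W : Finset ι) (n D : ℕ) (hn : 1 ≤ n) (r : ι → ℕ)
    (hr : ∀ w ∈ W, r w ≤ n) (hc : ∀ j ≤ n, (W.filter (fun w => r w < j)).card ≤ D * j)
    (hW : W.card ≤ D * n + 1) :
    ∑ w ∈ W, 1 / ((n : ℝ) + 2 * r w)
      ≤ D * (1 / (n : ℝ) + Real.log 3 / 2) + 1 / (3 * (n : ℝ)) := by
  have hn0 : (0 : ℝ) < n := by exact_mod_cast hn
  set a : ℕ → ℝ := fun j => 1 / ((n : ℝ) + 2 * j) with ha
  have hmono : ∀ j, 0 ≤ a j - a (j + 1) := by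
    intro j
    simp only [ha]
    rw [sub_nonneg]
    apply one_div_le_one_div_of_le
    · positivity
    · push_cast; linarith
  have h1 : ∑ w ∈ W, a (r w) = W.card * a n
      + ∑ j ∈ range n, (a j - a (j + 1)) * ((W.filter (fun w => r w < j + 1)).card : ℝ) := by
    rw [Finset.sum_congr rfl (fun w hw => tele_aux a n (r w) (hr w hw))]
    rw [Finset.sum_add_distrib, Finset.sum_const, nsmul_eq_mul, Finset.sum_comm]
    congr 1
    apply Finset.sum_congr rfl
    intro j _
    rw [← Finset.sum_filter, Finset.sum_const, nsmul_eq_mul]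
    ring
  have h2 : ∑ j ∈ range n, (a j - a (j + 1)) * ((W.filter (fun w => r w < j + 1)).card : ℝ)
      ≤ D * (∑ j ∈ range n, a j - n * a n) := by
    rw [← abel_aux, Finset.mul_sum]
    apply Finset.sum_le_sum
    intro j hj
    rw [mem_range] at hj
    have h3 : ((W.filter (fun w => r w < j + 1)).card : ℝ) ≤ D * ((j : ℝ) + 1) := by
      exact_mod_cast hc (j + 1) (by omega)
    calc (a j - a (j + 1)) * ((W.filter (fun w => r w < j + 1)).card : ℝ)
        ≤ (a j - a (j + 1)) * (D * ((j : ℝ) + 1)) := mul_le_mul_of_nonneg_left h3 (hmono j)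
      _ = D * ((a j - a (j + 1)) * ((j : ℝ) + 1)) := by ring
  have h3 := sum_inv_le n hn
  have h4 : (W.card : ℝ) ≤ D * n + 1 := by exact_mod_cast hW
  have h5 : a n = 1 / (3 * (n : ℝ)) := by
    simp only [ha]; congr 1; ring
  have h6 : (0 : ℝ) ≤ a n := by rw [h5]; positivity
  have h7 : (D : ℝ) * ∑ j ∈ range n, a j ≤ D * (1 / (n : ℝ) + Real.log 3 / 2) :=
    mul_le_mul_of_nonneg_left h3 (Nat.cast_nonneg D)
  have h8 := mul_le_mul_of_nonneg_right h4 h6
  change ∑ w ∈ W, a (r w) ≤ _
  rw [h1, ← h5]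
  nlinarith

lemma half_conv (n r l : ℝ) (hn : 0 < n) (hr : 0 ≤ r) (hl : 0 ≤ l) :
    1 / (n + r + l) ≤ (1 / (n + 2 * r) + 1 / (n + 2 * l)) / 2 := by
  have h1 : 0 < n + 2 * r := by positivity
  have h2 : 0 < n + 2 * l := by positivity
  have h3 : 0 < n + r + l := by positivity
  rw [div_add_div _ _ h1.ne' h2.ne', div_div, div_le_div_iff₀ h3 (by positivity)]
  nlinarith [sq_nonneg (r - l)]

section

variable {A : Type*} [Fintype A]

lemma card_rc_le (u : ℕ → A) (D : ℕ)
    (hstep : ∀ m, (rc u (m + 1)).card ≤ (rc u m).card + D) (n j : ℕ) :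
    (rc u (n + j)).card ≤ (rc u n).card + D * j := by
  induction j with
  | zero => simp
  | succ j ih =>
    have := hstep (n + j)
    rw [← add_assoc n j 1]
    rw [Nat.mul_succ]
    omega

/-- inequality for one length `n` -/
lemma one_le_of_length (u : ℕ → A) (D : ℕ) (h0 : (rc u 0).card ≤ 1)
    (hstep : ∀ m, (rc u (m + 1)).card ≤ (rc u m).card + D)
    (E1 E2 : ℝ) (n0 : ℕ) (hE1 : 1 < E1)
    (H1 : ∀ i p l, 0 < p → n0 ≤ p → HasPower u i p l → (l : ℝ) / (p : ℝ) ≤ E1)
    (H2 : ∀ i p l, 0 < p → HasPower u i p l → (l : ℝ) / (p : ℝ) ≤ E2)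
    (n : ℕ) (hn : 1 ≤ n) (hn2 : (E2 - 1) * n0 < n) :
    1 ≤ (E1 - 1) * (D * (1 / (n : ℝ) + Real.log 3 / 2) + 1 / (3 * (n : ℝ))) := by
  classical
  have hn0 : (0 : ℝ) < n := by exact_mod_cast hn
  have hE : 0 < E1 - 1 := by linarith
  -- the starting point
  obtain ⟨B0, hB0⟩ : ∃ B0, ∀ t, B0 ≤ t → ∀ j ≤ n, fac u t (n + j) ∈ rc u (n + j) := by
    have h : ∀ᶠ t in atTop, ∀ j ∈ range (n + 1), fac u t (n + j) ∈ rc u (n + j) :=
      (Finset.eventually_all (range (n + 1))).mpr (fun j _ => eventually_mem_rc u (n + j))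
    rw [eventually_atTop] at h
    obtain ⟨B0, h⟩ := h
    exact ⟨B0, fun t ht j hj => h t ht j (mem_range.mpr (by omega))⟩
  set B := B0 + n with hB
  have hBocc : ∀ j ≤ n, ∀ t, B ≤ t + n → fac u t (n + j) ∈ rc u (n + j) :=
    fun j hj t ht => hB0 t (by omega) j hj
  set κ : (Fin n → A) → ℝ := fun w => ((n : ℝ) + rr u w + ll u w) / (E1 - 1) with hκ
  have hκpos : ∀ w, 0 < κ w := fun w => by simp only [hκ]; positivity
  -- counting in a window
  have hwin : ∀ L : ℕ, 1 ≤ L → (L : ℝ) ≤ (rc u n).card + L * ∑ w ∈ rc u n, 1 / κ w := by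
    intro L hL
    have h1 : (Finset.Ico B (B + L)).card
        = ∑ w ∈ rc u n, ((Finset.Ico B (B + L)).filter (fun i => fac u i n = w)).card := by
      apply Finset.card_eq_sum_card_fiberwise
      intro i hi
      rw [Finset.mem_coe, Finset.mem_Ico] at hi
      have := hBocc 0 (by omega) i (by omega)
      exact this
    rw [Nat.card_Ico] at h1
    have h2 : (L : ℝ) = ∑ w ∈ rc u n,
        (((Finset.Ico B (B + L)).filter (fun i => fac u i n = w)).card : ℝ) := by
      have : L = B + L - B := by omega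
      rw [← this] at h1
      exact_mod_cast h1
    have h3 : ∀ w ∈ rc u n,
        (((Finset.Ico B (B + L)).filter (fun i => fac u i n = w)).card : ℝ) ≤ 1 + L / κ w := by
      intro w _
      apply spaced_card _ B L (κ w) (hκpos w) hL
      · intro i hi
        rw [mem_filter, Finset.mem_Ico] at hi
        exact hi.1
      · intro i hi k hk hik
        rw [mem_filter, Finset.mem_Ico] at hi hik
        have hp := hasPower_of_occ u n B i k hBocc hi.1.1 (by omega) (by rw [hi.2, hik.2])
        rw [hi.2] at hp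
        have hk0 : (0 : ℝ) < k := by exact_mod_cast hk
        have hkn : n0 ≤ k := by
          by_contra hc
          push Not at hc
          have h4 := H2 _ _ _ hk hp
          rw [div_le_iff₀ hk0] at h4
          push_cast at h4
          have h5 : (0 : ℝ) ≤ (rr u w : ℝ) + ll u w := by positivity
          have h6 : (n : ℝ) ≤ (E2 - 1) * k := by nlinarith
          have h7 : (k : ℝ) ≤ n0 := by exact_mod_cast hc.le
          have h8 : 0 < E2 - 1 := by
            by_contra h9
            push Not at h9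
            nlinarith
          nlinarith
        have h4 := H1 _ _ _ hk hkn hp
        rw [div_le_iff₀ hk0] at h4
        push_cast at h4
        simp only [hκ]
        rw [div_le_iff₀ hE]
        nlinarith
    calc (L : ℝ) = _ := h2
      _ ≤ ∑ w ∈ rc u n, (1 + (L : ℝ) / κ w) := Finset.sum_le_sum h3
      _ = (rc u n).card + L * ∑ w ∈ rc u n, 1 / κ w := by
          rw [Finset.sum_add_distrib, Finset.sum_const, nsmul_eq_mul, mul_one, Finset.mul_sum]
          congr 1
          apply Finset.sum_congr rfl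
          intro w _
          ring
  -- let the window grow
  have hS : 1 ≤ ∑ w ∈ rc u n, 1 / κ w := by
    by_contra hc
    push Not at hc
    set S := ∑ w ∈ rc u n, 1 / κ w with hSdef
    obtain ⟨L, hL⟩ := exists_nat_gt (((rc u n).card : ℝ) / (1 - S))
    have h1 : 0 < 1 - S := by linarith
    rw [div_lt_iff₀ h1] at hL
    have hL1 : 1 ≤ L := by
      rcases Nat.eq_zero_or_pos L with h | h
      · subst h
        have : (0 : ℝ) ≤ (rc u n).card := by positivity
        simp at hL
        linarith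
      · exact h
    have h2 := hwin L hL1
    nlinarith
  -- cardinalities
  have hcard : (rc u n).card ≤ D * n + 1 := by
    have h1 := card_rc_le u D hstep 0 n
    have h2 : (rc u (0 + n)).card = (rc u n).card := by rw [zero_add]
    omega
  have hrc : ∀ j ≤ n, ((rc u n).filter (fun w => rr u w < j)).card ≤ D * j := by
    intro j hj
    have h1 := card_rr_lt u n j hj
    have h2 := card_rc_le u D hstep n j
    have h3 : (filter (fun w => rr u w < j) (rc u n)).card
      = ((rc u n).filter (fun w => rr u w < j)).card := rfl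
    convert (by omega : ((rc u n).filter (fun w => rr u w < j)).card ≤ D * j) using 2
  have hlc : ∀ j ≤ n, ((rc u n).filter (fun w => ll u w < j)).card ≤ D * j := by
    intro j hj
    have h1 := card_ll_lt u n j hj
    have h2 := card_rc_le u D hstep n j
    convert (by omega : ((rc u n).filter (fun w => ll u w < j)).card ≤ D * j) using 2
  have hr := weighted_le (rc u n) n D hn (fun w => rr u w) (fun w _ => rr_le u w) hrc hcard
  have hl := weighted_le (rc u n) n D hn (fun w => ll u w) (fun w _ => ll_le u w) hlc hcard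
  have hsum : ∑ w ∈ rc u n, 1 / κ w ≤ (E1 - 1) *
      ((∑ w ∈ rc u n, 1 / ((n : ℝ) + 2 * rr u w) + ∑ w ∈ rc u n, 1 / ((n : ℝ) + 2 * ll u w)) / 2) := by
    rw [← Finset.sum_add_distrib, Finset.sum_div, Finset.mul_sum]
    apply Finset.sum_le_sum
    intro w _
    have h1 := half_conv n (rr u w) (ll u w) hn0 (by positivity) (by positivity)
    have h2 : 1 / κ w = (E1 - 1) * (1 / ((n : ℝ) + rr u w + ll u w)) := by
      simp only [hκ]
      rw [one_div_div]
      ring
    rw [h2]
    exact mul_le_mul_of_nonneg_left h1 hE.le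
  refine le_trans hS (le_trans hsum ?_)
  apply mul_le_mul_of_nonneg_left _ hE.le
  linarith

theorem one_le_main (u : ℕ → A) (D : ℕ) (h0 : (rc u 0).card ≤ 1)
    (hstep : ∀ m, (rc u (m + 1)).card ≤ (rc u m).card + D)
    (E1 E2 : ℝ) (n0 : ℕ) (hE1 : 1 < E1)
    (H1 : ∀ i p l, 0 < p → n0 ≤ p → HasPower u i p l → (l : ℝ) / (p : ℝ) ≤ E1)
    (H2 : ∀ i p l, 0 < p → HasPower u i p l → (l : ℝ) / (p : ℝ) ≤ E2) :
    1 ≤ (E1 - 1) * (D * (Real.log 3 / 2)) := by
  by_contra hc
  push Not at hc
  set δ := 1 - (E1 - 1) * (D * (Real.log 3 / 2)) with hδ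
  have hδ0 : 0 < δ := by linarith
  obtain ⟨n, hn⟩ := exists_nat_gt (max ((E2 - 1) * n0) (max 1 ((E1 - 1) * (D + 1 / 3) / δ)))
  have h1 : (E2 - 1) * n0 < n := lt_of_le_of_lt (le_max_left _ _) hn
  have h2 : (1 : ℝ) < n := lt_of_le_of_lt (le_trans (le_max_left _ _) (le_max_right _ _)) hn
  have h3 : (E1 - 1) * (D + 1 / 3) / δ < n :=
    lt_of_le_of_lt (le_trans (le_max_right _ _) (le_max_right _ _)) hn
  have hn0 : (0 : ℝ) < n := by linarith
  have h4 := one_le_of_length u D h0 hstep E1 E2 n0 hE1 H1 H2 n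
    (by exact_mod_cast h2.le) h1
  rw [div_lt_iff₀ hδ0] at h3
  have h5 : (E1 - 1) * (D * (1 / (n : ℝ) + Real.log 3 / 2) + 1 / (3 * (n : ℝ)))
      = (E1 - 1) * (D * (Real.log 3 / 2)) + (E1 - 1) * (D + 1 / 3) / n := by
    field_simp
    ring
  rw [h5] at h4
  have h6 : (E1 - 1) * (D + 1 / 3) / n < δ := by
    rw [div_lt_iff₀ hn0]; linarith
  linarith

end

end Pool.Agent.Helper44.IET
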