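import Mathlib

/-!
Arithmetic of the golden ratio used for the upper bound.
-/

namespace Pool.Agent.Helper44.IET

/-- inverse of the golden ratio -/
noncomputable def al : ℝ := (Real.sqrt 5 - 1) / 2

/-- golden ratio -/
noncomputable def ph : ℝ := (Real.sqrt 5 + 1) / 2

lemma sqrt5_sq : Real.sqrt 5 * Real.sqrt 5 = 5 := Real.mul_self_sqrt (by norm_num)

lemma sqrt5_gt : (2.236 : ℝ) < Real.sqrt 5 := by
  apply Real.lt_sqrt_of_sq_lt; norm_num

lemma sqrt5_lt : Real.sqrt 5 < (2.237 : ℝ) := by
  rw [Real.sqrt_lt' (by norm_num)]; norm_num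

lemma ph_eq : ph = al + 1 := by unfold ph al; ring

lemma al_mul_ph : al * ph = 1 := by
  unfold ph al
  have := sqrt5_sq
  linarith

lemma ph_mul_al : ph * al = 1 := by rw [mul_comm, al_mul_ph]

lemma al_add_ph : al + ph = Real.sqrt 5 := by unfold ph al; ring

lemma al_sq : al * al = 1 - al := by
  have h := al_mul_ph
  rw [ph_eq] at h
  linarith

lemma al_gt : (0.618 : ℝ) < al := by unfold al; linarith [sqrt5_gt]

lemma al_lt : al < (0.6185 : ℝ) := by unfold al; linarith [sqrt5_lt]

lemma al_pos : 0 < al := by linarith [al_gt]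

lemma al_lt_one : al < 1 := by linarith [al_lt]

lemma ph_gt : (1.618 : ℝ) < ph := by rw [ph_eq]; linarith [al_gt]

lemma ph_lt : ph < (1.6185 : ℝ) := by rw [ph_eq]; linarith [al_lt]

lemma ph_pos : 0 < ph := by linarith [ph_gt]

lemma one_lt_ph : 1 < ph := by linarith [ph_gt]

lemma al_pow_mul_ph_pow (k : ℕ) : al ^ k * ph ^ k = 1 := by
  rw [← mul_pow, al_mul_ph, one_pow]

lemma ph_pow_mul_al_pow (k : ℕ) : ph ^ k * al ^ k = 1 := by
  rw [← mul_pow, ph_mul_al, one_pow]

lemma irrational_al : Irrational al := by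
  have h : Irrational (Real.sqrt ((5 : ℕ) : ℝ)) := Nat.Prime.irrational_sqrt (by norm_num)
  have h2 : Irrational (Real.sqrt 5) := by simpa using h
  unfold al
  have h3 : Irrational (Real.sqrt 5 - ((1 : ℕ) : ℝ)) := h2.sub_natCast 1
  have h4 : Irrational ((Real.sqrt 5 - ((1 : ℕ) : ℝ)) / ((2 : ℕ) : ℝ)) :=
    h3.div_natCast (by norm_num)
  simpa using h4

/-- real embedding of `a + b * al` -/
noncomputable def re (a b : ℤ) : ℝ := a + b * al

/-- conjugate embedding of `a + b * al` -/
noncomputable def cj (a b : ℤ) : ℝ := a - b * ph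

lemma cj_eq (a b : ℤ) : cj a b = re a b - b * Real.sqrt 5 := by
  unfold cj re; rw [← al_add_ph]; ring

lemma re_eq_zero {a b : ℤ} (h : re a b = 0) : a = 0 ∧ b = 0 := by
  unfold re at h
  by_cases hb : b = 0
  · subst hb
    simp at h
    exact ⟨h, rfl⟩
  · exfalso
    have h1 := (irrational_al.intCast_mul hb).intCast_add a
    rw [h] at h1
    exact h1 ⟨0, by simp⟩

lemma scale_down (a b : ℤ) : ∃ a' b', re a' b' = al * re a b ∧ cj a' b' = -ph * cj a b := by
  refine ⟨b, a - b, ?_, ?_⟩
  · unfold re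
    push_cast
    have := al_sq
    linear_combination -(b : ℝ) * this
  · unfold cj
    push_cast
    have h := al_sq
    have h2 : ph * ph = ph + 1 := by rw [ph_eq]; linarith
    linear_combination -(b : ℝ) * h2

lemma scale_up (a b : ℤ) : ∃ a' b', re a' b' = ph * re a b ∧ cj a' b' = -al * cj a b := by
  refine ⟨a + b, a, ?_, ?_⟩
  · unfold re
    push_cast
    have := ph_mul_al
    rw [ph_eq] at this ⊢
    linear_combination -(b : ℝ) * this
  · unfold cj
    push_cast
    have := al_mul_ph
    rw [ph_eq] at this ⊢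
    linear_combination -(b : ℝ) * this

lemma scale_down_pow (k : ℕ) (a b : ℤ) :
    ∃ a' b', re a' b' = al ^ k * re a b ∧ cj a' b' = (-ph) ^ k * cj a b := by
  induction k with
  | zero => exact ⟨a, b, by simp, by simp⟩
  | succ k ih =>
    obtain ⟨a1, b1, h1, h2⟩ := ih
    obtain ⟨a2, b2, h3, h4⟩ := scale_down a1 b1
    exact ⟨a2, b2, by rw [h3, h1]; ring, by rw [h4, h2]; ring⟩

lemma scale_up_pow (k : ℕ) (a b : ℤ) :
    ∃ a' b', re a' b' = ph ^ k * re a b ∧ cj a' b' = (-al) ^ k * cj a b := by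
  induction k with
  | zero => exact ⟨a, b, by simp, by simp⟩
  | succ k ih =>
    obtain ⟨a1, b1, h1, h2⟩ := ih
    obtain ⟨a2, b2, h3, h4⟩ := scale_up a1 b1
    exact ⟨a2, b2, by rw [h3, h1]; ring, by rw [h4, h2]; ring⟩

/-- every half-closed box of size `1` by `ph ^ 2` contains a point of the golden lattice -/
lemma hit_zero (x y : ℝ) :
    ∃ a b : ℤ, x < re a b ∧ re a b ≤ x + 1 ∧ y ≤ cj a b ∧ cj a b ≤ y + ph ^ 2 := by
  set A : ℤ → ℤ := fun b => ⌊x + 1 - b * al⌋ with hA
  have h1 : ∀ b, x < re (A b) b := by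
    intro b
    have := Int.lt_floor_add_one (x + 1 - b * al)
    unfold re
    simp only [hA]
    linarith
  have h2 : ∀ b, re (A b) b ≤ x + 1 := by
    intro b
    have := Int.floor_le (x + 1 - b * al)
    unfold re
    simp only [hA]
    linarith
  have hs := sqrt5_gt
  obtain ⟨b, hb, hmax⟩ := Int.exists_greatest_of_bdd (P := fun b => y ≤ cj (A b) b) (by
    obtain ⟨n, hn⟩ := exists_nat_gt |x + 1 - y|
    refine ⟨n, fun b hb => ?_⟩
    by_contra hc
    push Not at hc
    rw [cj_eq] at hb
    have h3 := h2 b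
    have h4 : (n : ℝ) < b := by exact_mod_cast hc
    have h5 := le_abs_self (x + 1 - y)
    have h6 : (b : ℝ) ≤ b * Real.sqrt 5 := by
      have : (0 : ℝ) ≤ b := by linarith [abs_nonneg (x + 1 - y)]
      nlinarith
    linarith) (by
    obtain ⟨n, hn⟩ := exists_nat_gt |y - x|
    refine ⟨-(n : ℤ), ?_⟩
    rw [cj_eq]
    have h3 := h1 (-(n : ℤ))
    have h5 := le_abs_self (y - x)
    push_cast
    have h6 : (n : ℝ) ≤ n * Real.sqrt 5 := by
      have : (0 : ℝ) ≤ n := Nat.cast_nonneg n
      nlinarith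
    linarith)
  refine ⟨A b, b, h1 b, h2 b, hb, ?_⟩
  by_contra hc
  push Not at hc
  have h3 : ¬ (y ≤ cj (A (b + 1)) (b + 1)) := by
    intro h4
    have := hmax (b + 1) h4
    omega
  apply h3
  have h4 : A b - 1 ≤ A (b + 1) := by
    simp only [hA]
    apply Int.le_floor.mpr
    have := Int.floor_le (x + 1 - b * al)
    push_cast
    linarith [al_lt_one]
  have h5 : ((A b : ℤ) : ℝ) - 1 ≤ (A (b + 1) : ℤ) := by exact_mod_cast h4
  have h6 : ph ^ 2 = ph + 1 := by
    have := al_sq
    rw [ph_eq]; linear_combination this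
  unfold cj at hc ⊢
  push_cast
  rw [h6] at hc
  linarith

lemma hit (k : ℕ) (x y : ℝ) :
    ∃ a b : ℤ, x < re a b ∧ re a b ≤ x + al ^ k ∧ y ≤ cj a b ∧ cj a b ≤ y + ph ^ (k + 2) := by
  induction k generalizing x y with
  | zero =>
    obtain ⟨a, b, h1, h2, h3, h4⟩ := hit_zero x y
    exact ⟨a, b, h1, by simpa using h2, h3, by simpa using h4⟩
  | succ k ih =>
    obtain ⟨a, b, h1, h2, h3, h4⟩ := ih (ph * x) (-al * (y + ph ^ (k + 1 + 2)))
    obtain ⟨a', b', h5, h6⟩ := scale_down a b
    have hap := al_pos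
    have hpp := ph_pos
    refine ⟨a', b', ?_, ?_, ?_, ?_⟩
    · rw [h5]
      have := mul_lt_mul_of_pos_left h1 hap
      rw [← mul_assoc, al_mul_ph, one_mul] at this
      exact this
    · rw [h5]
      have := mul_le_mul_of_nonneg_left h2 hap.le
      rw [mul_add, ← mul_assoc, al_mul_ph, one_mul] at this
      calc al * re a b ≤ x + al * al ^ k := this
        _ = x + al ^ (k + 1) := by ring
    · rw [h6]
      have h7 := mul_le_mul_of_nonneg_left h4 hpp.le
      have h8 : ph * (-al * (y + ph ^ (k + 1 + 2)) + ph ^ (k + 2)) = -y := by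
        have := ph_mul_al
        linear_combination (-(y + ph ^ (k + 1 + 2))) * this
      rw [h8] at h7
      linarith
    · rw [h6]
      have h7 := mul_le_mul_of_nonneg_left h3 hpp.le
      have h8 : ph * (-al * (y + ph ^ (k + 1 + 2))) = -(y + ph ^ (k + 1 + 2)) := by
        have := ph_mul_al
        linear_combination (-(y + ph ^ (k + 1 + 2))) * this
      rw [h8] at h7
      linarith

lemma sep_zero (a b : ℤ) (h0 : re a b ≠ 0) (h : |re a b| < 1) : ph ≤ |cj a b| := by
  have hs := sqrt5_gt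
  have hal := al_gt
  have hal2 := al_lt
  rw [abs_lt] at h
  have hph := ph_eq
  rcases lt_trichotomy b 0 with hb | hb | hb
  · rcases eq_or_lt_of_le (Int.le_sub_one_of_lt hb) with hb1 | hb1
    · have hb2 : b = -1 := by omega
      subst hb2
      have ha : -1 < a := by
        unfold re at h
        have h1 := h.1
        push_cast at h1
        by_contra hc
        push Not at hc
        have : (a : ℝ) ≤ -1 := by exact_mod_cast hc
        linarith
      have ha2 : (0 : ℝ) ≤ a := by exact_mod_cast (by omega : (0 : ℤ) ≤ a)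
      rw [le_abs]
      left
      unfold cj
      push_cast
      linarith
    · have hb2 : (b : ℝ) ≤ -2 := by exact_mod_cast (by omega : b ≤ -2)
      rw [le_abs]
      left
      rw [cj_eq]
      nlinarith
  · exfalso
    subst hb
    unfold re at h h0
    simp only [Int.cast_zero, zero_mul, add_zero] at h h0
    have h1 : (-1 : ℤ) < a := by exact_mod_cast h.1
    have h2 : a < (1 : ℤ) := by exact_mod_cast h.2
    apply h0
    have : a = 0 := by omega
    exact_mod_cast this
  · rcases eq_or_lt_of_le (Int.add_one_le_of_lt hb) with hb1 | hb1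
    · have hb2 : b = 1 := by omega
      subst hb2
      have ha : a < 1 := by
        unfold re at h
        have h1 := h.2
        push_cast at h1
        by_contra hc
        push Not at hc
        have : (1 : ℝ) ≤ a := by exact_mod_cast hc
        linarith
      have ha2 : (a : ℝ) ≤ 0 := by exact_mod_cast (by omega : a ≤ (0 : ℤ))
      rw [le_abs]
      right
      unfold cj
      push_cast
      linarith
    · have hb2 : (2 : ℝ) ≤ b := by exact_mod_cast (by omega : 2 ≤ b)
      rw [le_abs]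
      right
      rw [cj_eq]
      nlinarith

lemma sep (k : ℕ) (a b : ℤ) (h0 : re a b ≠ 0) (h : |re a b| < al ^ k) :
    ph ^ (k + 1) ≤ |cj a b| := by
  obtain ⟨a', b', h1, h2⟩ := scale_up_pow k a b
  have hpk : 0 < ph ^ k := pow_pos ph_pos k
  have hak : 0 < al ^ k := pow_pos al_pos k
  have h3 : re a' b' ≠ 0 := by
    rw [h1]; exact mul_ne_zero hpk.ne' h0
  have h4 : |re a' b'| < 1 := by
    rw [h1, abs_mul, abs_of_pos hpk]
    calc ph ^ k * |re a b| < ph ^ k * al ^ k := mul_lt_mul_of_pos_left h hpk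
      _ = 1 := ph_pow_mul_al_pow k
  have h5 := sep_zero a' b' h3 h4
  rw [h2, abs_mul, abs_pow, abs_neg, abs_of_pos al_pos] at h5
  have h6 := mul_le_mul_of_nonneg_left h5 hpk.le
  rw [← mul_assoc, ph_pow_mul_al_pow, one_mul] at h6
  rw [pow_succ]
  exact h6

end Pool.Agent.Helper44.IET
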