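import Pool.Agent.Helper44.IETGolden

/-!
Counting classes of a superlattice of the golden lattice.
-/

namespace Pool.Agent.Helper44.IET

/-- multiplication by `c + d * al` on `Z ^ 2` -/
noncomputable def mulMap (c d : ℤ) : (Fin 2 → ℤ) →ₗ[ℤ] (Fin 2 → ℤ) :=
  Matrix.toLin' !![c, d; d, c - d]

lemma mulMap_zero (c d : ℤ) (v : Fin 2 → ℤ) : mulMap c d v 0 = c * v 0 + d * v 1 := by
  simp [mulMap, Matrix.toLin'_apply, Matrix.mulVec, dotProduct, Fin.sum_univ_two]

lemma mulMap_one (c d : ℤ) (v : Fin 2 → ℤ) : mulMap c d v 1 = d * v 0 + (c - d) * v 1 := by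
  simp [mulMap, Matrix.toLin'_apply, Matrix.mulVec, dotProduct, Fin.sum_univ_two]

lemma re_mulMap (c d : ℤ) (v : Fin 2 → ℤ) :
    re (mulMap c d v 0) (mulMap c d v 1) = re c d * re (v 0) (v 1) := by
  rw [mulMap_zero, mulMap_one]
  unfold re
  push_cast
  have := al_sq
  linear_combination (-(d : ℝ) * v 1) * this

lemma cj_mulMap (c d : ℤ) (v : Fin 2 → ℤ) :
    cj (mulMap c d v 0) (mulMap c d v 1) = cj c d * cj (v 0) (v 1) := by
  rw [mulMap_zero, mulMap_one]
  unfold cj
  push_cast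
  have h2 : ph * ph = ph + 1 := by rw [ph_eq]; linarith [al_sq]
  linear_combination (-(d : ℝ) * v 1) * h2

lemma norm_eq (c d : ℤ) : re c d * cj c d = (((c * (c - d) - d * d : ℤ)) : ℝ) := by
  unfold re cj
  push_cast
  have h1 := al_mul_ph
  have h2 := ph_eq
  linear_combination (-(d : ℝ) * d) * h1 + (-(c : ℝ) * d) * h2

lemma card_quot (c d : ℤ) (h : c * (c - d) - d * d ≠ 0) :
    Nat.card ((Fin 2 → ℤ) ⧸ LinearMap.range (mulMap c d)) = (c * (c - d) - d * d).natAbs := by
  have hdet : LinearMap.det (mulMap c d) = c * (c - d) - d * d := by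
    unfold mulMap
    rw [LinearMap.det_toLin', Matrix.det_fin_two_of]
  have hinj : Function.Injective (mulMap c d) := by
    rw [← LinearMap.ker_eq_bot]
    by_contra hc
    rw [← ne_eq, ← LinearMap.det_eq_zero_iff_ker_ne_bot, hdet] at hc
    exact h hc
  rw [← Submodule.natAbs_det_equiv (LinearMap.range (mulMap c d))
    (LinearEquiv.ofInjective (mulMap c d) hinj), ← hdet]
  rfl

/-- position of the point `v / (c + d * al)` -/
noncomputable def pos (c d : ℤ) (v : Fin 2 → ℤ) : ℝ := re (v 0) (v 1) / re c d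

/-- time of the point `v / (c + d * al)` -/
noncomputable def tim (c d : ℤ) (v : Fin 2 → ℤ) : ℝ :=
  (cj (v 0) (v 1) / cj c d - re (v 0) (v 1) / re c d) / Real.sqrt 5

/-- representatives of the classes -/
def reps (c d : ℤ) : Set (Fin 2 → ℤ) :=
  {v | 0 ≤ pos c d v ∧ pos c d v < 1 ∧ -1 < tim c d v ∧ tim c d v ≤ 0}

lemma pos_add_mul (c d : ℤ) (hr : re c d ≠ 0) (v w : Fin 2 → ℤ) :
    pos c d (v + mulMap c d w) = pos c d v + re (w 0) (w 1) := by
  unfold pos
  have h1 := re_mulMap c d w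
  have h2 : re ((v + mulMap c d w) 0) ((v + mulMap c d w) 1)
      = re (v 0) (v 1) + re (mulMap c d w 0) (mulMap c d w 1) := by
    unfold re
    simp only [Pi.add_apply]
    push_cast
    ring
  rw [h2, h1]
  field_simp

lemma tim_add_mul (c d : ℤ) (hr : re c d ≠ 0) (hc : cj c d ≠ 0) (v w : Fin 2 → ℤ) :
    tim c d (v + mulMap c d w) = tim c d v - w 1 := by
  unfold tim
  have h1 := re_mulMap c d w
  have h1' := cj_mulMap c d w
  have h2 : re ((v + mulMap c d w) 0) ((v + mulMap c d w) 1)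
      = re (v 0) (v 1) + re (mulMap c d w 0) (mulMap c d w 1) := by
    unfold re
    simp only [Pi.add_apply]
    push_cast
    ring
  have h3 : cj ((v + mulMap c d w) 0) ((v + mulMap c d w) 1)
      = cj (v 0) (v 1) + cj (mulMap c d w 0) (mulMap c d w 1) := by
    unfold cj
    simp only [Pi.add_apply]
    push_cast
    ring
  have hs : Real.sqrt 5 ≠ 0 := by have := sqrt5_gt; intro h; rw [h] at this; norm_num at this
  rw [h2, h3, h1, h1', cj_eq (w 0) (w 1)]
  field_simp
  ring

lemma reps_inj (c d : ℤ) (hr : re c d ≠ 0) (hc : cj c d ≠ 0) (v v' : Fin 2 → ℤ)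
    (hv : v ∈ reps c d) (hv' : v' ∈ reps c d) (w : Fin 2 → ℤ) (hw : v = v' + mulMap c d w) :
    v = v' := by
  obtain ⟨a1, a2, a3, a4⟩ := hv
  obtain ⟨b1, b2, b3, b4⟩ := hv'
  rw [hw, pos_add_mul c d hr] at a1 a2
  rw [hw, tim_add_mul c d hr hc] at a3 a4
  have h1 : w 1 = 0 := by
    have h2 : (-1 : ℝ) < w 1 := by linarith
    have h3 : (w 1 : ℝ) < 1 := by linarith
    have h2' : (-1 : ℤ) < w 1 := by exact_mod_cast h2
    have h3' : w 1 < (1 : ℤ) := by exact_mod_cast h3
    omega
  have h4 : w 0 = 0 := by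
    rw [h1] at a1 a2
    unfold re at a1 a2
    simp only [Int.cast_zero, zero_mul, add_zero] at a1 a2
    have h2 : (-1 : ℝ) < w 0 := by linarith
    have h3 : (w 0 : ℝ) < 1 := by linarith
    have h2' : (-1 : ℤ) < w 0 := by exact_mod_cast h2
    have h3' : w 0 < (1 : ℤ) := by exact_mod_cast h3
    omega
  have h5 : w = 0 := by
    funext i
    fin_cases i
    · exact h4
    · exact h1
  rw [hw, h5, map_zero, add_zero]

lemma reps_card (c d : ℤ) (hr : re c d ≠ 0) (hc : cj c d ≠ 0) :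
    (reps c d).Finite ∧ ((reps c d).ncard : ℝ) ≤ |re c d * cj c d| := by
  have hn : c * (c - d) - d * d ≠ 0 := by
    intro h
    have h1 := norm_eq c d
    rw [h] at h1
    simp at h1
    rcases h1 with h1 | h1
    · exact hr h1
    · exact hc h1
  have hq := card_quot c d hn
  have hfin : Finite ((Fin 2 → ℤ) ⧸ LinearMap.range (mulMap c d)) := by
    apply Nat.finite_of_card_ne_zero
    rw [hq]
    exact Int.natAbs_ne_zero.mpr hn
  set f : reps c d → ((Fin 2 → ℤ) ⧸ LinearMap.range (mulMap c d)) :=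
    fun v => Submodule.Quotient.mk (v : Fin 2 → ℤ) with hf
  have hinj : Function.Injective f := by
    intro v v' h
    simp only [hf] at h
    rw [Submodule.Quotient.eq] at h
    obtain ⟨w, hw⟩ := h
    apply Subtype.ext
    exact reps_inj c d hr hc v v' v.2 v'.2 w (by rw [hw]; abel)
  have hfin2 : Finite (reps c d) := Finite.of_injective f hinj
  refine ⟨Set.toFinite _, ?_⟩
  have h1 := Nat.card_le_card_of_injective f hinj
  rw [hq] at h1
  rw [norm_eq]
  have h2 : (reps c d).ncard = Nat.card (reps c d) := rfl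
  rw [h2]
  have h3 : |(((c * (c - d) - d * d : ℤ)) : ℝ)| = ((c * (c - d) - d * d).natAbs : ℝ) := by
    rw [Nat.cast_natAbs, Int.cast_abs]
  rw [h3]
  exact_mod_cast h1

end Pool.Agent.Helper44.IET
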