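import Pool.Agent.Helper44.IETCount

/-!
Factor growth of codings of interval exchanges, and the lower bound.
-/

open Finset Filter

namespace Pool.Agent.Helper44.IET

namespace Exchange

variable {d : ℕ} (E : Exchange d)

lemma iter_translation (w : ℕ → Fin d) (x y : ℝ) (m : ℕ)
    (hx : ∀ j < m, E.T^[j] x ∈ E.interval (w j)) (hy : ∀ j < m, E.T^[j] y ∈ E.interval (w j)) :
    E.T^[m] y - E.T^[m] x = y - x := by
  induction m with
  | zero => simp
  | succ m ih =>
    have h1 := ih (fun j hj => hx j (by omega)) (fun j hj => hy j (by omega))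
    rw [Function.iterate_succ_apply', Function.iterate_succ_apply',
      E.T_of_mem (hx m (by omega)), E.T_of_mem (hy m (by omega))]
    linarith

lemma iter_between (w : ℕ → Fin d) (x y z : ℝ) (hxz : x ≤ z) (hzy : z ≤ y) (m : ℕ)
    (hx : ∀ j < m, E.T^[j] x ∈ E.interval (w j)) (hy : ∀ j < m, E.T^[j] y ∈ E.interval (w j)) :
    ∀ j < m, E.T^[j] z ∈ E.interval (w j) := by
  induction m with
  | zero => intro j hj; omega
  | succ m ih =>
    have h1 := ih (fun j hj => hx j (by omega)) (fun j hj => hy j (by omega))
    intro j hj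
    rcases Nat.lt_or_ge j m with h | h
    · exact h1 j h
    · have hjm : j = m := by omega
      subst hjm
      have h2 := E.iter_translation w x z j (fun j hj => hx j (by omega)) h1
      have h3 := E.iter_translation w z y j h1 (fun j hj => hy j (by omega))
      have h4 := hx j (by omega)
      have h5 := hy j (by omega)
      refine ⟨?_, ?_⟩
      · have := h4.1; linarith
      · have := h5.2; linarith

lemma iter_inj (w1 w2 : ℕ → Fin d) (z1 z2 : ℝ) (m : ℕ)
    (h1 : ∀ j < m, E.T^[j] z1 ∈ E.interval (w1 j)) (h2 : ∀ j < m, E.T^[j] z2 ∈ E.interval (w2 j))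
    (h : E.T^[m] z1 = E.T^[m] z2) : ∀ j < m, w1 j = w2 j := by
  induction m with
  | zero => intro j hj; omega
  | succ m ih =>
    rw [Function.iterate_succ_apply', Function.iterate_succ_apply'] at h
    obtain ⟨h3, h4⟩ := E.T_inj (h1 m (by omega)) (h2 m (by omega)) h
    intro j hj
    rcases Nat.lt_or_ge j m with h5 | h5
    · exact ih (fun j hj => h1 j (by omega)) (fun j hj => h2 j (by omega)) h3 j h5
    · have hjm : j = m := by omega
      subst hjm
      exact h4

end Exchange

lemma rc_zero_card {A : Type*} [Fintype A] (u : ℕ → A) : (rc u 0).card ≤ 1 := by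
  rw [Finset.card_le_one]
  intro a _ b _
  funext t
  exact t.elim0

open Classical in
lemma rc_succ_card {d : ℕ} (E : Exchange d) (u : ℕ → Fin d) (x0 : ℝ)
    (hu : ∀ n, E.T^[n] x0 ∈ E.interval (u n)) (m : ℕ) :
    (rc u (m + 1)).card ≤ (rc u m).card + (d - 1) := by
  set Q : (Fin (m + 1) → Fin d) → Prop := fun v => ∃ v' ∈ rc u (m + 1),
    pre (j := 1) v' = pre (j := 1) v ∧ v' (Fin.last m) < v (Fin.last m) with hQ
  rw [← Finset.card_filter_add_card_filter_not (s := rc u (m + 1)) (p := fun v => ¬ Q v)]
  apply Nat.add_le_add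
  · apply Finset.card_le_card_of_injOn (fun v => pre (j := 1) v)
    · intro v hv
      rw [Finset.mem_coe, mem_filter] at hv
      exact pre_mem (j := 1) hv.1
    · intro v hv v' hv' h
      rw [Finset.mem_coe, mem_filter] at hv hv'
      simp only [hQ] at hv hv'
      push Not at hv hv'
      have h1 := hv.2 v' hv'.1 h.symm
      have h2 := hv'.2 v hv.1 h
      have h3 : v (Fin.last m) = v' (Fin.last m) := le_antisymm h1 h2
      funext t
      refine Fin.lastCases h3 (fun t => ?_) t
      exact congrFun h t
  · rcases Nat.eq_zero_or_pos d with hd | hd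
    · subst hd
      exact (u 0).elim0
    · have : NeZero d := ⟨by omega⟩
      have hcard : ((univ : Finset (Fin d)).erase 0).card = d - 1 := by
        rw [Finset.card_erase_of_mem (mem_univ _), Finset.card_univ, Fintype.card_fin]
      rw [← hcard]
      have key : ∀ v, v ∈ (rc u (m + 1)).filter (fun v => ¬ ¬ Q v) → ∃ i z, fac u i (m + 1) = v ∧
          (∀ j < m, E.T^[j] z ∈ E.interval (u (i + j))) ∧
          E.T^[m] z = E.left (v (Fin.last m)) ∧ v (Fin.last m) ≠ 0 := by
        intro v hv
        rw [mem_filter] at hv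
        obtain ⟨hv1, hv2⟩ := hv
        rw [not_not] at hv2
        obtain ⟨v', hv', hp, hl⟩ := hv2
        obtain ⟨i, hi⟩ := (mem_rc.mp hv1).exists
        obtain ⟨i', hi'⟩ := (mem_rc.mp hv').exists
        have hx : ∀ j, E.T^[j] (E.T^[i] x0) ∈ E.interval (u (i + j)) := by
          intro j
          rw [← Function.iterate_add_apply, add_comm j i]
          exact hu (i + j)
        have hx' : ∀ j, E.T^[j] (E.T^[i'] x0) ∈ E.interval (u (i' + j)) := by
          intro j
          rw [← Function.iterate_add_apply, add_comm j i']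
          exact hu (i' + j)
        have hw : ∀ j < m, u (i' + j) = u (i + j) := by
          intro j hj
          have h1 := congrFun hp ⟨j, hj⟩
          rw [← hi, ← hi'] at h1
          exact h1
        have hlast : v (Fin.last m) = u (i + m) := by
          rw [← hi]; simp [fac]
        have hlast' : v' (Fin.last m) = u (i' + m) := by
          rw [← hi']; simp [fac]
        set x := E.T^[i] x0 with hxd
        set x' := E.T^[i'] x0 with hxd'
        have hx'w : ∀ j < m, E.T^[j] x' ∈ E.interval (u (i + j)) := by
          intro j hj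
          rw [← hw j hj]; exact hx' j
        have ht := E.iter_translation (fun j => u (i + j)) x' x m hx'w (fun j _ => hx j)
        have h1 := hx m
        have h2 := hx' m
        rw [hlast] at hl ⊢
        rw [hlast'] at hl
        have h3 := E.left_add_le hl
        have h4 := h1.1
        have h5 := h2.2
        set z := E.left (u (i + m)) - E.T^[m] x + x with hz
        have hz1 : x' ≤ z := by linarith
        have hz2 : z ≤ x := by linarith
        have hzJ := E.iter_between (fun j => u (i + j)) x' x z hz1 hz2 m hx'w (fun j _ => hx j)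
        have hzt := E.iter_translation (fun j => u (i + j)) z x m hzJ (fun j _ => hx j)
        refine ⟨i, z, hi, hzJ, by linarith, ?_⟩
        intro h0
        rw [h0] at hl
        exact absurd hl (by simp)
      apply Finset.card_le_card_of_injOn (fun v => v (Fin.last m))
      · intro v hv
        obtain ⟨i, z, _, _, _, h⟩ := key v hv
        rw [Finset.mem_coe, Finset.mem_erase]
        exact ⟨h, mem_univ _⟩
      · intro v hv v' hv' h
        obtain ⟨i, z, hi, hz, hzm, _⟩ := key v hv
        obtain ⟨i', z', hi', hz', hzm', _⟩ := key v' hv'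
        have hzz : E.T^[m] z = E.T^[m] z' := by
          rw [hzm, hzm']
          exact congrArg E.left h
        have h1 := E.iter_inj (fun j => u (i + j)) (fun j => u (i' + j)) z z' m hz hz' hzz
        funext t
        refine Fin.lastCases h (fun t => ?_) t
        have h2 := h1 t t.2
        rw [← hi, ← hi']
        exact h2

/-- lower bound for every coding of a `d`-interval exchange -/
theorem lower_asymp (d : ℕ) (hd : 2 ≤ d) (u : ℕ → Fin d) (hu : u ∈ Codings d) :
    ((1 + 2 / (((d : ℝ) - 1) * Real.log 3) : ℝ) : EReal) ≤ asympCritExp u := by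
  obtain ⟨E, _, _, x0, _, hx⟩ := hu
  unfold asympCritExp
  split_ifs with htop
  · exact le_top
  · by_contra hc
    push Not at hc
    obtain ⟨n0, hn0⟩ := iInf_lt_iff.mp hc
    obtain ⟨E1, hE1, hE1'⟩ := EReal.lt_iff_exists_real_btwn.mp hn0
    obtain ⟨E2, hE2, _⟩ := EReal.lt_iff_exists_real_btwn.mp (lt_top_iff_ne_top.mpr htop)
    have hd0 : (0 : ℝ) < (d : ℝ) - 1 := by
      have : (2 : ℝ) ≤ d := by exact_mod_cast hd
      linarith
    have hlog : 0 < Real.log 3 := Real.log_pos (by norm_num)
    have hlt : E1 < 1 + 2 / (((d : ℝ) - 1) * Real.log 3) := by exact_mod_cast hE1'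
    have hc0 : 0 < 2 / (((d : ℝ) - 1) * Real.log 3) := by positivity
    set c := 2 / (((d : ℝ) - 1) * Real.log 3) with hcdef
    set E1' := max E1 (1 + c / 2) with hE1'def
    have h1 : 1 < E1' := lt_of_lt_of_le (by linarith) (le_max_right _ _)
    have h2 : E1' < 1 + c := max_lt hlt (by linarith)
    have H1 : ∀ i p l, 0 < p → n0 ≤ p → HasPower u i p l → (l : ℝ) / (p : ℝ) ≤ E1' := by
      intro i p l hp hnp hpow
      refine le_trans ?_ (le_max_left _ _)
      have h3 : (((l : ℝ) / (p : ℝ) : ℝ) : EReal) ≤ critExpFrom u n0 := by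
        unfold critExpFrom
        exact le_iSup_of_le i (le_iSup_of_le p (le_iSup_of_le l (le_iSup_of_le hp
          (le_iSup_of_le hnp (le_iSup_of_le hpow le_rfl)))))
      exact_mod_cast (lt_of_le_of_lt h3 hE1).le
    have H2 : ∀ i p l, 0 < p → HasPower u i p l → (l : ℝ) / (p : ℝ) ≤ E2 := by
      intro i p l hp hpow
      have h3 : (((l : ℝ) / (p : ℝ) : ℝ) : EReal) ≤ critExp u := by
        unfold critExp
        exact le_iSup_of_le i (le_iSup_of_le p (le_iSup_of_le l (le_iSup_of_le hp
          (le_iSup_of_le hpow le_rfl))))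
      exact_mod_cast (lt_of_le_of_lt h3 hE2).le
    have h4 := one_le_main u (d - 1) (rc_zero_card u) (rc_succ_card E u x0 hx) E1' E2 n0 h1 H1 H2
    have h5 : ((d - 1 : ℕ) : ℝ) = (d : ℝ) - 1 := by
      rw [Nat.cast_sub (by omega)]; simp
    rw [h5] at h4
    have h6 : (E1' - 1) * (((d : ℝ) - 1) * (Real.log 3 / 2))
        < c * (((d : ℝ) - 1) * (Real.log 3 / 2)) := by
      apply mul_lt_mul_of_pos_right _ (by positivity)
      linarith
    have h7 : c * (((d : ℝ) - 1) * (Real.log 3 / 2)) = 1 := by
      rw [hcdef]; field_simp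
    linarith

end Pool.Agent.Helper44.IET
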