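import Pool.Agent.Helper44.IETRotation

/-!
Finite sets of cut points in different classes modulo `Z + Z al`.
-/

open Finset

namespace Pool.Agent.Helper44.IET

/-- different points of `F` lie in different classes modulo `Z + Z al` -/
def Ineq (F : Finset ℝ) : Prop := ∀ x ∈ F, ∀ y ∈ F, ∀ a b : ℤ, x - y = re a b → x = y

lemma exists_new (F : Finset ℝ) :
    ∃ x : ℝ, 0 < x ∧ x < 1 ∧ ∀ y ∈ F, ∀ a b : ℤ, x ≠ y + re a b := by
  set S : Set ℝ := ⋃ y ∈ (F : Set ℝ), Set.range (fun p : ℤ × ℤ => y + re p.1 p.2) with hS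
  have hc : S.Countable := by
    apply Set.Countable.biUnion F.countable_toSet
    intro y _
    exact Set.countable_range _
  have hd : Dense Sᶜ := hc.dense_compl ℝ
  obtain ⟨x, hx, h0, h1⟩ := hd.exists_between (show (0 : ℝ) < 1 by norm_num)
  refine ⟨x, h0, h1, fun y hy a b h => hx ?_⟩
  rw [hS, Set.mem_iUnion₂]
  exact ⟨y, hy, ⟨(a, b), h.symm⟩⟩

lemma re_neg (a b : ℤ) : re (-a) (-b) = -re a b := by
  unfold re; push_cast; ring

lemma pad (n k : ℕ) : ∀ F : Finset ℝ, (∀ x ∈ F, 0 < x ∧ x < 1) → Ineq F → F.card + k = n →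
    ∃ K : Finset ℝ, F ⊆ K ∧ K.card = n ∧ (∀ x ∈ K, 0 < x ∧ x < 1) ∧ Ineq K := by
  induction k with
  | zero =>
    intro F h1 h2 h3
    exact ⟨F, Finset.Subset.refl F, by omega, h1, h2⟩
  | succ k ih =>
    intro F h1 h2 h3
    obtain ⟨x, hx0, hx1, hx⟩ := exists_new F
    have hxF : x ∉ F := by
      intro h
      apply hx x h 0 0
      unfold re; simp
    obtain ⟨K, hK1, hK2, hK3, hK4⟩ := ih (insert x F) (by
      intro y hy
      rw [Finset.mem_insert] at hy
      rcases hy with rfl | hy
      · exact ⟨hx0, hx1⟩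
      · exact h1 y hy) (by
      intro y hy z hz a b hab
      rw [Finset.mem_insert] at hy hz
      rcases hy with rfl | hy
      · rcases hz with rfl | hz
        · rfl
        · exact absurd (by linarith) (hx z hz a b)
      · rcases hz with rfl | hz
        · exfalso
          apply hx y hy (-a) (-b)
          rw [re_neg]; linarith
        · exact h2 y hy z hz a b hab) (by
      rw [Finset.card_insert_of_notMem hxF]; omega)
    exact ⟨K, (Finset.subset_insert x F).trans hK1, hK2, hK3, hK4⟩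

lemma cuts_of_finset (K : Finset ℝ) (hK : ∀ x ∈ K, 0 < x ∧ x < 1) (hal : 1 - al ∈ K) :
    ∃ C : Cuts (K.card + 1), (∀ x ∈ K, ∃ i, 0 < i ∧ i < K.card + 1 ∧ C.g i = x) ∧
      ∀ i, 0 < i → i < K.card + 1 → C.g i ∈ K := by
  have h0K : (0 : ℝ) ∉ K := fun h => lt_irrefl _ (hK 0 h).1
  set K0 := insert (0 : ℝ) K with hK0
  have hcard : K0.card = K.card + 1 := Finset.card_insert_of_notMem h0K
  set f := K0.orderEmbOfFin hcard with hf
  set g : ℕ → ℝ := fun i => if h : i < K.card + 1 then f ⟨i, h⟩ else 1 with hg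
  have hgi : ∀ i (h : i < K.card + 1), g i = f ⟨i, h⟩ := by
    intro i h
    simp only [hg]
    rw [dif_pos h]
  have hmem : ∀ i, i < K.card + 1 → g i ∈ K0 := by
    intro i h
    rw [hgi i h]
    exact Finset.orderEmbOfFin_mem _ _ _
  have hsurj : ∀ x ∈ K0, ∃ i, i < K.card + 1 ∧ g i = x := by
    intro x hx
    have h1 : x ∈ Set.range f := by
      rw [hf, Finset.range_orderEmbOfFin]
      exact hx
    obtain ⟨i, hi⟩ := h1
    exact ⟨i, i.2, by rw [hgi i i.2]; exact hi⟩
  have hmono : ∀ i < K.card + 1, g i < g (i + 1) := by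
    intro i hi
    rcases Nat.lt_or_ge (i + 1) (K.card + 1) with h | h
    · rw [hgi i hi, hgi (i + 1) h]
      apply f.strictMono
      exact Nat.lt_succ_self i
    · have h1 : g (i + 1) = 1 := by
        simp only [hg]
        rw [dif_neg (by omega)]
      rw [h1]
      have h2 := hmem i hi
      rw [hK0, Finset.mem_insert] at h2
      rcases h2 with h2 | h2
      · rw [h2]; norm_num
      · exact (hK _ h2).2
  have hmono2 : ∀ i j, i < j → j < K.card + 1 → g i < g j := by
    intro i j hij hj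
    rw [hgi i (by omega), hgi j hj]
    exact f.strictMono hij
  have hnonneg : ∀ i, i < K.card + 1 → 0 ≤ g i := by
    intro i h
    have h1 := hmem i h
    rw [hK0, Finset.mem_insert] at h1
    rcases h1 with h1 | h1
    · rw [h1]
    · exact (hK _ h1).1.le
  have hzero : g 0 = 0 := by
    obtain ⟨i, hi, h1⟩ := hsurj 0 (Finset.mem_insert_self _ _)
    rcases Nat.eq_zero_or_pos i with h2 | h2
    · rw [h2] at h1; exact h1
    · have h3 := hmono2 0 i h2 hi
      have h4 := hnonneg 0 (by omega)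
      linarith
  have hlast : g (K.card + 1) = 1 := by
    simp only [hg]
    rw [dif_neg (by omega)]
  obtain ⟨r, hr, hr1⟩ := hsurj (1 - al) (Finset.mem_insert_of_mem hal)
  have hr0 : 0 < r := by
    rcases Nat.eq_zero_or_pos r with h2 | h2
    · exfalso
      rw [h2, hzero] at hr1
      linarith [al_lt_one]
    · exact h2
  refine ⟨⟨g, r, hmono, hzero, hlast, hr1, hr0, hr⟩, ?_, ?_⟩
  · intro x hx
    obtain ⟨i, hi, h1⟩ := hsurj x (Finset.mem_insert_of_mem hx)
    refine ⟨i, ?_, hi, h1⟩
    rcases Nat.eq_zero_or_pos i with h2 | h2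
    · exfalso
      rw [h2, hzero] at h1
      exact h0K (h1 ▸ hx)
    · exact h2
  · intro i hi0 hi
    have h1 := hmem i hi
    rw [hK0, Finset.mem_insert] at h1
    rcases h1 with h1 | h1
    · exfalso
      have := hmono2 0 i hi0 hi
      rw [hzero] at this
      change g i = 0 at h1
      linarith
    · exact h1

end Pool.Agent.Helper44.IET
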