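import Pool.Agent.Helper44.IETDefs
import Pool.Agent.Helper44.IETGolden

/-!
The rotation by the inverse golden ratio as an exchange of `d` intervals.
-/

open Finset

namespace Pool.Agent.Helper44.IET

/-- cyclic rotation of the intervals -/
def rotPerm (d r : ℕ) (h : r ≤ d) : Equiv.Perm (Fin d) where
  toFun i := ⟨if (i : ℕ) < r then (i : ℕ) + (d - r) else (i : ℕ) - r, by split_ifs <;> omega⟩
  invFun i := ⟨if (i : ℕ) < d - r then (i : ℕ) + r else (i : ℕ) - (d - r), by
    split_ifs <;> omega⟩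
  left_inv i := by
    apply Fin.ext
    simp only
    split_ifs <;> omega
  right_inv i := by
    apply Fin.ext
    simp only
    split_ifs <;> omega

lemma rotPerm_val (d r : ℕ) (h : r ≤ d) (i : Fin d) :
    ((rotPerm d r h i : Fin d) : ℕ) = if (i : ℕ) < r then (i : ℕ) + (d - r) else (i : ℕ) - r := rfl

/-- interval data: cut points `0 = g 0 < g 1 < ... < g d = 1` with `g r = 1 - al` -/
structure Cuts (d : ℕ) where
  /-- cut points -/
  g : ℕ → ℝ
  /-- index of the cut at `1 - al` -/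
  r : ℕ
  /-- increasing -/
  mono : ∀ i < d, g i < g (i + 1)
  /-- first -/
  zero : g 0 = 0
  /-- last -/
  last : g d = 1
  /-- discontinuity -/
  hr : g r = 1 - al
  /-- range -/
  hr0 : 0 < r
  /-- range -/
  hrd : r < d

namespace Cuts

variable {d : ℕ} (C : Cuts d)

/-- the exchange with the given cut points -/
noncomputable def ex : Exchange d where
  len i := C.g (i + 1) - C.g i
  perm := rotPerm d C.r C.hrd.le
  len_pos i := sub_pos.mpr (C.mono i i.2)
  len_sum := by
    rw [Fin.sum_univ_eq_sum_range (fun i => C.g (i + 1) - C.g i) d, Finset.sum_range_sub,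
      C.last, C.zero, sub_zero]

lemma ex_len (i : Fin d) : C.ex.len i = C.g (i + 1) - C.g i := rfl

lemma sum_filter (P : ℕ → Prop) [DecidablePred P] (h : ℕ → ℝ) :
    ∑ i ∈ univ.filter (fun i : Fin d => P i), h i = ∑ i ∈ (range d).filter P, h i := by
  rw [Finset.sum_filter, Finset.sum_filter, ← Fin.sum_univ_eq_sum_range (fun i => if P i then h i else 0) d]

lemma sum_Ico (a b : ℕ) (hab : a ≤ b) : ∑ i ∈ Finset.Ico a b, (C.g (i + 1) - C.g i) = C.g b - C.g a := by
  rw [Finset.sum_Ico_eq_sub _ hab, Finset.sum_range_sub, Finset.sum_range_sub]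
  ring

lemma ex_left (j : Fin d) : C.ex.left j = C.g j := by
  unfold Exchange.left
  have h1 : (univ.filter (fun i : Fin d => i < j)) = univ.filter (fun i : Fin d => (i : ℕ) < (j : ℕ)) := by
    apply Finset.filter_congr
    intro i _
    exact Iff.rfl
  rw [h1, Finset.sum_congr rfl (fun i _ => C.ex_len i),
    sum_filter (fun i => i < (j : ℕ)) (fun i => C.g (i + 1) - C.g i)]
  have h2 : (range d).filter (fun i => i < (j : ℕ)) = Finset.Ico 0 (j : ℕ) := by
    ext i
    rw [mem_filter, mem_range, Finset.mem_Ico]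
    have := j.2
    omega
  rw [h2, C.sum_Ico 0 j (Nat.zero_le _), C.zero, sub_zero]

lemma ex_imageLeft_of_lt (j : Fin d) (hj : (j : ℕ) < C.r) : C.ex.imageLeft j = C.g j + al := by
  unfold Exchange.imageLeft
  have hrd := C.hrd
  have h1 : (univ.filter (fun i : Fin d => C.ex.perm i < C.ex.perm j))
      = univ.filter (fun i : Fin d => (i : ℕ) < (j : ℕ) ∨ C.r ≤ (i : ℕ)) := by
    apply Finset.filter_congr
    intro i _
    have h2 : C.ex.perm i < C.ex.perm j ↔ ((C.ex.perm i : Fin d) : ℕ) < ((C.ex.perm j : Fin d) : ℕ) := Iff.rfl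
    rw [h2]
    change ((rotPerm d C.r C.hrd.le i : Fin d) : ℕ) < ((rotPerm d C.r C.hrd.le j : Fin d) : ℕ) ↔ _
    rw [rotPerm_val, rotPerm_val]
    have := i.2
    split_ifs <;> omega
  rw [h1, Finset.sum_congr rfl (fun i _ => C.ex_len i),
    sum_filter (fun i => i < (j : ℕ) ∨ C.r ≤ i) (fun i => C.g (i + 1) - C.g i)]
  have h2 : (range d).filter (fun i => i < (j : ℕ) ∨ C.r ≤ i)
      = Finset.Ico 0 (j : ℕ) ∪ Finset.Ico C.r d := by
    ext i
    rw [mem_filter, mem_range, Finset.mem_union, Finset.mem_Ico, Finset.mem_Ico]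
    have := j.2
    omega
  rw [h2, Finset.sum_union, C.sum_Ico 0 j (Nat.zero_le _), C.sum_Ico C.r d C.hrd.le, C.zero, C.last,
    C.hr]
  · ring
  · rw [Finset.disjoint_left]
    intro i h3 h4
    rw [Finset.mem_Ico] at h3 h4
    omega

lemma ex_imageLeft_of_ge (j : Fin d) (hj : C.r ≤ (j : ℕ)) : C.ex.imageLeft j = C.g j + al - 1 := by
  unfold Exchange.imageLeft
  have hrd := C.hrd
  have h1 : (univ.filter (fun i : Fin d => C.ex.perm i < C.ex.perm j))
      = univ.filter (fun i : Fin d => C.r ≤ (i : ℕ) ∧ (i : ℕ) < (j : ℕ)) := by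
    apply Finset.filter_congr
    intro i _
    have h2 : C.ex.perm i < C.ex.perm j ↔ ((C.ex.perm i : Fin d) : ℕ) < ((C.ex.perm j : Fin d) : ℕ) := Iff.rfl
    rw [h2]
    change ((rotPerm d C.r C.hrd.le i : Fin d) : ℕ) < ((rotPerm d C.r C.hrd.le j : Fin d) : ℕ) ↔ _
    rw [rotPerm_val, rotPerm_val]
    have := i.2
    have := j.2
    split_ifs <;> omega
  rw [h1, Finset.sum_congr rfl (fun i _ => C.ex_len i),
    sum_filter (fun i => C.r ≤ i ∧ i < (j : ℕ)) (fun i => C.g (i + 1) - C.g i)]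
  have h2 : (range d).filter (fun i => C.r ≤ i ∧ i < (j : ℕ)) = Finset.Ico C.r (j : ℕ) := by
    ext i
    rw [mem_filter, mem_range, Finset.mem_Ico]
    have := j.2
    omega
  rw [h2, C.sum_Ico C.r j hj, C.hr]
  ring

lemma g_mono {i j : ℕ} (hij : i < j) (hj : j ≤ d) : C.g i < C.g j := by
  induction j with
  | zero => omega
  | succ j ih =>
    rcases Nat.lt_or_ge i j with h | h
    · exact lt_trans (ih h (by omega)) (C.mono j (by omega))
    · have : i = j := by omega
      subst this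
      exact C.mono i (by omega)

lemma exists_interval (x : ℝ) (h0 : 0 ≤ x) (h1 : x < 1) : ∃ j : Fin d, x ∈ C.ex.interval j := by
  have hd : 0 < d := by have := C.hrd; omega
  classical
  set P : ℕ → Prop := fun i => i < d ∧ C.g i ≤ x with hP
  have hP0 : P 0 := ⟨hd, by rw [C.zero]; exact h0⟩
  set m := Nat.findGreatest P d with hm
  have hPm : P m := Nat.findGreatest_spec (Nat.zero_le d) hP0
  refine ⟨⟨m, hPm.1⟩, ?_⟩
  unfold Exchange.interval
  rw [C.ex_left, C.ex_len]
  refine ⟨hPm.2, ?_⟩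
  have h2 : ¬ P (m + 1) :=
    Nat.findGreatest_is_greatest (n := d) (Nat.lt_succ_self m) (by have := hPm.1; omega)
  change x < C.g m + (C.g (m + 1) - C.g m)
  rcases Nat.lt_or_ge (m + 1) d with h3 | h3
  · have h4 : ¬ C.g (m + 1) ≤ x := fun h => h2 ⟨h3, h⟩
    push Not at h4
    linarith
  · have h4 : m + 1 = d := by have := hPm.1; omega
    rw [h4, C.last]
    linarith

lemma interval_iff (x : ℝ) (j : Fin d) : x ∈ C.ex.interval j ↔ C.g j ≤ x ∧ x < C.g (j + 1) := by
  unfold Exchange.interval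
  rw [C.ex_left, C.ex_len, Set.mem_Ico]
  constructor
  · rintro ⟨h1, h2⟩; exact ⟨h1, by linarith⟩
  · rintro ⟨h1, h2⟩; exact ⟨h1, by linarith⟩

lemma T_eq (x : ℝ) (h0 : 0 ≤ x) (h1 : x < 1) : C.ex.T x = Int.fract (x + al) := by
  obtain ⟨j, hj⟩ := C.exists_interval x h0 h1
  rw [C.ex.T_of_mem hj, C.ex_left]
  rw [C.interval_iff] at hj
  rcases Nat.lt_or_ge (j : ℕ) C.r with h | h
  · rw [C.ex_imageLeft_of_lt j h]
    have h2 : C.g (j + 1) ≤ 1 - al := by
      rw [← C.hr]
      rcases Nat.lt_or_ge ((j : ℕ) + 1) C.r with h3 | h3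
      · exact (C.g_mono h3 C.hrd.le).le
      · have : (j : ℕ) + 1 = C.r := by omega
        rw [this]
    have h3 : Int.fract (x + al) = x + al := by
      rw [Int.fract_eq_self]
      constructor
      · linarith [al_pos]
      · linarith [hj.2]
    rw [h3]; ring
  · rw [C.ex_imageLeft_of_ge j h]
    have h2 : 1 - al ≤ C.g j := by
      rw [← C.hr]
      rcases Nat.lt_or_ge C.r (j : ℕ) with h3 | h3
      · exact (C.g_mono h3 j.2.le).le
      · have : (j : ℕ) = C.r := by omega
        rw [this]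
    have h3 : Int.fract (x + al) = x + al - 1 := by
      rw [Int.fract_eq_iff]
      refine ⟨by linarith [hj.1], by linarith [al_lt_one], 1, ?_⟩
      push_cast; ring
    rw [h3]; ring

lemma iter_eq (x : ℝ) (h0 : 0 ≤ x) (h1 : x < 1) (m : ℕ) :
    C.ex.T^[m] x = Int.fract (x + m * al) := by
  induction m with
  | zero =>
    simp only [Function.iterate_zero, id_eq, Nat.cast_zero, zero_mul, add_zero]
    rw [Int.fract_eq_self.mpr ⟨h0, h1⟩]
  | succ m ih =>
    rw [Function.iterate_succ_apply', ih, C.T_eq _ (Int.fract_nonneg _) (Int.fract_lt_one _)]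
    rw [Int.fract_eq_fract]
    refine ⟨-⌊x + m * al⌋, ?_⟩
    have h2 := Int.self_sub_floor (x + m * al)
    rw [← h2]
    push_cast
    ring

lemma irreducible : C.ex.Irreducible := by
  intro k hk hkd hall
  have hr0 := C.hr0
  have hrd := C.hrd
  have h1 := hall ⟨0, by omega⟩ hk
  change ((rotPerm d C.r C.hrd.le ⟨0, _⟩ : Fin d) : ℕ) < k at h1
  rw [rotPerm_val] at h1
  simp only [hr0, if_true] at h1
  set c := d - C.r with hc
  have h2 := hall ⟨k - c, by omega⟩ (by simp only; omega)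
  change ((rotPerm d C.r C.hrd.le ⟨k - c, _⟩ : Fin d) : ℕ) < k at h2
  rw [rotPerm_val] at h2
  simp only at h2
  split_ifs at h2 <;> omega

/-- cut points in different classes modulo `Z + Z al` give Keane's condition -/
lemma keane (hcl : ∀ i j : ℕ, 0 < i → i < d → 0 < j → j < d → ∀ a b : ℤ,
    C.g i - C.g j = a + b * al → i = j) : C.ex.Keane := by
  intro i j hi hj m n h
  have hd : 0 < d := by have := C.hrd; omega
  have hg0 : ∀ i : Fin d, 0 ≤ C.g i := by
    intro i
    rcases Nat.eq_zero_or_pos (i : ℕ) with h | h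
    · rw [h, C.zero]
    · have := C.g_mono h i.2.le
      rw [C.zero] at this
      exact this.le
  have hg1 : ∀ i : Fin d, C.g i < 1 := by
    intro i
    have := C.g_mono i.2 le_rfl
    rwa [C.last] at this
  rw [C.ex_left, C.ex_left, C.iter_eq _ (hg0 i) (hg1 i), C.iter_eq _ (hg0 j) (hg1 j),
    Int.fract_eq_fract] at h
  obtain ⟨z, hz⟩ := h
  have h1 : C.g i - C.g j = ((z : ℤ) : ℝ) + (((n : ℤ) - (m : ℤ) : ℤ) : ℝ) * al := by
    push_cast
    linarith
  have hij : (i : ℕ) = (j : ℕ) := hcl i j hi i.2 hj j.2 _ _ h1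
  have hij' : i = j := Fin.ext hij
  refine ⟨hij', ?_⟩
  rw [hij'] at h1
  have h2 : re z ((n : ℤ) - (m : ℤ)) = 0 := by
    unfold re
    rw [← h1, sub_self]
  have h3 := (re_eq_zero h2).2
  omega

end Cuts

end Pool.Agent.Helper44.IET
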