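import Pool.Agent.Helper44.IETPad
import Pool.Agent.Helper44.IETIndex
import Pool.Agent.Helper44.IETLower

/-!
Upper bound: the golden rotation with cut points in a superlattice of `Z[golden ratio]`.
-/

open Finset

namespace Pool.Agent.Helper44.IET

lemma re_inj {a b a' b' : ℤ} (h : re a b = re a' b') : a = a' ∧ b = b' := by
  have h1 : re (a - a') (b - b') = 0 := by
    unfold re at h ⊢
    push_cast
    linarith
  have h2 := re_eq_zero h1
  omega

lemma zero_mem_reps (c d : ℤ) : (0 : Fin 2 → ℤ) ∈ reps c d := by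
  unfold reps pos tim re cj
  simp

lemma pos_zero (c d : ℤ) : pos c d 0 = 0 := by
  unfold pos re; simp

lemma reps_class (c d : ℤ) (hr : re c d ≠ 0) (hc : cj c d ≠ 0) (v v' : Fin 2 → ℤ)
    (hv : v ∈ reps c d) (hv' : v' ∈ reps c d) (a b : ℤ) (h : pos c d v - pos c d v' = re a b) :
    v = v' := by
  apply reps_inj c d hr hc v v' hv hv' ![a, b]
  have h1 : pos c d v = pos c d (v' + mulMap c d ![a, b]) := by
    rw [pos_add_mul c d hr]
    simp only [Matrix.cons_val_zero, Matrix.cons_val_one]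
    linarith
  unfold pos at h1
  have h2 : re (v 0) (v 1)
      = re ((v' + mulMap c d ![a, b]) 0) ((v' + mulMap c d ![a, b]) 1) := by
    field_simp at h1
    exact h1
  obtain ⟨h3, h4⟩ := re_inj h2
  funext i
  fin_cases i
  · exact h3
  · exact h4

lemma exists_cuts (c d : ℤ) (hr : re c d ≠ 0) (hc : cj c d ≠ 0) (D : ℕ)
    (hN : |re c d * cj c d| ≤ D) :
    ∃ C : Cuts (D + 1), C.ex.Keane ∧
      ∀ v ∈ reps c d, pos c d v = 0 ∨ ∃ i, 0 < i ∧ i < D + 1 ∧ C.g i = pos c d v := by
  obtain ⟨hfin, hcard⟩ := reps_card c d hr hc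
  set R := hfin.toFinset with hR
  have hRmem : ∀ v, v ∈ R ↔ v ∈ reps c d := fun v => hfin.mem_toFinset
  have hRcard : R.card ≤ D := by
    have h1 : (reps c d).ncard = R.card := Set.ncard_eq_toFinset_card _ hfin
    rw [h1] at hcard
    exact_mod_cast hcard.trans hN
  set F := insert (1 - al) ((R.image (pos c d)).erase 0) with hF
  have h0mem : (0 : ℝ) ∈ R.image (pos c d) := by
    rw [Finset.mem_image]
    exact ⟨0, (hRmem 0).mpr (zero_mem_reps c d), pos_zero c d⟩
  have hFcard : F.card ≤ D := by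
    have h1 : F.card ≤ ((R.image (pos c d)).erase 0).card + 1 :=
      Finset.card_insert_le (1 - al) ((R.image (pos c d)).erase 0)
    have h2 := Finset.card_erase_of_mem h0mem
    have h3 : (R.image (pos c d)).card ≤ R.card := Finset.card_image_le
    have h4 : 0 < (R.image (pos c d)).card := Finset.card_pos.mpr ⟨0, h0mem⟩
    omega
  have hF01 : ∀ x ∈ F, 0 < x ∧ x < 1 := by
    intro x hx
    rw [hF, Finset.mem_insert, Finset.mem_erase, Finset.mem_image] at hx
    rcases hx with rfl | ⟨h0, v, hv, rfl⟩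
    · exact ⟨by linarith [al_lt_one], by linarith [al_pos]⟩
    · have := (hRmem v).mp hv
      exact ⟨lt_of_le_of_ne this.1 (Ne.symm h0), this.2.1⟩
  have hcl : ∀ v ∈ reps c d, ∀ a b : ℤ, pos c d v = re a b → pos c d v = 0 := by
    intro v hv a b h
    have h1 := reps_class c d hr hc v 0 hv (zero_mem_reps c d) a b (by rw [pos_zero, sub_zero, h])
    rw [h1, pos_zero]
  have hFi : Ineq F := by
    intro x hx y hy a b hab
    rw [hF, Finset.mem_insert, Finset.mem_erase, Finset.mem_image] at hx hy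
    rcases hx with rfl | ⟨hx0, v, hv, rfl⟩
    · rcases hy with rfl | ⟨hy0, v', hv', rfl⟩
      · rfl
      · exfalso
        apply hy0
        apply hcl v' ((hRmem v').mp hv') (1 - a) (-1 - b)
        unfold re at hab ⊢
        push_cast
        linarith
    · rcases hy with rfl | ⟨hy0, v', hv', rfl⟩
      · exfalso
        apply hx0
        apply hcl v ((hRmem v).mp hv) (1 + a) (-1 + b)
        unfold re at hab ⊢
        push_cast
        linarith
      · rw [reps_class c d hr hc v v' ((hRmem v).mp hv) ((hRmem v').mp hv') a b hab]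
  obtain ⟨K, hK1, hK2, hK3, hK4⟩ := pad D (D - F.card) F hF01 hFi (by omega)
  subst hK2
  obtain ⟨C, hC1, hC2⟩ := cuts_of_finset K hK3 (hK1 (Finset.mem_insert_self _ _))
  refine ⟨C, ?_, ?_⟩
  · apply C.keane
    intro i j hi hid hj hjd a b h
    have h1 := hK4 _ (hC2 i hi hid) _ (hC2 j hj hjd) a b h
    rcases lt_trichotomy i j with h2 | h2 | h2
    · have := C.g_mono h2 hjd.le; linarith
    · exact h2
    · have := C.g_mono h2 hid.le; linarith
  · intro v hv
    by_cases h0 : pos c d v = 0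
    · left; exact h0
    · right
      apply hC1
      apply hK1
      rw [hF, Finset.mem_insert]
      right
      rw [Finset.mem_erase, Finset.mem_image]
      exact ⟨h0, v, (hRmem v).mpr hv, rfl⟩

/-- the main estimate for repetitions with `m` extra letters -/
lemma power_bound (c d : ℤ) (hr : 1 ≤ re c d) (hc : cj c d ≠ 0) (D : ℕ) (C : Cuts (D + 1))
    (hC : ∀ v ∈ reps c d, pos c d v = 0 ∨ ∃ i, 0 < i ∧ i < D + 1 ∧ C.g i = pos c d v)
    (u : ℕ → Fin (D + 1)) (x0 : ℝ) (hx0 : x0 ∈ Set.Ico (0 : ℝ) 1)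
    (hu : ∀ n, C.ex.T^[n] x0 ∈ C.ex.interval (u n)) (i p m : ℕ) (hp : 0 < p)
    (hpow : HasPower u i p (p + m)) :
    ∃ (s : ℕ) (δ : ℝ), 1 ≤ s ∧ 0 < δ ∧ δ < al ^ (s - 1) ∧ ph ^ s - δ ≤ Real.sqrt 5 * p ∧
      Real.sqrt 5 * m ≤ δ + ph ^ (s + 2) / |cj c d| := by
  have hiter : ∀ n, C.ex.T^[n] x0 ∈ Set.Ico (0 : ℝ) 1 := by
    intro n
    rw [C.iter_eq x0 hx0.1 hx0.2]
    exact ⟨Int.fract_nonneg _, Int.fract_lt_one _⟩
  set x := C.ex.T^[i] x0 with hx
  set y := C.ex.T^[i + p] x0 with hy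
  have hx01 := hiter i
  have hy01 := hiter (i + p)
  rw [← hx] at hx01
  rw [← hy] at hy01
  -- the displacement
  have hyx : y = Int.fract (x + p * al) := by
    rw [hy, add_comm i p, Function.iterate_add_apply, ← hx, C.iter_eq x hx01.1 hx01.2]
  have hdisp : y - x = re (-⌊x + p * al⌋) p := by
    rw [hyx, Int.fract]
    unfold re
    push_cast
    ring
  set b0 : ℤ := -⌊x + p * al⌋ with hb0
  have hne : re b0 (p : ℤ) ≠ 0 := by
    intro h
    have := (re_eq_zero h).2
    omega
  set δ := |y - x| with hδ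
  have hδpos : 0 < δ := abs_pos.mpr (by rw [hdisp]; exact hne)
  have hδ1 : δ < 1 := by
    rw [hδ, abs_lt]
    constructor
    · linarith [hx01.2, hy01.1]
    · linarith [hx01.1, hy01.2]
  -- scale
  have hex : ∃ n : ℕ, al ^ n ≤ δ := by
    obtain ⟨n, hn⟩ := exists_pow_lt_of_lt_one hδpos al_lt_one
    exact ⟨n, hn.le⟩
  classical
  set s := Nat.find hex with hs
  have hs1 : al ^ s ≤ δ := Nat.find_spec hex
  have hs0 : 1 ≤ s := by
    by_contra h
    push Not at h
    have : s = 0 := by omega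
    rw [this, pow_zero] at hs1
    linarith
  have hs2 : δ < al ^ (s - 1) := by
    have := Nat.find_min hex (m := s - 1) (by omega)
    push Not at this
    exact this
  -- lower bound for the period
  have hper : ph ^ s - δ ≤ Real.sqrt 5 * p := by
    have h1 := sep (s - 1) b0 p hne (by rw [← hdisp]; exact hs2)
    have h2 : s - 1 + 1 = s := by omega
    rw [h2, cj_eq, ← hdisp] at h1
    have h3 : |(y - x) - ((p : ℤ) : ℝ) * Real.sqrt 5| ≤ δ + Real.sqrt 5 * p := by
      refine (abs_sub _ _).trans ?_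
      rw [← hδ]
      have h4 : |((p : ℤ) : ℝ) * Real.sqrt 5| = Real.sqrt 5 * p := by
        rw [abs_of_nonneg (by positivity)]
        push_cast
        ring
      rw [h4]
    linarith
  refine ⟨s, δ, hs0, hδpos, hs2, hper, ?_⟩
  -- upper bound for the length
  by_contra hcon
  push Not at hcon
  set z := min x y with hz
  have hzδ : z + δ = max x y := by
    rw [hz, hδ]
    rcases le_total x y with h | h
    · rw [min_eq_left h, max_eq_right h, abs_of_nonneg (by linarith)]; ring
    · rw [min_eq_right h, max_eq_left h, abs_of_nonpos (by linarith)]; ring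
  have hagree : ∀ j < m, u (i + j) = u (i + p + j) := by
    intro j hj
    have := hpow j (by omega)
    rw [this]
    congr 1
    omega
  have hxj : ∀ j < m, C.ex.T^[j] x ∈ C.ex.interval (u (i + j)) := by
    intro j _
    rw [hx, ← Function.iterate_add_apply, add_comm j i]
    exact hu (i + j)
  have hyj : ∀ j < m, C.ex.T^[j] y ∈ C.ex.interval (u (i + j)) := by
    intro j hj
    rw [hy, ← Function.iterate_add_apply, add_comm j (i + p), hagree j hj]
    exact hu (i + p + j)
  have hzj : ∀ j < m, C.ex.T^[j] z ∈ C.ex.interval (u (i + j)) := by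
    intro j hj
    rcases le_total x y with h | h
    · rw [hz, min_eq_left h]; exact hxj j hj
    · rw [hz, min_eq_right h]; exact hyj j hj
  have hz'j : ∀ j < m, C.ex.T^[j] (z + δ) ∈ C.ex.interval (u (i + j)) := by
    intro j hj
    rw [hzδ]
    rcases le_total x y with h | h
    · rw [max_eq_right h]; exact hyj j hj
    · rw [max_eq_left h]; exact hxj j hj
  have hz0 : 0 ≤ z := le_min hx01.1 hy01.1
  have hz1 : z + δ < 1 := by rw [hzδ]; exact max_lt hx01.2 hy01.2
  have hre : 0 < re c d := by linarith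
  have hcj : 0 < |cj c d| := abs_pos.mpr hc
  have hs5 := sqrt5_gt
  -- a lattice point in the box
  set A := z + δ - Real.sqrt 5 with hA
  set B := z + Real.sqrt 5 * (m - 1) with hB
  obtain ⟨v0, v1, h1, h2, h3, h4⟩ := hit s (re c d * z)
    ((cj c d * (A + B) - ph ^ (s + 2)) / 2)
  set v : Fin 2 → ℤ := ![v0, v1] with hv
  have hv0 : v 0 = v0 := rfl
  have hv1 : v 1 = v1 := rfl
  set q := pos c d v with hq
  have hqdef : q = re v0 v1 / re c d := rfl
  have hqz : z < q := by
    rw [hqdef, lt_div_iff₀ hre]; linarith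
  have hqz' : q ≤ z + δ := by
    rw [hqdef, div_le_iff₀ hre]
    have h5 : al ^ s ≤ re c d * δ := by nlinarith
    nlinarith
  have hq' : |cj v0 v1 / cj c d - (A + B) / 2| < (B - A) / 2 := by
    have h5 : |cj v0 v1 - cj c d * ((A + B) / 2)| ≤ ph ^ (s + 2) / 2 := by
      rw [abs_le]
      constructor <;> linarith
    have h6 : ph ^ (s + 2) < |cj c d| * (B - A) := by
      have h7 : ph ^ (s + 2) / |cj c d| < B - A := by
        rw [hA, hB]; linarith
      rw [div_lt_iff₀ hcj] at h7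
      linarith
    have h7 : cj v0 v1 / cj c d - (A + B) / 2 = (cj v0 v1 - cj c d * ((A + B) / 2)) / cj c d := by
      field_simp
    rw [h7, abs_div, div_lt_iff₀ hcj]
    linarith
  rw [abs_lt] at hq'
  set τ := tim c d v with hτ
  have hτdef : τ = (cj v0 v1 / cj c d - q) / Real.sqrt 5 := rfl
  have hs5pos : 0 < Real.sqrt 5 := by linarith
  have hτ1 : -1 < τ := by
    rw [hτdef, lt_div_iff₀ hs5pos]
    have h5 : A < cj v0 v1 / cj c d := by linarith [hq'.1]
    rw [hA] at h5
    linarith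
  have hτ2 : τ < m - 1 := by
    rw [hτdef, div_lt_iff₀ hs5pos]
    have h5 : cj v0 v1 / cj c d < B := by linarith [hq'.2]
    rw [hB] at h5
    linarith
  -- the time
  have hj0 : 0 ≤ ⌈τ⌉ := by
    have h5 : -1 < ⌈τ⌉ := by
      rw [Int.lt_ceil]
      push_cast
      exact hτ1
    omega
  obtain ⟨j, hj⟩ := Int.eq_ofNat_of_zero_le hj0
  have hjm : j < m := by
    have h5 : ⌈τ⌉ ≤ (m : ℤ) - 1 := by
      rw [Int.ceil_le]
      push_cast
      exact hτ2.le
    rw [hj] at h5
    omega
  have hjτ1 : τ ≤ j := by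
    have := Int.le_ceil τ
    rw [hj] at this
    exact_mod_cast this
  have hjτ2 : (j : ℝ) < τ + 1 := by
    have := Int.ceil_lt_add_one τ
    rw [hj] at this
    exact_mod_cast this
  -- the point at time j
  have hq01 : 0 ≤ q ∧ q < 1 := ⟨by linarith, by linarith⟩
  have hTq := C.iter_eq q hq01.1 hq01.2 j
  set ℓ := ⌊q + j * al⌋ with hℓ
  set w : Fin 2 → ℤ := ![-ℓ, (j : ℤ)] with hw
  have hw0 : w 0 = -ℓ := rfl
  have hw1 : w 1 = (j : ℤ) := rfl
  set v' := v + mulMap c d w with hv'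
  have hpos' : pos c d v' = Int.fract (q + j * al) := by
    rw [hv', pos_add_mul c d hre.ne', ← hq, hw0, hw1, Int.fract]
    unfold re
    push_cast
    ring
  have htim' : tim c d v' = τ - j := by
    rw [hv', tim_add_mul c d hre.ne' hc, ← hτ, hw1]
    push_cast
    ring
  have hmem : v' ∈ reps c d := by
    refine ⟨?_, ?_, ?_, ?_⟩
    · rw [hpos']; exact Int.fract_nonneg _
    · rw [hpos']; exact Int.fract_lt_one _
    · rw [htim']; linarith
    · rw [htim']; linarith
  have hqj := C.ex.iter_between (fun j => u (i + j)) z (z + δ) q hqz.le hqz' m hzj hz'j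
  have ht1 := C.ex.iter_translation (fun j => u (i + j)) z q j
    (fun t ht => hzj t (by omega)) (fun t ht => hqj t (by omega))
  have hcut : C.ex.T^[j] z < pos c d v' := by
    rw [hpos', ← hTq]
    linarith
  have hI1 := hzj j hjm
  have hI2 := hqj j hjm
  rw [C.interval_iff] at hI1 hI2
  have hg0 : 0 ≤ C.g (u (i + j)) := by
    rcases Nat.eq_zero_or_pos (u (i + j) : ℕ) with h | h
    · rw [h, C.zero]
    · have := C.g_mono h (u (i + j)).2.le
      rw [C.zero] at this
      exact this.le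
  rcases hC v' hmem with h0 | ⟨i', hi0, hi1, hi⟩
  · rw [h0] at hcut
    linarith [hI1.1]
  · rw [← hi] at hcut
    have h5 : C.ex.T^[j] q = C.g i' := by rw [hTq, ← hpos', hi]
    rw [h5] at hI2
    rcases lt_trichotomy (u (i + j) : ℕ) i' with h | h | h
    · rcases Nat.lt_or_ge ((u (i + j) : ℕ) + 1) i' with h6 | h6
      · have := C.g_mono h6 hi1.le
        linarith [hI2.2]
      · have h7 : (u (i + j) : ℕ) + 1 = i' := by omega
        rw [h7] at hI2
        exact lt_irrefl _ hI2.2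
    · rw [h] at hI1
      linarith [hI1.1]
    · have := C.g_mono h (u (i + j)).2.le
      linarith [hI2.1]

/-- numerical consequence of the main estimate -/
lemma length_le (η δ : ℝ) (s m p : ℕ) (hη : 0 < η) (hm : 1 ≤ m) (hs : 1 ≤ s) (hδ : 0 < δ)
    (hδs : δ < al ^ (s - 1)) (h1 : ph ^ s - δ ≤ Real.sqrt 5 * p)
    (h2 : Real.sqrt 5 * m ≤ δ + ph ^ (s + 2) / η) :
    (m : ℝ) * η ≤ ph ^ 2 * p + 2.71 ∧ 0.47 * η - 1 ≤ 2.237 * p := by
  have hs5 := sqrt5_gt
  have hs5' := sqrt5_lt
  have hph := ph_pos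
  have hph1 := ph_gt
  have hph2 := ph_lt
  have hsq : ph ^ 2 = ph + 1 := by
    have := al_sq
    rw [ph_eq]; linear_combination this
  have hpow : ph ^ (s + 2) = ph ^ 2 * ph ^ s := by ring
  have hδ1 : δ < 1 := lt_of_lt_of_le hδs (pow_le_one₀ al_pos.le al_lt_one.le)
  have hm1 : (1 : ℝ) ≤ m := by exact_mod_cast hm
  have hA : Real.sqrt 5 * (m * η) ≤ δ * η + ph ^ (s + 2) := by
    have h3 := mul_le_mul_of_nonneg_right h2 hη.le
    have h4 : (δ + ph ^ (s + 2) / η) * η = δ * η + ph ^ (s + 2) := by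
      field_simp
    rw [h4] at h3
    linarith
  have hB : (Real.sqrt 5 - 1) * η ≤ ph ^ (s + 2) := by
    have h5 : η ≤ m * η := by nlinarith
    nlinarith
  have hC : δ * ph ^ (s + 2) ≤ ph ^ 3 := by
    have h3 : al ^ (s - 1) * ph ^ (s + 2) = ph ^ 3 := by
      have h4 : s + 2 = (s - 1) + 3 := by omega
      rw [h4, pow_add, ← mul_assoc, al_pow_mul_ph_pow, one_mul]
    rw [← h3]
    exact mul_le_mul_of_nonneg_right hδs.le (by positivity)
  have hph3 : ph ^ 3 = 2 * ph + 1 := by
    have : ph ^ 3 = ph ^ 2 * ph := by ring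
    rw [this, hsq]; nlinarith
  have hD : δ * η ≤ 3.43 := by
    have h3 : (Real.sqrt 5 - 1) * (δ * η) ≤ 2 * ph + 1 := by
      rw [← hph3]
      refine le_trans ?_ hC
      have := mul_le_mul_of_nonneg_left hB hδ.le
      linarith
    have h4 : 0 < δ * η := by positivity
    nlinarith
  constructor
  · have h3 : ph ^ (s + 2) ≤ ph ^ 2 * (Real.sqrt 5 * p + δ) := by
      rw [hpow]
      apply mul_le_mul_of_nonneg_left _ (by positivity)
      linarith
    have h4 : Real.sqrt 5 * (m * η) ≤ Real.sqrt 5 * (ph ^ 2 * p) + (δ * η + ph ^ 2 * δ) := by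
      nlinarith
    have h5 : δ * η + ph ^ 2 * δ ≤ 6.05 := by
      rw [hsq]
      nlinarith
    have h6 : Real.sqrt 5 * (m * η) ≤ Real.sqrt 5 * (ph ^ 2 * p + 2.71) := by
      nlinarith
    exact le_of_mul_le_mul_left h6 (by linarith)
  · have h3 : (Real.sqrt 5 - 1) * η ≤ (ph + 1) * ph ^ s := by
      rw [← hsq, ← hpow]; exact hB
    have h4 : 0 < ph ^ s := by positivity
    have h5 : 0.47 * η ≤ ph ^ s := by nlinarith
    have h6 : Real.sqrt 5 * p ≤ 2.237 * p := by
      apply mul_le_mul_of_nonneg_right hs5'.le (Nat.cast_nonneg p)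
    linarith

/-- existence of good exchanges -/
lemma exists_good (c d : ℤ) (hr : 1 ≤ re c d) (hc : cj c d ≠ 0) (D : ℕ)
    (hN : |re c d * cj c d| ≤ D) (B : ℝ) (hB : 0 ≤ B)
    (hBB : ∀ p m : ℕ, 0 < p → 1 ≤ m → (m : ℝ) * |cj c d| ≤ ph ^ 2 * p + 2.71 →
      0.47 * |cj c d| - 1 ≤ 2.237 * p → (m : ℝ) ≤ B * p) :
    RT (D + 1) ≤ ((1 + B : ℝ) : EReal) := by
  obtain ⟨C, hK, hC⟩ := exists_cuts c d (by linarith) hc D hN
  have hx0 : (0 : ℝ) ∈ Set.Ico (0 : ℝ) 1 := ⟨le_rfl, by norm_num⟩
  have hiter : ∀ n, ∃ j, C.ex.T^[n] 0 ∈ C.ex.interval j := by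
    intro n
    rw [C.iter_eq 0 hx0.1 hx0.2]
    exact C.exists_interval _ (Int.fract_nonneg _) (Int.fract_lt_one _)
  choose u hu using hiter
  have hmem : u ∈ Codings (D + 1) := ⟨C.ex, C.irreducible, hK, 0, hx0, hu⟩
  refine le_trans (iInf₂_le u hmem) ?_
  unfold critExp
  refine iSup_le fun i => iSup_le fun p => iSup_le fun l => iSup_le fun hp => iSup_le fun hpow => ?_
  rw [EReal.coe_le_coe_iff]
  have hp0 : (0 : ℝ) < p := by exact_mod_cast hp
  rw [div_le_iff₀ hp0]
  rcases Nat.lt_or_ge p l with h | h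
  · obtain ⟨m, rfl⟩ := Nat.exists_eq_add_of_lt h
    have hpow' : HasPower u i p (p + (m + 1)) := hpow
    obtain ⟨s, δ, h1, h2, h3, h4, h5⟩ := power_bound c d hr hc D C hC u 0 hx0 hu i p (m + 1) hp hpow'
    obtain ⟨h6, h7⟩ := length_le |cj c d| δ s (m + 1) p (abs_pos.mpr hc) (by omega) h1 h2 h3 h4 h5
    have h8 := hBB p (m + 1) hp (by omega) h6 h7
    push_cast at h8 ⊢
    linarith
  · have h1 : (l : ℝ) ≤ p := by exact_mod_cast h
    nlinarith

lemma ph_sq : ph ^ 2 = ph + 1 := by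
  have := al_sq
  rw [ph_eq]; linear_combination this

/-- a first bound, from the superlattice of index `n ^ 2` -/
theorem upper_n (n D : ℕ) (hn1 : 1 ≤ n) (hn2 : n * n ≤ D) :
    RT (D + 1) ≤ ((1 + 5.33 * ph / ((n : ℝ) * n) : ℝ) : EReal) := by
  have hnr : (1 : ℝ) ≤ n := by exact_mod_cast hn1
  have hph := one_lt_ph
  obtain ⟨j, hj1, hj2⟩ := exists_nat_pow_near hnr hph
  obtain ⟨c, d, hc, hd⟩ := scale_down_pow j n 0
  have hre0 : re (n : ℤ) 0 = n := by unfold re; push_cast; ring
  have hcj0 : cj (n : ℤ) 0 = n := by unfold cj; push_cast; ring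
  rw [hre0] at hc
  rw [hcj0] at hd
  have hpj : 0 < ph ^ j := pow_pos ph_pos j
  have haj : 0 < al ^ j := pow_pos al_pos j
  have hr1 : 1 ≤ re c d := by
    rw [hc, ← al_pow_mul_ph_pow j]
    exact mul_le_mul_of_nonneg_left hj1 haj.le
  have habs : |cj c d| = ph ^ j * n := by
    rw [hd, abs_mul, abs_pow, abs_neg, abs_of_pos ph_pos, abs_of_nonneg (by positivity)]
  have hcne : cj c d ≠ 0 := by
    intro h
    rw [h, abs_zero] at habs
    have : 0 < ph ^ j * n := by positivity
    linarith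
  have hN : |re c d * cj c d| ≤ D := by
    rw [abs_mul, habs, abs_of_nonneg (by linarith), hc]
    have h1 : al ^ j * (n : ℝ) * (ph ^ j * n) = n * n := by
      have := al_pow_mul_ph_pow j
      linear_combination (n : ℝ) * n * this
    rw [h1]
    exact_mod_cast hn2
  have hη : (n : ℝ) * n ≤ ph * |cj c d| := by
    rw [habs]
    have h2 : (n : ℝ) * n ≤ ph ^ (j + 1) * n := by
      apply mul_le_mul_of_nonneg_right hj2.le (by positivity)
    calc (n : ℝ) * n ≤ ph ^ (j + 1) * n := h2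
      _ = ph * (ph ^ j * n) := by ring
  apply exists_good c d hr1 hcne D hN _ (by have := ph_pos; positivity)
  intro p m hp hm h1 _
  have hp1 : (1 : ℝ) ≤ p := by exact_mod_cast hp
  have hphl := ph_lt
  have hphg := ph_gt
  have hηpos : 0 < |cj c d| := abs_pos.mpr hcne
  have h2 : (m : ℝ) * |cj c d| ≤ 5.33 * p := by
    rw [ph_sq] at h1
    nlinarith
  have hm0 : (0 : ℝ) ≤ m := Nat.cast_nonneg m
  have h3 : (m : ℝ) * (n * n) ≤ 5.33 * ph * p := by
    calc (m : ℝ) * (n * n) ≤ m * (ph * |cj c d|) := mul_le_mul_of_nonneg_left hη hm0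
      _ = ph * (m * |cj c d|) := by ring
      _ ≤ ph * (5.33 * p) := mul_le_mul_of_nonneg_left h2 (by positivity)
      _ = 5.33 * ph * p := by ring
  rw [div_mul_eq_mul_div, le_div_iff₀ (by positivity)]
  exact h3

/-- the bound for large `D` -/
theorem upper_large (D : ℕ) (hD : 93 ≤ D) :
    RT (D + 1) ≤ ((1 + (ph ^ 2 + 100 / Real.sqrt D) / (D : ℝ) : ℝ) : EReal) := by
  have hDr : (93 : ℝ) ≤ D := by exact_mod_cast hD
  have hDpos : (0 : ℝ) < D := by linarith
  set t := Real.sqrt D with ht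
  have htt : t * t = D := Real.mul_self_sqrt hDpos.le
  have ht9 : 9.64 < t := by
    rw [ht]
    apply Real.lt_sqrt_of_sq_lt
    norm_num
    linarith
  have htpos : 0 < t := by linarith
  have hphl := ph_lt
  have hphg := ph_gt
  have hph0 := ph_pos
  obtain ⟨k, hk1, hk2⟩ := exists_nat_pow_near (show (1 : ℝ) ≤ t by linarith) one_lt_ph
  have hpk : 0 < ph ^ k := pow_pos ph_pos k
  have hak : 0 < al ^ k := pow_pos al_pos k
  have hek := al_pow_mul_ph_pow k
  set e := al ^ k with he
  have hPdef : ph ^ (k + 2) = ph ^ 2 * ph ^ k := by ring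
  set P := ph ^ (k + 2) with hP
  have hPle : P ≤ (ph + 1) * t := by
    rw [hPdef, ph_sq]
    exact mul_le_mul_of_nonneg_left hk1 (by linarith)
  have hPpos : 0 < P := pow_pos ph_pos _
  have het : e * t ≤ ph := by
    have h1 : e * t ≤ e * ph ^ (k + 1) := mul_le_mul_of_nonneg_left hk2.le hak.le
    have h2 : e * ph ^ (k + 1) = ph := by
      have : e * ph ^ (k + 1) = (e * ph ^ k) * ph := by ring
      rw [this, hek, one_mul]
    linarith
  have heD : e * D ≤ ph * t := by
    rw [← htt]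
    have := mul_le_mul_of_nonneg_right het htpos.le
    linarith
  obtain ⟨c, d, h1, h2, h3, h4⟩ := hit k 1 (D / (1 + e) - P)
  have hlow : D * (1 - e) - P ≤ cj c d := by
    refine le_trans ?_ h3
    have : (D : ℝ) * (1 - e) ≤ D / (1 + e) := by
      rw [le_div_iff₀ (by linarith)]
      nlinarith [mul_pos hDpos (mul_pos hak hak)]
    linarith
  have hlow2 : (D : ℝ) - 4.238 * t ≤ cj c d := by
    have e1 : ph * t ≤ 1.6185 * t := mul_le_mul_of_nonneg_right hphl.le htpos.le
    have e2 : (D : ℝ) * (1 - e) = D - e * D := by ring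
    have e3 : (ph + 1) * t = ph * t + t := by ring
    rw [e2] at hlow
    rw [e3] at hPle
    linarith
  have hlow3 : 0.56 * (D : ℝ) ≤ cj c d := by
    refine le_trans ?_ hlow2
    have e1 : 9.64 * t ≤ t * t := mul_le_mul_of_nonneg_right ht9.le htpos.le
    rw [htt] at e1
    linarith
  have hhigh : cj c d ≤ D / (1 + e) := by linarith
  have hcpos : 0 < cj c d := by linarith
  have hN : |re c d * cj c d| ≤ D := by
    rw [abs_of_nonneg (mul_nonneg (by linarith) hcpos.le)]
    have h5 : cj c d * (1 + e) ≤ D := by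
      rwa [le_div_iff₀ (by linarith)] at hhigh
    calc re c d * cj c d ≤ (1 + e) * cj c d := mul_le_mul_of_nonneg_right h2 hcpos.le
      _ = cj c d * (1 + e) := by ring
      _ ≤ D := h5
  apply exists_good c d h1.le hcpos.ne' D hN ((ph ^ 2 + 100 / t) / D) (by positivity)
  rw [abs_of_pos hcpos]
  intro p m hp hm h5 h6
  have hp0 : (0 : ℝ) < p := by exact_mod_cast hp
  have hm0 : (0 : ℝ) ≤ m := Nat.cast_nonneg m
  have hpD : 0.11 * (D : ℝ) ≤ p := by
    linarith
  have h100 : 0 < 100 / t := by positivity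
  -- `2.71 ≤ (3 / t) * p`
  have h7 : 2.71 ≤ 3 / t * p := by
    rw [div_mul_eq_mul_div, le_div_iff₀ htpos]
    have e1 : 9.64 * t ≤ t * t := mul_le_mul_of_nonneg_right ht9.le htpos.le
    rw [htt] at e1
    linarith
  have h8 : (m : ℝ) * cj c d ≤ (ph ^ 2 + 3 / t) * p := by linarith
  have h9 : (ph ^ 2 + 3 / t) * D ≤ (ph ^ 2 + 100 / t) * cj c d := by
    refine le_trans ?_ (mul_le_mul_of_nonneg_left hlow2 (by positivity))
    have e1 : (ph ^ 2 + 3 / t) * D = ph ^ 2 * D + 3 * t := by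
      rw [← htt]; field_simp
    have e2 : (ph ^ 2 + 100 / t) * (D - 4.238 * t)
        = ph ^ 2 * D + 100 * t - 4.238 * ph ^ 2 * t - 423.8 := by
      rw [← htt]; field_simp; ring
    rw [e1, e2, ph_sq]
    have e3 : ph * t ≤ 1.6185 * t := mul_le_mul_of_nonneg_right hphl.le htpos.le
    have e4 : 4.238 * (ph + 1) * t = 4.238 * (ph * t) + 4.238 * t := by ring
    rw [e4]
    linarith
  rw [div_mul_eq_mul_div, le_div_iff₀ hDpos]
  have h10 : (m : ℝ) * D * cj c d ≤ ((ph ^ 2 + 100 / t) * p) * cj c d := by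
    calc (m : ℝ) * D * cj c d = (m * cj c d) * D := by ring
      _ ≤ ((ph ^ 2 + 3 / t) * p) * D := mul_le_mul_of_nonneg_right h8 hDpos.le
      _ = p * ((ph ^ 2 + 3 / t) * D) := by ring
      _ ≤ p * ((ph ^ 2 + 100 / t) * cj c d) := mul_le_mul_of_nonneg_left h9 hp0.le
      _ = ((ph ^ 2 + 100 / t) * p) * cj c d := by ring
  exact le_of_mul_le_mul_right h10 hcpos

/-- upper bound for all `d` -/
theorem upper_all (D : ℕ) (hD : 1 ≤ D) :
    RT (D + 1) ≤ ((1 + (ph ^ 2 + 100 / Real.sqrt D) / (D : ℝ) : ℝ) : EReal) := by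
  rcases Nat.lt_or_ge D 93 with h93 | h93
  · set n := Nat.sqrt D with hn
    have hn1 : 1 ≤ n := by
      rw [hn, Nat.le_sqrt]; simpa using hD
    have hn2 : n * n ≤ D := Nat.sqrt_le D
    have hn3 : D ≤ n * n + n + n := Nat.sqrt_le_add D
    refine le_trans (upper_n n D hn1 hn2) ?_
    rw [EReal.coe_le_coe_iff]
    have hphl := ph_lt
    have hphg := ph_gt
    have hnr : (1 : ℝ) ≤ n := by exact_mod_cast hn1
    have hDpos : (0 : ℝ) < D := by exact_mod_cast hD
    have hsD : 0 < Real.sqrt D := Real.sqrt_pos.mpr hDpos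
    have key : ∀ K M : ℝ, 0 < K → (D : ℝ) ≤ K * (n * n) → Real.sqrt D ≤ M →
        5.33 * ph * K ≤ ph ^ 2 + 100 / M → 0 < M →
        1 + 5.33 * ph / ((n : ℝ) * n) ≤ 1 + (ph ^ 2 + 100 / Real.sqrt D) / (D : ℝ) := by
      intro K M hK h1 h2 h3 hM
      have h4 : 100 / M ≤ 100 / Real.sqrt D := by
        apply div_le_div_of_nonneg_left (by norm_num) hsD h2
      have h5 : 5.33 * ph / ((n : ℝ) * n) ≤ (5.33 * ph * K) / D := by
        rw [div_le_div_iff₀ (by positivity) hDpos]
        have := mul_le_mul_of_nonneg_left h1 (show 0 ≤ 5.33 * ph by linarith)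
        nlinarith
      have h6 : (5.33 * ph * K) / D ≤ (ph ^ 2 + 100 / Real.sqrt D) / (D : ℝ) :=
        div_le_div_of_nonneg_right (by linarith) hDpos.le
      linarith
    rcases Nat.lt_or_ge D 19 with h19 | h19
    · apply key 3 4.25 (by norm_num) _ _ _ (by norm_num)
      · have : D ≤ 3 * (n * n) := by nlinarith
        exact_mod_cast this
      · rw [Real.sqrt_le_left (by norm_num)]
        have : (D : ℝ) ≤ 18 := by exact_mod_cast (by omega : D ≤ 18)
        norm_num
        linarith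
      · rw [ph_sq]; norm_num; linarith
    · apply key 1.5 9.6 (by norm_num) _ _ _ (by norm_num)
      · have h4 : 4 ≤ n := by
          rw [hn, Nat.le_sqrt]; omega
        have : 2 * D ≤ 3 * (n * n) := by nlinarith
        have h5 : (2 : ℝ) * D ≤ 3 * (n * n) := by exact_mod_cast this
        linarith
      · rw [Real.sqrt_le_left (by norm_num)]
        have : (D : ℝ) ≤ 92 := by exact_mod_cast (by omega : D ≤ 92)
        norm_num
        linarith
      · rw [ph_sq]; norm_num; linarith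
  · exact upper_large D h93

end Pool.Agent.Helper44.IET
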