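import Pool.Agent.Helper44.IETDefs

/-!
Recurrent factors of a sequence and a counting inequality for repetitions.
-/

open Finset Filter

namespace Pool.Agent.Helper44.IET

section words

variable {A : Type*} [Fintype A]

/-- factor of length `n` at position `i` -/
def fac (u : ℕ → A) (i n : ℕ) : Fin n → A := fun j => u (i + j)

open Classical in
/-- the words of length `n` occurring infinitely often -/
noncomputable def rc (u : ℕ → A) (n : ℕ) : Finset (Fin n → A) :=
  univ.filter (fun w => ∃ᶠ i in atTop, fac u i n = w)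

lemma mem_rc {u : ℕ → A} {n : ℕ} {w : Fin n → A} :
    w ∈ rc u n ↔ ∃ᶠ i in atTop, fac u i n = w := by
  classical
  simp [rc]

lemma eventually_mem_rc (u : ℕ → A) (n : ℕ) : ∀ᶠ i in atTop, fac u i n ∈ rc u n := by
  have h : ∀ w : Fin n → A, ∀ᶠ i in atTop, w ∉ rc u n → fac u i n ≠ w := by
    intro w
    by_cases hw : w ∈ rc u n
    · exact Eventually.of_forall (fun i h => absurd hw h)
    · rw [mem_rc, not_frequently] at hw
      exact hw.mono (fun i hi _ => hi)
  rw [← eventually_all] at h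
  refine h.mono (fun i hi => ?_)
  by_contra hc
  exact hi _ hc rfl

/-- prefix -/
def pre {n j : ℕ} (v : Fin (n + j) → A) : Fin n → A := fun t => v (Fin.castAdd j t)

/-- suffix -/
def suf {n j : ℕ} (v : Fin (n + j) → A) : Fin n → A := fun t => v ⟨(t : ℕ) + j, by omega⟩

omit [Fintype A] in
lemma pre_fac (u : ℕ → A) (i n j : ℕ) : pre (fac u i (n + j)) = fac u i n := by
  funext t; simp [pre, fac]

omit [Fintype A] in
lemma suf_fac (u : ℕ → A) (i n j : ℕ) : suf (fac u i (n + j)) = fac u (i + j) n := by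
  funext t
  simp only [suf, fac]
  congr 1
  omega

lemma exists_pre {u : ℕ → A} {n : ℕ} (j : ℕ) {w : Fin n → A} (hw : w ∈ rc u n) :
    ∃ v ∈ rc u (n + j), pre v = w := by
  rw [mem_rc] at hw
  obtain ⟨i, hi, h2⟩ := (hw.and_eventually (eventually_mem_rc u (n + j))).exists
  exact ⟨_, h2, by rw [pre_fac, hi]⟩

lemma exists_suf {u : ℕ → A} {n : ℕ} (j : ℕ) {w : Fin n → A} (hw : w ∈ rc u n) :
    ∃ v ∈ rc u (n + j), suf v = w := by
  rw [mem_rc] at hw
  have h1 := eventually_mem_rc u (n + j)
  have h3 : ∀ᶠ i in atTop, ∃ i', i = i' + j ∧ fac u i' (n + j) ∈ rc u (n + j) := by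
    rw [eventually_atTop] at h1 ⊢
    obtain ⟨B, hB⟩ := h1
    refine ⟨B + j, fun i hi => ⟨i - j, by omega, hB _ (by omega)⟩⟩
  obtain ⟨i, hi, i', rfl, h2⟩ := (hw.and_eventually h3).exists
  exact ⟨_, h2, by rw [suf_fac, hi]⟩

lemma pre_mem {u : ℕ → A} {n j : ℕ} {v : Fin (n + j) → A} (hv : v ∈ rc u (n + j)) :
    pre v ∈ rc u n := by
  rw [mem_rc] at hv ⊢
  exact hv.mono (fun i hi => by rw [← hi, pre_fac])

lemma suf_mem {u : ℕ → A} {n j : ℕ} {v : Fin (n + j) → A} (hv : v ∈ rc u (n + j)) :
    suf v ∈ rc u n := by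
  rw [mem_rc] at hv ⊢
  rw [frequently_atTop] at hv ⊢
  intro B
  obtain ⟨i, hi, h2⟩ := hv B
  exact ⟨i + j, by omega, by rw [← h2, suf_fac]⟩

/-- surjections with multiple fibres -/
lemma card_multi {α β : Type*} [DecidableEq β] (S : Finset α) (T : Finset β) (f : α → β)
    (hf : ∀ t ∈ T, ∃ s ∈ S, f s = t) (P : β → Prop) [DecidablePred P]
    (hP : ∀ t ∈ T, P t → ¬ ∀ s ∈ S, ∀ s' ∈ S, f s = t → f s' = t → s = s') :
    (T.filter (fun t => P t)).card + T.card ≤ S.card := by
  classical
  have h1 : ∑ t ∈ T, (S.filter (fun s => f s = t)).card ≤ S.card := by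
    rw [← Finset.card_biUnion]
    · apply Finset.card_le_card
      intro s hs
      rw [mem_biUnion] at hs
      obtain ⟨t, _, h⟩ := hs
      exact (mem_filter.mp h).1
    · intro a _ b _ hab
      rw [Function.onFun, Finset.disjoint_left]
      intro s h1 h2
      exact hab ((mem_filter.mp h1).2.symm.trans (mem_filter.mp h2).2)
  refine le_trans ?_ h1
  rw [Finset.card_filter, Finset.card_eq_sum_ones T, ← Finset.sum_add_distrib]
  apply Finset.sum_le_sum
  intro t ht
  split_ifs with h
  · have h := hP t ht h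
    push Not at h
    obtain ⟨s, hs, s', hs', h1, h2, h3⟩ := h
    have : 1 < (S.filter (fun s => f s = t)).card := by
      rw [Finset.one_lt_card]
      exact ⟨s, mem_filter.mpr ⟨hs, h1⟩, s', mem_filter.mpr ⟨hs', h2⟩, h3⟩
    omega
  · obtain ⟨s, hs, h1⟩ := hf t ht
    have : 0 < (S.filter (fun s => f s = t)).card :=
      Finset.card_pos.mpr ⟨s, mem_filter.mpr ⟨hs, h1⟩⟩
    omega

/-- unique right extension by `j` letters -/
def RU (u : ℕ → A) {n : ℕ} (w : Fin n → A) (j : ℕ) : Prop :=
  ∀ v ∈ rc u (n + j), ∀ v' ∈ rc u (n + j), pre v = w → pre v' = w → v = v'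

/-- unique left extension by `j` letters -/
def LU (u : ℕ → A) {n : ℕ} (w : Fin n → A) (j : ℕ) : Prop :=
  ∀ v ∈ rc u (n + j), ∀ v' ∈ rc u (n + j), suf v = w → suf v' = w → v = v'

open Classical in
/-- length of the longest unique right extension, at most `n` -/
noncomputable def rr (u : ℕ → A) {n : ℕ} (w : Fin n → A) : ℕ := Nat.findGreatest (RU u w) n

open Classical in
/-- length of the longest unique left extension, at most `n` -/
noncomputable def ll (u : ℕ → A) {n : ℕ} (w : Fin n → A) : ℕ := Nat.findGreatest (LU u w) n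

lemma RU_zero (u : ℕ → A) {n : ℕ} (w : Fin n → A) : RU u w 0 := by
  intro v _ v' _ h h'
  funext t
  have h1 := congrFun (h.trans h'.symm) t
  exact h1

lemma LU_zero (u : ℕ → A) {n : ℕ} (w : Fin n → A) : LU u w 0 := by
  intro v _ v' _ h h'
  funext t
  have h1 := congrFun (h.trans h'.symm) t
  exact h1

open Classical in
lemma RU_rr (u : ℕ → A) {n : ℕ} (w : Fin n → A) : RU u w (rr u w) :=
  Nat.findGreatest_spec (Nat.zero_le n) (RU_zero u w)

open Classical in
lemma LU_ll (u : ℕ → A) {n : ℕ} (w : Fin n → A) : LU u w (ll u w) :=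
  Nat.findGreatest_spec (Nat.zero_le n) (LU_zero u w)

open Classical in
lemma rr_le (u : ℕ → A) {n : ℕ} (w : Fin n → A) : rr u w ≤ n := Nat.findGreatest_le n

open Classical in
lemma ll_le (u : ℕ → A) {n : ℕ} (w : Fin n → A) : ll u w ≤ n := Nat.findGreatest_le n

open Classical in
lemma card_rr_lt (u : ℕ → A) (n j : ℕ) (hj : j ≤ n) :
    ((rc u n).filter (fun w => rr u w < j)).card + (rc u n).card ≤ (rc u (n + j)).card := by
  apply card_multi (rc u (n + j)) (rc u n) pre (fun t ht => exists_pre j ht)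
    (fun w => rr u w < j)
  intro w _ hw
  exact Nat.findGreatest_is_greatest hw hj

open Classical in
lemma card_ll_lt (u : ℕ → A) (n j : ℕ) (hj : j ≤ n) :
    ((rc u n).filter (fun w => ll u w < j)).card + (rc u n).card ≤ (rc u (n + j)).card := by
  apply card_multi (rc u (n + j)) (rc u n) suf (fun t ht => exists_suf j ht)
    (fun w => ll u w < j)
  intro w _ hw
  exact Nat.findGreatest_is_greatest hw hj

/-- two late occurrences of the same word agree on the unique extensions -/
lemma hasPower_of_occ (u : ℕ → A) (n B i k : ℕ)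
    (hB : ∀ j ≤ n, ∀ t, B ≤ t + n → fac u t (n + j) ∈ rc u (n + j))
    (hi : B ≤ i) (hn : n ≤ i) (h : fac u i n = fac u (i + k) n) :
    HasPower u (i - ll u (fac u i n)) k (k + (n + rr u (fac u i n) + ll u (fac u i n))) := by
  set w := fac u i n with hw
  set r := rr u w with hr
  set l := ll u w with hl
  have hrn : r ≤ n := rr_le u w
  have hln : l ≤ n := ll_le u w
  have h1 : fac u i (n + r) = fac u (i + k) (n + r) := by
    apply RU_rr u w _ (hB r hrn i (by omega)) _ (hB r hrn (i + k) (by omega))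
    · rw [pre_fac]
    · rw [pre_fac]; exact h.symm
  have h2 : fac u (i - l) (n + l) = fac u (i + k - l) (n + l) := by
    apply LU_ll u w _ (hB l hln (i - l) (by omega)) _ (hB l hln (i + k - l) (by omega))
    · rw [suf_fac]
      have : i - l + l = i := by omega
      rw [this]
    · rw [suf_fac]
      have : i + k - l + l = i + k := by omega
      rw [this]; exact h.symm
  intro j hj
  by_cases hjl : j < n + l
  · have h3 := congrFun h2 ⟨j, hjl⟩
    simp only [fac] at h3
    rw [h3]
    congr 1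
    omega
  · have h3 := congrFun h1 ⟨j - l, by omega⟩
    simp only [fac] at h3
    have e1 : i - l + j = i + (j - l) := by omega
    have e2 : i - l + j + k = i + k + (j - l) := by omega
    rw [e2, e1, h3]

/-- spaced sets -/
lemma spaced_card (S : Finset ℕ) (B L : ℕ) (κ : ℝ) (hκ : 0 < κ) (hL : 1 ≤ L)
    (hS : ∀ i ∈ S, B ≤ i ∧ i < B + L)
    (hsp : ∀ i ∈ S, ∀ k, 0 < k → i + k ∈ S → κ ≤ k) :
    (S.card : ℝ) ≤ 1 + (L : ℝ) / κ := by
  have h1 : S.card ≤ (Finset.range (⌊(L : ℝ) / κ⌋₊ + 1)).card := by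
    apply Finset.card_le_card_of_injOn (fun i : ℕ => ⌊((i : ℝ) - B) / κ⌋₊)
    · intro i hi
      have h2 := hS i hi
      rw [Finset.mem_coe, Finset.mem_range]
      apply Nat.lt_succ_of_le
      apply Nat.floor_le_floor
      apply div_le_div_of_nonneg_right _ hκ.le
      have : (i : ℝ) < (B : ℝ) + L := by exact_mod_cast h2.2
      linarith
    · have key : ∀ i ∈ S, ∀ j ∈ S, ⌊((i : ℝ) - B) / κ⌋₊ = ⌊((j : ℝ) - B) / κ⌋₊ → ¬ i < j := by
        intro i hi j hj hij hlt
        obtain ⟨k, rfl⟩ := Nat.exists_eq_add_of_lt hlt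
        have h3 := hsp i hi (k + 1) (by omega) (by rw [← add_assoc]; exact hj)
        have hi0 : (0 : ℝ) ≤ ((i : ℝ) - B) / κ := by
          apply div_nonneg _ hκ.le
          have : (B : ℝ) ≤ i := by exact_mod_cast (hS i hi).1
          linarith
        have h4 := Nat.floor_le hi0
        have h5 := Nat.lt_floor_add_one ((((i + k + 1 : ℕ) : ℝ) - B) / κ)
        rw [← hij] at h5
        have h6 : (((i + k + 1 : ℕ) : ℝ) - B) / κ - ((i : ℝ) - B) / κ < 1 := by linarith
        rw [← sub_div] at h6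
        rw [div_lt_one hκ] at h6
        push_cast at h6 h3
        linarith
      intro i hi j hj hij
      rw [Finset.mem_coe] at hi hj
      rcases lt_trichotomy i j with h | h | h
      · exact absurd h (key i hi j hj hij)
      · exact h
      · exact absurd h (key j hj i hi hij.symm)
  rw [Finset.card_range] at h1
  have h2 : (S.card : ℝ) ≤ (⌊(L : ℝ) / κ⌋₊ : ℝ) + 1 := by exact_mod_cast h1
  have h3 : (⌊(L : ℝ) / κ⌋₊ : ℝ) ≤ (L : ℝ) / κ := Nat.floor_le (by positivity)
  linarith

end words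

end Pool.Agent.Helper44.IET
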