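import Mathlib

/-!
Kruskal-Katona in the form used for union-free families: families of `s`-subsets and `b`-subsets
of a finite set `X` such that no union is all of `X`.
-/

open Finset FinsetFamily

namespace Pool.Agent.Helper44.KK

variable {α : Type*} [DecidableEq α]

/-- members of level `b` of `X` below a member of `𝒜` -/
def below (𝒜 : Finset (Finset α)) (X : Finset α) (b : ℕ) : Finset (Finset α) :=
  (powersetCard b X).filter (fun B => ∃ A ∈ 𝒜, B ⊆ A)

lemma mem_below {𝒜 : Finset (Finset α)} {X : Finset α} {b : ℕ} {B : Finset α} :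
    B ∈ below 𝒜 X b ↔ (B ⊆ X ∧ B.card = b) ∧ ∃ A ∈ 𝒜, B ⊆ A := by
  unfold below
  rw [mem_filter, mem_powersetCard]

/-- Lovász form of Kruskal-Katona for subsets of a finite set `X` -/
theorem below_card (𝒜 : Finset (Finset α)) (X : Finset α) (s b k : ℕ)
    (h𝒜 : ∀ A ∈ 𝒜, A ⊆ X ∧ A.card = s) (hbs : b ≤ s) (hsk : s ≤ k) (hkX : k ≤ X.card)
    (hcard : k.choose s ≤ 𝒜.card) : k.choose b ≤ (below 𝒜 X b).card := by
  classical
  set g := X.card with hg
  set ι : Fin g ↪ α := X.equivFin.symm.toEmbedding.trans (Function.Embedding.subtype _) with hι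
  have hιmem : ∀ i, ι i ∈ X := fun i => (X.equivFin.symm i).2
  have hιsurj : ∀ x ∈ X, ∃ i, ι i = x := by
    intro x hx
    refine ⟨X.equivFin ⟨x, hx⟩, ?_⟩
    simp [hι]
  have hmap : ∀ A, A ⊆ X → (univ.filter (fun i => ι i ∈ A)).map ι = A := by
    intro A hA
    ext x
    rw [mem_map]
    constructor
    · rintro ⟨i, hi, rfl⟩
      exact (mem_filter.mp hi).2
    · intro hx
      obtain ⟨i, rfl⟩ := hιsurj x (hA hx)
      exact ⟨i, mem_filter.mpr ⟨mem_univ _, hx⟩, rfl⟩
  set 𝒜' : Finset (Finset (Fin g)) := univ.filter (fun A' => A'.map ι ∈ 𝒜) with h𝒜'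
  have hc : 𝒜.card ≤ 𝒜'.card := by
    apply Finset.card_le_card_of_injOn (fun A => univ.filter (fun i => ι i ∈ A))
    · intro A hA
      rw [Finset.mem_coe] at hA
      rw [h𝒜', Finset.mem_coe, mem_filter]
      refine ⟨mem_univ _, ?_⟩
      rw [hmap A (h𝒜 A hA).1]
      exact hA
    · intro A hA B hB hAB
      rw [Finset.mem_coe] at hA hB
      have h1 := hmap A (h𝒜 A hA).1
      have h2 := hmap B (h𝒜 B hB).1
      simp only at hAB
      rw [← h1, ← h2, hAB]
  have hsized : (𝒜' : Set (Finset (Fin g))).Sized s := by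
    intro A hA
    rw [Finset.mem_coe, h𝒜', mem_filter] at hA
    have := (h𝒜 _ hA.2).2
    rwa [card_map] at this
  have hkk := kruskal_katona_lovasz_form (i := s - b) (Nat.sub_le _ _) hsk hkX hsized
    (hcard.trans hc)
  have hsb : s - (s - b) = b := by omega
  rw [hsb] at hkk
  refine hkk.trans ?_
  apply Finset.card_le_card_of_injOn (fun B => B.map ι)
  · intro B hB
    rw [Finset.mem_coe, mem_shadow_iterate_iff_exists_sdiff] at hB
    obtain ⟨A, hA, hBA, hcd⟩ := hB
    rw [Finset.mem_coe, mem_below]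
    have hAm := hA
    rw [h𝒜', mem_filter] at hAm
    refine ⟨⟨?_, ?_⟩, A.map ι, hAm.2, map_subset_map.mpr hBA⟩
    · intro x hx
      rw [mem_map] at hx
      obtain ⟨i, _, rfl⟩ := hx
      exact hιmem i
    · rw [card_map]
      have h1 := hsized hA
      have h2 := card_sdiff_add_card_eq_card hBA
      omega
  · intro B _ B' _ h
    exact map_injective ι h

/-- cross form: if no union of a member of `𝒜` and a member of `ℬ` is `X` and `𝒜` is large, then
`ℬ` is small -/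
theorem cross (𝒜 ℬ : Finset (Finset α)) (X : Finset α) (s b T : ℕ)
    (h𝒜 : ∀ A ∈ 𝒜, A ⊆ X ∧ A.card = s) (hℬ : ∀ B ∈ ℬ, B ⊆ X ∧ B.card = b)
    (hne : ∀ A ∈ 𝒜, ∀ B ∈ ℬ, A ∪ B ≠ X) (hb : b ≤ X.card) (hsb : X.card ≤ s + b)
    (hT : s + T ≤ X.card) (hcard : (X.card - T).choose s ≤ 𝒜.card) :
    ℬ.card + (X.card - T).choose (X.card - b) ≤ X.card.choose b := by
  classical
  have h1 := below_card 𝒜 X s (X.card - b) (X.card - T) h𝒜 (by omega) (by omega) (by omega) hcard
  set 𝒞 := (below 𝒜 X (X.card - b)).image (fun Y => X \ Y) with h𝒞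
  have hinj : Set.InjOn (fun Y => X \ Y) (below 𝒜 X (X.card - b) : Set (Finset α)) := by
    intro Y hY Y' hY' h
    rw [Finset.mem_coe, mem_below] at hY hY'
    simp only at h
    rw [← Finset.sdiff_sdiff_eq_self hY.1.1, ← Finset.sdiff_sdiff_eq_self hY'.1.1, h]
  have hcc : 𝒞.card = (below 𝒜 X (X.card - b)).card := card_image_of_injOn hinj
  have hdis : Disjoint ℬ 𝒞 := by
    rw [Finset.disjoint_left]
    intro B hB hBC
    rw [h𝒞, mem_image] at hBC
    obtain ⟨Y, hY, rfl⟩ := hBC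
    rw [mem_below] at hY
    obtain ⟨⟨hYX, _⟩, A, hA, hYA⟩ := hY
    apply hne A hA _ hB
    ext x
    rw [mem_union, mem_sdiff]
    constructor
    · rintro (h | h)
      · exact (h𝒜 A hA).1 h
      · exact h.1
    · intro hx
      by_cases hxY : x ∈ Y
      · exact Or.inl (hYA hxY)
      · exact Or.inr ⟨hx, hxY⟩
  have hsub : ℬ ∪ 𝒞 ⊆ powersetCard b X := by
    intro B hB
    rw [mem_union] at hB
    rw [mem_powersetCard]
    rcases hB with hB | hB
    · exact hℬ B hB
    · rw [h𝒞, mem_image] at hB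
      obtain ⟨Y, hY, rfl⟩ := hB
      rw [mem_below] at hY
      refine ⟨sdiff_subset, ?_⟩
      rw [card_sdiff_of_subset hY.1.1, hY.1.2]
      omega
  have h2 := card_le_card hsub
  rw [card_union_of_disjoint hdis, card_powersetCard, hcc] at h2
  omega

/-- `T = 1`, in symmetric form -/
theorem cross_one (𝒜 ℬ : Finset (Finset α)) (X : Finset α) (s b : ℕ)
    (h𝒜 : ∀ A ∈ 𝒜, A ⊆ X ∧ A.card = s) (hℬ : ∀ B ∈ ℬ, B ⊆ X ∧ B.card = b)
    (hne : ∀ A ∈ 𝒜, ∀ B ∈ ℬ, A ∪ B ≠ X) (hb1 : 1 ≤ b) (hb : b ≤ X.card) (hsb : X.card ≤ s + b)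
    (hs : s < X.card) (hcard : (X.card - 1).choose s ≤ 𝒜.card) :
    ℬ.card ≤ (X.card - 1).choose b := by
  have h := cross 𝒜 ℬ X s b 1 h𝒜 hℬ hne hb hsb (by omega) hcard
  obtain ⟨g, hg⟩ : ∃ g, X.card = g + 1 := ⟨X.card - 1, by omega⟩
  rw [hg] at h ⊢
  simp only [Nat.add_sub_cancel] at h ⊢
  obtain ⟨c, rfl⟩ : ∃ c, b = c + 1 := ⟨b - 1, by omega⟩
  have h1 : g + 1 - (c + 1) = g - c := by omega
  have h2 : g.choose (g - c) = g.choose c := Nat.choose_symm (by omega)
  rw [h1, Nat.choose_succ_succ', h2] at h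
  omega

/-- Erdős-Ko-Rado in union form -/
theorem ekr (ℬ : Finset (Finset α)) (X : Finset α) (l : ℕ)
    (hℬ : ∀ B ∈ ℬ, B ⊆ X ∧ B.card = l) (hne : ∀ A ∈ ℬ, ∀ B ∈ ℬ, A ∪ B ≠ X)
    (h1 : X.card ≤ 2 * l) (h2 : l < X.card) : ℬ.card ≤ (X.card - 1).choose l := by
  by_contra hc
  push Not at hc
  have := cross_one ℬ ℬ X l l hℬ hℬ hne (by omega) h2.le (by omega) h2 hc.le
  omega

/-! ### densities -/

lemma choose_ratio (g s : ℕ) (hs : s ≤ g) (T : ℕ) (hT : s + T ≤ g) :
    ((g - T).choose s : ℝ) ≤ (((g : ℝ) - s) / g) ^ T * (g.choose s : ℝ) := by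
  induction T with
  | zero => simp
  | succ T ih =>
    have ih' := ih (by omega)
    obtain ⟨h, hh⟩ : ∃ h, g - T = h + 1 := ⟨g - T - 1, by omega⟩
    have hh' : g - (T + 1) = h := by omega
    have hg0 : (0 : ℝ) < g := by
      have : 0 < g := by omega
      exact_mod_cast this
    have hsg : (s : ℝ) ≤ g := by exact_mod_cast hs
    rw [hh] at ih'
    rw [hh']
    have h1 : h.choose s * (h + 1) = (h + 1).choose s * (h + 1 - s) := Nat.choose_mul_succ_eq h s
    have hsh : s ≤ h := by omega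
    have h2 : (h.choose s : ℝ) * (h + 1) = ((h + 1).choose s : ℝ) * ((h : ℝ) + 1 - s) := by
      have h3 : ((h + 1 - s : ℕ) : ℝ) = (h : ℝ) + 1 - s := by
        rw [Nat.cast_sub (by omega)]; push_cast; ring
      rw [← h3]
      exact_mod_cast h1
    have h4 : (h.choose s : ℝ) = ((h + 1).choose s : ℝ) * (((h : ℝ) + 1 - s) / (h + 1)) := by
      field_simp
      linarith
    have h5 : ((h : ℝ) + 1 - s) / (h + 1) ≤ ((g : ℝ) - s) / g := by
      rw [div_le_div_iff₀ (by positivity) hg0]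
      have h6 : (h : ℝ) + 1 ≤ g := by
        have : h + 1 ≤ g := by omega
        exact_mod_cast this
      nlinarith [Nat.cast_nonneg (α := ℝ) s]
    have h7 : 0 ≤ ((h : ℝ) + 1 - s) / (h + 1) := by
      apply div_nonneg _ (by positivity)
      have : (s : ℝ) ≤ h := by exact_mod_cast hsh
      linarith
    have h8 : 0 ≤ ((g : ℝ) - s) / g := div_nonneg (by linarith) hg0.le
    calc (h.choose s : ℝ) = ((h + 1).choose s : ℝ) * (((h : ℝ) + 1 - s) / (h + 1)) := h4
      _ ≤ ((((g : ℝ) - s) / g) ^ T * (g.choose s : ℝ)) * (((g : ℝ) - s) / g) := by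
          apply mul_le_mul ih' h5 h7
          positivity
      _ = (((g : ℝ) - s) / g) ^ (T + 1) * (g.choose s : ℝ) := by ring

lemma choose_diff (g c T : ℕ) (hT : T ≤ g) (hc : 1 ≤ c) :
    g.choose c ≤ (g - T).choose c + T * (g - 1).choose (c - 1) := by
  induction T with
  | zero => simp
  | succ T ih =>
    have ih' := ih (by omega)
    obtain ⟨h, hh⟩ : ∃ h, g - T = h + 1 := ⟨g - T - 1, by omega⟩
    have hh' : g - (T + 1) = h := by omega
    obtain ⟨e, rfl⟩ : ∃ e, c = e + 1 := ⟨c - 1, by omega⟩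
    rw [hh, Nat.choose_succ_succ'] at ih'
    rw [hh']
    simp only [Nat.add_sub_cancel] at ih' ⊢
    have h1 : h.choose e ≤ (g - 1).choose e := Nat.choose_le_choose e (by omega)
    rw [Nat.add_mul]
    omega

/-- density form: either `𝒜` has density less than `((g - s) / g) ^ T` or `ℬ` has density at
most `T * ((g - b) / g)` -/
theorem cross_density (𝒜 ℬ : Finset (Finset α)) (X : Finset α) (s b T : ℕ)
    (h𝒜 : ∀ A ∈ 𝒜, A ⊆ X ∧ A.card = s) (hℬ : ∀ B ∈ ℬ, B ⊆ X ∧ B.card = b)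
    (hne : ∀ A ∈ 𝒜, ∀ B ∈ ℬ, A ∪ B ≠ X) (hb : b < X.card) (hsb : X.card ≤ s + b)
    (hT : s + T ≤ X.card) :
    (𝒜.card : ℝ) < (((X.card : ℝ) - s) / X.card) ^ T * (X.card.choose s : ℝ) ∨
    (ℬ.card : ℝ) ≤ T * (((X.card : ℝ) - b) / X.card) * (X.card.choose b : ℝ) := by
  rcases Nat.lt_or_ge 𝒜.card ((X.card - T).choose s) with h | h
  · left
    have h1 : (𝒜.card : ℝ) < ((X.card - T).choose s : ℝ) := by exact_mod_cast h
    exact lt_of_lt_of_le h1 (choose_ratio X.card s (by omega) T hT)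
  · right
    have h1 := cross 𝒜 ℬ X s b T h𝒜 hℬ hne hb.le hsb hT h
    have h2 := choose_diff X.card (X.card - b) T (by omega) (by omega)
    have h3 : X.card.choose (X.card - b) = X.card.choose b := Nat.choose_symm hb.le
    rw [h3] at h2
    have h4 : ℬ.card ≤ T * (X.card - 1).choose (X.card - b - 1) := by omega
    have h5 : (X.card - 1).choose (X.card - b - 1) = (X.card - 1).choose b := by
      have : X.card - b - 1 = (X.card - 1) - b := by omega
      rw [this]
      exact Nat.choose_symm (by omega)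
    rw [h5] at h4
    have h6 : ((X.card - 1).choose b : ℝ)
        = (((X.card : ℝ) - b) / X.card) * (X.card.choose b : ℝ) := by
      obtain ⟨g, hg⟩ : ∃ g, X.card = g + 1 := ⟨X.card - 1, by omega⟩
      rw [hg]
      simp only [Nat.add_sub_cancel]
      have h7 : g.choose b * (g + 1) = (g + 1).choose b * (g + 1 - b) := Nat.choose_mul_succ_eq g b
      have h8 : (g.choose b : ℝ) * (g + 1) = ((g + 1).choose b : ℝ) * ((g : ℝ) + 1 - b) := by
        have h9 : ((g + 1 - b : ℕ) : ℝ) = (g : ℝ) + 1 - b := by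
          rw [Nat.cast_sub (by omega)]; push_cast; ring
        rw [← h9]
        exact_mod_cast h7
      push_cast
      field_simp
      linarith
    calc (ℬ.card : ℝ) ≤ T * ((X.card - 1).choose b : ℝ) := by exact_mod_cast h4
      _ = T * (((X.card : ℝ) - b) / X.card) * (X.card.choose b : ℝ) := by rw [h6]; ring

/-- density form for one family -/
theorem ekr_density (ℬ : Finset (Finset α)) (X : Finset α) (l : ℕ)
    (hℬ : ∀ B ∈ ℬ, B ⊆ X ∧ B.card = l) (hne : ∀ A ∈ ℬ, ∀ B ∈ ℬ, A ∪ B ≠ X)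
    (h1 : X.card ≤ 2 * l) (h2 : l < X.card) :
    (ℬ.card : ℝ) ≤ (((X.card : ℝ) - l) / X.card) * (X.card.choose l : ℝ) := by
  have h := ekr ℬ X l hℬ hne h1 h2
  obtain ⟨g, hg⟩ : ∃ g, X.card = g + 1 := ⟨X.card - 1, by omega⟩
  rw [hg] at h ⊢
  simp only [Nat.add_sub_cancel] at h
  have h7 : g.choose l * (g + 1) = (g + 1).choose l * (g + 1 - l) := Nat.choose_mul_succ_eq g l
  have h8 : (g.choose l : ℝ) * (g + 1) = ((g + 1).choose l : ℝ) * ((g : ℝ) + 1 - l) := by
    have h9 : ((g + 1 - l : ℕ) : ℝ) = (g : ℝ) + 1 - l := by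
      rw [Nat.cast_sub (by omega)]; push_cast; ring
    rw [← h9]
    exact_mod_cast h7
  have h10 : (ℬ.card : ℝ) ≤ (g.choose l : ℝ) := by exact_mod_cast h
  refine h10.trans (le_of_eq ?_)
  push_cast
  field_simp
  linarith

end Pool.Agent.Helper44.KK
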