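import Pool.Agent.Helper44.KKcross

/-!
An intersecting family of `m`-subsets of a `g`-set (`m` much smaller than `g`) without a point of
large degree is small: `#𝒰 ≤ (2 D₀ (m/g) + 30 (m/g)²) binom(g, m)`.
-/

open Finset

namespace Pool.Agent.Helper44.LB

variable {g : ℕ}

/-- replace `j` by `i` in `E` if this gives a new set -/
def sh (𝒰 : Finset (Finset (Fin g))) (i j : Fin g) (E : Finset (Fin g)) : Finset (Fin g) :=
  if j ∈ E ∧ i ∉ E ∧ insert i (E.erase j) ∉ 𝒰 then insert i (E.erase j) else E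

/-- the shifted family -/
def shift (𝒰 : Finset (Finset (Fin g))) (i j : Fin g) : Finset (Finset (Fin g)) :=
  𝒰.image (sh 𝒰 i j)

/-- intersecting -/
def Int (𝒰 : Finset (Finset (Fin g))) : Prop := ∀ E ∈ 𝒰, ∀ F ∈ 𝒰, ∃ x, x ∈ E ∧ x ∈ F

/-- all members have `m` elements -/
def Szd (𝒰 : Finset (Finset (Fin g))) (m : ℕ) : Prop := ∀ E ∈ 𝒰, E.card = m

/-- number of members containing `x` -/
def deg (𝒰 : Finset (Finset (Fin g))) (x : Fin g) : ℕ := (𝒰.filter (fun E => x ∈ E)).card

lemma sh_eq_of_pos {𝒰 : Finset (Finset (Fin g))} {i j : Fin g} {E : Finset (Fin g)}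
    (h : j ∈ E ∧ i ∉ E ∧ insert i (E.erase j) ∉ 𝒰) : sh 𝒰 i j E = insert i (E.erase j) := if_pos h

lemma sh_eq_of_neg {𝒰 : Finset (Finset (Fin g))} {i j : Fin g} {E : Finset (Fin g)}
    (h : ¬ (j ∈ E ∧ i ∉ E ∧ insert i (E.erase j) ∉ 𝒰)) : sh 𝒰 i j E = E := if_neg h

lemma sh_injOn (𝒰 : Finset (Finset (Fin g))) (i j : Fin g) :
    Set.InjOn (sh 𝒰 i j) (𝒰 : Set (Finset (Fin g))) := by
  intro E hE F hF h
  rw [Finset.mem_coe] at hE hF
  by_cases h1 : j ∈ E ∧ i ∉ E ∧ insert i (E.erase j) ∉ 𝒰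
  · by_cases h2 : j ∈ F ∧ i ∉ F ∧ insert i (F.erase j) ∉ 𝒰
    · rw [sh_eq_of_pos h1, sh_eq_of_pos h2] at h
      have e1 : i ∉ E.erase j := fun h => h1.2.1 (mem_of_mem_erase h)
      have e2 : i ∉ F.erase j := fun h => h2.2.1 (mem_of_mem_erase h)
      have h3 : E.erase j = F.erase j := by
        rw [← erase_insert e1, ← erase_insert e2, h]
      rw [← insert_erase h1.1, ← insert_erase h2.1, h3]
    · rw [sh_eq_of_pos h1, sh_eq_of_neg h2] at h
      exact absurd (h ▸ hF) h1.2.2
  · by_cases h2 : j ∈ F ∧ i ∉ F ∧ insert i (F.erase j) ∉ 𝒰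
    · rw [sh_eq_of_neg h1, sh_eq_of_pos h2] at h
      exact absurd (h ▸ hE) h2.2.2
    · rwa [sh_eq_of_neg h1, sh_eq_of_neg h2] at h

lemma shift_card (𝒰 : Finset (Finset (Fin g))) (i j : Fin g) : (shift 𝒰 i j).card = 𝒰.card :=
  card_image_of_injOn (sh_injOn 𝒰 i j)

lemma sh_card (𝒰 : Finset (Finset (Fin g))) (i j : Fin g) (E : Finset (Fin g)) :
    (sh 𝒰 i j E).card = E.card := by
  by_cases h1 : j ∈ E ∧ i ∉ E ∧ insert i (E.erase j) ∉ 𝒰
  · rw [sh_eq_of_pos h1, card_insert_of_notMem (fun h => h1.2.1 (mem_of_mem_erase h)),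
      card_erase_of_mem h1.1]
    have : 0 < E.card := card_pos.mpr ⟨j, h1.1⟩
    omega
  · rw [sh_eq_of_neg h1]

lemma shift_szd {𝒰 : Finset (Finset (Fin g))} {m : ℕ} (h : Szd 𝒰 m) (i j : Fin g) :
    Szd (shift 𝒰 i j) m := by
  intro E hE
  unfold shift at hE
  rw [mem_image] at hE
  obtain ⟨F, hF, rfl⟩ := hE
  rw [sh_card, h F hF]

lemma shift_int_aux {𝒰 : Finset (Finset (Fin g))} (h : Int 𝒰) (i j : Fin g)
    (E F : Finset (Fin g)) (hE : E ∈ 𝒰) (hF : F ∈ 𝒰)
    (h1 : j ∈ E ∧ i ∉ E ∧ insert i (E.erase j) ∉ 𝒰)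
    (h2 : ¬ (j ∈ F ∧ i ∉ F ∧ insert i (F.erase j) ∉ 𝒰)) :
    ∃ x, x ∈ insert i (E.erase j) ∧ x ∈ F := by
  by_cases hi : i ∈ F
  · exact ⟨i, mem_insert_self _ _, hi⟩
  · by_cases hj : j ∈ F
    · have h3 : insert i (F.erase j) ∈ 𝒰 := by
        by_contra h4
        exact h2 ⟨hj, hi, h4⟩
      obtain ⟨x, hx1, hx2⟩ := h E hE _ h3
      rw [mem_insert] at hx2
      rcases hx2 with rfl | hx2
      · exact absurd hx1 h1.2.1
      · rw [mem_erase] at hx2
        exact ⟨x, mem_insert_of_mem (mem_erase.mpr ⟨hx2.1, hx1⟩), hx2.2⟩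
    · obtain ⟨x, hx1, hx2⟩ := h E hE F hF
      refine ⟨x, mem_insert_of_mem (mem_erase.mpr ⟨?_, hx1⟩), hx2⟩
      rintro rfl
      exact hj hx2

lemma shift_int {𝒰 : Finset (Finset (Fin g))} (h : Int 𝒰) (i j : Fin g) :
    Int (shift 𝒰 i j) := by
  intro E' hE' F' hF'
  unfold shift at hE' hF'
  rw [mem_image] at hE' hF'
  obtain ⟨E, hE, rfl⟩ := hE'
  obtain ⟨F, hF, rfl⟩ := hF'
  by_cases h1 : j ∈ E ∧ i ∉ E ∧ insert i (E.erase j) ∉ 𝒰
  · by_cases h2 : j ∈ F ∧ i ∉ F ∧ insert i (F.erase j) ∉ 𝒰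
    · rw [sh_eq_of_pos h1, sh_eq_of_pos h2]
      exact ⟨i, mem_insert_self _ _, mem_insert_self _ _⟩
    · rw [sh_eq_of_pos h1, sh_eq_of_neg h2]
      exact shift_int_aux h i j E F hE hF h1 h2
  · by_cases h2 : j ∈ F ∧ i ∉ F ∧ insert i (F.erase j) ∉ 𝒰
    · rw [sh_eq_of_neg h1, sh_eq_of_pos h2]
      obtain ⟨x, hx1, hx2⟩ := shift_int_aux h i j F E hF hE h2 h1
      exact ⟨x, hx2, hx1⟩
    · rw [sh_eq_of_neg h1, sh_eq_of_neg h2]
      exact h E hE F hF

/-- weight of a set -/
def wt (E : Finset (Fin g)) : ℕ := ∑ x ∈ E, (x : ℕ)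

lemma wt_move {i j : Fin g} (hij : i < j) {E : Finset (Fin g)} (hj : j ∈ E) (hi : i ∉ E) :
    wt (insert i (E.erase j)) < wt E := by
  unfold wt
  rw [sum_insert (fun h => hi (mem_of_mem_erase h)), ← add_sum_erase E _ hj]
  have : (i : ℕ) < (j : ℕ) := hij
  omega

lemma wt_sh_le {i j : Fin g} (hij : i < j) (𝒰 : Finset (Finset (Fin g))) (E : Finset (Fin g)) :
    wt (sh 𝒰 i j E) ≤ wt E := by
  by_cases h1 : j ∈ E ∧ i ∉ E ∧ insert i (E.erase j) ∉ 𝒰
  · rw [sh_eq_of_pos h1]; exact (wt_move hij h1.1 h1.2.1).le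
  · rw [sh_eq_of_neg h1]

/-- weight of a family -/
def tw (𝒰 : Finset (Finset (Fin g))) : ℕ := ∑ E ∈ 𝒰, wt E

lemma tw_shift_lt {i j : Fin g} (hij : i < j) (𝒰 : Finset (Finset (Fin g))) (E : Finset (Fin g))
    (hE : E ∈ 𝒰) (h1 : j ∈ E ∧ i ∉ E ∧ insert i (E.erase j) ∉ 𝒰) :
    tw (shift 𝒰 i j) < tw 𝒰 := by
  unfold tw shift
  rw [sum_image (sh_injOn 𝒰 i j)]
  apply sum_lt_sum (fun F _ => wt_sh_le hij 𝒰 F)
  exact ⟨E, hE, by rw [sh_eq_of_pos h1]; exact wt_move hij h1.1 h1.2.1⟩

lemma deg_shift_ne (𝒰 : Finset (Finset (Fin g))) (i j x : Fin g) (hx : x ≠ i) :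
    deg (shift 𝒰 i j) x ≤ deg 𝒰 x := by
  unfold deg
  have h1 : (shift 𝒰 i j).filter (fun E => x ∈ E)
      ⊆ (𝒰.filter (fun E => x ∈ E)).image (sh 𝒰 i j) := by
    intro E' hE'
    rw [mem_filter] at hE'
    obtain ⟨h1, h2⟩ := hE'
    unfold shift at h1
    rw [mem_image] at h1
    obtain ⟨E, hE, rfl⟩ := h1
    rw [mem_image]
    refine ⟨E, mem_filter.mpr ⟨hE, ?_⟩, rfl⟩
    by_cases h3 : j ∈ E ∧ i ∉ E ∧ insert i (E.erase j) ∉ 𝒰
    · rw [sh_eq_of_pos h3, mem_insert] at h2
      rcases h2 with h2 | h2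
      · exact absurd h2 hx
      · exact mem_of_mem_erase h2
    · rwa [sh_eq_of_neg h3] at h2
  exact (card_le_card h1).trans card_image_le

lemma deg_shift_self (𝒰 : Finset (Finset (Fin g))) (i j : Fin g) :
    deg (shift 𝒰 i j) i ≤ deg 𝒰 i + deg 𝒰 j := by
  unfold deg
  have h1 : (shift 𝒰 i j).filter (fun E => i ∈ E)
      ⊆ (𝒰.filter (fun E => i ∈ E) ∪ 𝒰.filter (fun E => j ∈ E)).image (sh 𝒰 i j) := by
    intro E' hE'
    rw [mem_filter] at hE'
    obtain ⟨h1, h2⟩ := hE'
    unfold shift at h1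
    rw [mem_image] at h1
    obtain ⟨E, hE, rfl⟩ := h1
    rw [mem_image]
    refine ⟨E, ?_, rfl⟩
    rw [mem_union, mem_filter, mem_filter]
    by_cases h3 : j ∈ E ∧ i ∉ E ∧ insert i (E.erase j) ∉ 𝒰
    · exact Or.inr ⟨hE, h3.1⟩
    · rw [sh_eq_of_neg h3] at h2
      exact Or.inl ⟨hE, h2⟩
  exact (card_le_card h1).trans (card_image_le.trans (card_union_le _ _))

/-- fully shifted intersecting families: every member is dense in an initial segment -/
lemma dense_start {𝒰 : Finset (Finset (Fin g))} {m : ℕ} (hint : Int 𝒰) (hm : Szd 𝒰 m)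
    (hsh : ∀ i j : Fin g, i < j → ∀ E ∈ 𝒰, j ∈ E → i ∉ E → insert i (E.erase j) ∈ 𝒰)
    (E : Finset (Fin g)) (hE : E ∈ 𝒰) :
    ∃ i : ℕ, 1 ≤ i ∧ i ≤ m ∧ i ≤ (E.filter (fun x : Fin g => (x : ℕ) < 2 * i - 1)).card := by
  by_contra hc
  push Not at hc
  have key : ∀ t : ℕ, t ≤ g → ∃ P : Finset (Fin g), (∀ x ∈ P, x ∉ E) ∧ (∀ x ∈ P, (x : ℕ) < t) ∧
      P.card = (E.filter (fun x : Fin g => (x : ℕ) < t)).card ∧
      (E.filter (fun x : Fin g => ¬ (x : ℕ) < t)) ∪ P ∈ 𝒰 := by
    intro t
    induction t with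
    | zero =>
      intro _
      refine ⟨∅, by simp, by simp, by simp, ?_⟩
      have h1 : E.filter (fun x : Fin g => ¬ (x : ℕ) < 0) = E := by
        apply filter_true_of_mem
        intro x _; omega
      rw [h1, union_empty]
      exact hE
    | succ t ih =>
      intro ht
      obtain ⟨P, hP1, hP2, hP3, hP4⟩ := ih (by omega)
      set e : Fin g := ⟨t, by omega⟩ with he
      by_cases heE : e ∈ E
      · -- a free point below `t`
        have hcnt : (E.filter (fun x : Fin g => (x : ℕ) < t + 1)).card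
            = (E.filter (fun x : Fin g => (x : ℕ) < t)).card + 1 := by
          have h1 : E.filter (fun x : Fin g => (x : ℕ) < t + 1)
              = insert e (E.filter (fun x : Fin g => (x : ℕ) < t)) := by
            ext x
            rw [mem_filter, mem_insert, mem_filter]
            constructor
            · rintro ⟨h1, h2⟩
              rcases Nat.lt_or_ge (x : ℕ) t with h3 | h3
              · exact Or.inr ⟨h1, h3⟩
              · left
                apply Fin.ext
                simp only [he]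
                omega
            · rintro (rfl | h1)
              · exact ⟨heE, by simp [he]⟩
              · exact ⟨h1.1, by omega⟩
          rw [h1, card_insert_of_notMem]
          rw [mem_filter]
          simp [he]
        set r := (E.filter (fun x : Fin g => (x : ℕ) < t)).card with hr
        have hrm : r + 1 ≤ m := by
          rw [← hm E hE, ← hcnt]
          exact card_filter_le _ _
        have htr : 2 * r + 1 ≤ t := by
          by_contra h
          push Not at h
          have h1 := hc (r + 1) (by omega) hrm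
          have h2 : E.filter (fun x : Fin g => (x : ℕ) < t + 1)
              ⊆ E.filter (fun x : Fin g => (x : ℕ) < 2 * (r + 1) - 1) := by
            intro x hx
            rw [mem_filter] at hx ⊢
            exact ⟨hx.1, by omega⟩
          have h3 := card_le_card h2
          omega
        obtain ⟨p, hp1, hp2⟩ : ∃ p : Fin g, (p : ℕ) < t ∧
            p ∉ E.filter (fun x : Fin g => (x : ℕ) < t) ∪ P := by
          by_contra hno
          push Not at hno
          have h1 : (univ.filter (fun x : Fin g => (x : ℕ) < t))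
              ⊆ E.filter (fun x : Fin g => (x : ℕ) < t) ∪ P := by
            intro x hx
            exact hno x (mem_filter.mp hx).2
          have h2 := (card_le_card h1).trans (card_union_le _ _)
          have h3 : (univ.filter (fun x : Fin g => (x : ℕ) < t)).card = t := by
            have h4 : (univ.filter (fun x : Fin g => (x : ℕ) < t)) = Finset.Iio e := by
              ext x
              rw [mem_filter, Finset.mem_Iio, Fin.lt_def]
              simp [he]
            rw [h4, Fin.card_Iio]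
          omega
        rw [mem_union, not_or] at hp2
        have hpE : p ∉ E := fun h => hp2.1 (mem_filter.mpr ⟨h, hp1⟩)
        refine ⟨insert p P, ?_, ?_, ?_, ?_⟩
        · intro x hx
          rw [mem_insert] at hx
          rcases hx with rfl | hx
          · exact hpE
          · exact hP1 x hx
        · intro x hx
          rw [mem_insert] at hx
          rcases hx with rfl | hx
          · omega
          · have := hP2 x hx; omega
        · rw [card_insert_of_notMem hp2.2, hP3, hcnt]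
        · have hpe : p < e := by
            rw [Fin.lt_def]; simp only [he]; exact hp1
          have h1 : e ∈ E.filter (fun x : Fin g => ¬ (x : ℕ) < t) ∪ P := by
            rw [mem_union, mem_filter]
            exact Or.inl ⟨heE, by simp [he]⟩
          have h2 : p ∉ E.filter (fun x : Fin g => ¬ (x : ℕ) < t) ∪ P := by
            rw [mem_union, mem_filter]
            rintro (h | h)
            · exact hpE h.1
            · exact hp2.2 h
          have h3 := hsh p e hpe _ hP4 h1 h2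
          have h4 : insert p ((E.filter (fun x : Fin g => ¬ (x : ℕ) < t) ∪ P).erase e)
              = E.filter (fun x : Fin g => ¬ (x : ℕ) < t + 1) ∪ insert p P := by
            ext x
            rw [mem_insert, mem_erase, mem_union, mem_filter, mem_union, mem_filter, mem_insert]
            constructor
            · rintro (rfl | ⟨hxe, hx | hx⟩)
              · exact Or.inr (Or.inl rfl)
              · left
                refine ⟨hx.1, ?_⟩
                intro h
                apply hxe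
                apply Fin.ext
                simp only [he]
                omega
              · exact Or.inr (Or.inr hx)
            · rintro (hx | rfl | hx)
              · right
                refine ⟨?_, Or.inl ⟨hx.1, by omega⟩⟩
                rintro rfl
                exact hx.2 (by simp [he])
              · exact Or.inl rfl
              · right
                refine ⟨?_, Or.inr hx⟩
                rintro rfl
                exact hP1 _ hx heE
          rw [← h4]
          exact h3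
      · refine ⟨P, hP1, fun x hx => by have := hP2 x hx; omega, ?_, ?_⟩
        · rw [hP3]
          congr 1
          apply filter_congr
          intro x hx
          constructor
          · intro h; omega
          · intro h
            rcases Nat.lt_or_ge (x : ℕ) t with h3 | h3
            · exact h3
            · exfalso
              apply heE
              have : x = e := by
                apply Fin.ext
                simp only [he]
                omega
              rwa [← this]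
        · have h1 : E.filter (fun x : Fin g => ¬ (x : ℕ) < t + 1) = E.filter (fun x : Fin g => ¬ (x : ℕ) < t) := by
            apply filter_congr
            intro x hx
            constructor
            · intro h; omega
            · intro h h2
              apply heE
              have : x = e := by
                apply Fin.ext
                simp only [he]
                omega
              rwa [← this]
          rw [h1]
          exact hP4
  obtain ⟨P, hP1, _, _, hP4⟩ := key g le_rfl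
  have h1 : E.filter (fun x : Fin g => ¬ (x : ℕ) < g) = ∅ := by
    apply filter_false_of_mem
    intro x _ h
    exact h x.2
  rw [h1, empty_union] at hP4
  obtain ⟨x, hx1, hx2⟩ := hint E hE P hP4
  exact hP1 x hx2 hx1

/-- number of `m`-sets containing a given `i`-set -/
lemma card_super (J : Finset (Fin g)) (m : ℕ) :
    ((powersetCard m (univ : Finset (Fin g))).filter (fun E => J ⊆ E)).card
      ≤ (g - J.card).choose (m - J.card) := by
  have h1 : (powersetCard (m - J.card) (univ \ J : Finset (Fin g))).card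
      = (g - J.card).choose (m - J.card) := by
    rw [card_powersetCard, card_sdiff_of_subset (subset_univ _), card_univ, Fintype.card_fin]
  rw [← h1]
  apply card_le_card_of_injOn (fun E => E \ J)
  · intro E hE
    rw [Finset.mem_coe, mem_filter, mem_powersetCard] at hE
    rw [Finset.mem_coe, mem_powersetCard]
    refine ⟨sdiff_subset_sdiff (subset_univ _) (Finset.Subset.refl _), ?_⟩
    rw [card_sdiff_of_subset hE.2, hE.1.2]
  · intro E hE E' hE' h
    rw [Finset.mem_coe, mem_filter] at hE hE'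
    simp only at h
    rw [← sdiff_union_of_subset hE.2, ← sdiff_union_of_subset hE'.2, h]

lemma card_dense (P : Finset (Fin g)) (m i : ℕ) :
    ((powersetCard m (univ : Finset (Fin g))).filter (fun E => i ≤ (E ∩ P).card)).card
      ≤ P.card.choose i * (g - i).choose (m - i) := by
  have h1 : (powersetCard m (univ : Finset (Fin g))).filter (fun E => i ≤ (E ∩ P).card)
      ⊆ (powersetCard i P).biUnion
        (fun J => (powersetCard m (univ : Finset (Fin g))).filter (fun E => J ⊆ E)) := by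
    intro E hE
    rw [mem_filter] at hE
    obtain ⟨J, hJ1, hJ2⟩ := exists_subset_card_eq hE.2
    rw [mem_biUnion]
    refine ⟨J, mem_powersetCard.mpr ⟨hJ1.trans inter_subset_right, hJ2⟩, ?_⟩
    rw [mem_filter]
    exact ⟨hE.1, hJ1.trans inter_subset_left⟩
  refine (card_le_card h1).trans (card_biUnion_le.trans ?_)
  rw [← card_powersetCard, ← smul_eq_mul]
  apply sum_le_card_nsmul
  intro J hJ
  rw [mem_powersetCard] at hJ
  have := card_super J m
  rwa [hJ.2] at this

lemma choose_sub_sub (m i : ℕ) (hm : m ≤ g) (hi : i ≤ m) :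
    ((g - i).choose (m - i) : ℝ) ≤ ((m : ℝ) / g) ^ i * (g.choose m : ℝ) := by
  induction i with
  | zero => simp
  | succ i ih =>
    have ih' := ih (by omega)
    obtain ⟨h, hh⟩ : ∃ h, g - i = h + 1 := ⟨g - i - 1, by omega⟩
    obtain ⟨e, he⟩ : ∃ e, m - i = e + 1 := ⟨m - i - 1, by omega⟩
    have hh' : g - (i + 1) = h := by omega
    have he' : m - (i + 1) = e := by omega
    rw [hh, he] at ih'
    rw [hh', he']
    have h1 : (h + 1) * h.choose e = (h + 1).choose (e + 1) * (e + 1) :=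
      Nat.add_one_mul_choose_eq h e
    have h2 : ((h : ℝ) + 1) * (h.choose e : ℝ) = ((h + 1).choose (e + 1) : ℝ) * (e + 1) := by
      exact_mod_cast h1
    have hg0 : (0 : ℝ) < g := by
      have : 0 < g := by omega
      exact_mod_cast this
    have h3 : (h.choose e : ℝ) = ((h + 1).choose (e + 1) : ℝ) * (((e : ℝ) + 1) / (h + 1)) := by
      field_simp
      linarith
    have h4 : ((e : ℝ) + 1) / (h + 1) ≤ (m : ℝ) / g := by
      rw [div_le_div_iff₀ (by positivity) hg0]
      have h5 : (h : ℝ) + 1 = g - i := by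
        have : h + 1 + i = g := by omega
        have h6 : (h : ℝ) + 1 + i = g := by exact_mod_cast this
        linarith
      have h7 : (e : ℝ) + 1 = m - i := by
        have : e + 1 + i = m := by omega
        have h6 : (e : ℝ) + 1 + i = m := by exact_mod_cast this
        linarith
      rw [h5, h7]
      have h8 : (m : ℝ) ≤ g := by exact_mod_cast hm
      nlinarith [Nat.cast_nonneg (α := ℝ) i]
    calc (h.choose e : ℝ) = ((h + 1).choose (e + 1) : ℝ) * (((e : ℝ) + 1) / (h + 1)) := h3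
      _ ≤ (((m : ℝ) / g) ^ i * (g.choose m : ℝ)) * ((m : ℝ) / g) := by
          apply mul_le_mul ih' h4 (by positivity) (by positivity)
      _ = ((m : ℝ) / g) ^ (i + 1) * (g.choose m : ℝ) := by ring

lemma geom_tail (r : ℝ) (h0 : 0 ≤ r) (h1 : r < 1) (k : ℕ) :
    ∑ i ∈ range k, r ^ (i + 2) ≤ r ^ 2 / (1 - r) := by
  have h2 : ∀ k : ℕ, ∑ i ∈ range k, r ^ (i + 2) = r ^ 2 * (1 - r ^ k) / (1 - r) := by
    intro k
    have h3 : (1 : ℝ) - r ≠ 0 := by linarith
    induction k with
    | zero => simp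
    | succ k ih =>
      rw [sum_range_succ, ih]
      field_simp
      ring
  rw [h2]
  apply div_le_div_of_nonneg_right _ (by linarith)
  have : 0 ≤ r ^ k := pow_nonneg h0 k
  have : 0 ≤ r ^ 2 := pow_nonneg h0 2
  nlinarith

/-- the fully shifted case -/
lemma shifted_bound {𝒰 : Finset (Finset (Fin g))} {m : ℕ} (hint : Int 𝒰) (hm : Szd 𝒰 m)
    (hsh : ∀ i j : Fin g, i < j → ∀ E ∈ 𝒰, j ∈ E → i ∉ E → insert i (E.erase j) ∈ 𝒰)
    (hmg : 100 * m ≤ g) (hg : 0 < g) :
    (𝒰.card : ℝ) ≤ deg 𝒰 ⟨0, hg⟩ + 17 * ((m : ℝ) / g) ^ 2 * (g.choose m : ℝ) := by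
  have hsplit : 𝒰.card = deg 𝒰 ⟨0, hg⟩ + (𝒰.filter (fun E => ¬ (⟨0, hg⟩ : Fin g) ∈ E)).card := by
    unfold deg
    exact (card_filter_add_card_filter_not _).symm
  have hrest : (𝒰.filter (fun E => ¬ (⟨0, hg⟩ : Fin g) ∈ E)).card
      ≤ ∑ i ∈ range (m - 1), (2 * (i + 2) - 1).choose (i + 2) * (g - (i + 2)).choose (m - (i + 2)) := by
    have h1 : 𝒰.filter (fun E => ¬ (⟨0, hg⟩ : Fin g) ∈ E)
        ⊆ (range (m - 1)).biUnion (fun i => (powersetCard m (univ : Finset (Fin g))).filter
          (fun E => (i + 2) ≤ (E ∩ univ.filter (fun x : Fin g => (x : ℕ) < 2 * (i + 2) - 1)).card)) := by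
      intro E hE
      rw [mem_filter] at hE
      obtain ⟨i, hi1, him, hi⟩ := dense_start hint hm hsh E hE.1
      have hi2 : 2 ≤ i := by
        by_contra h
        have : i = 1 := by omega
        subst this
        have h2 : 0 < (E.filter (fun x : Fin g => (x : ℕ) < 2 * 1 - 1)).card := by omega
        obtain ⟨x, hx⟩ := card_pos.mp h2
        rw [mem_filter] at hx
        apply hE.2
        have : x = ⟨0, hg⟩ := by
          apply Fin.ext
          simp only
          omega
        rw [← this]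
        exact hx.1
      obtain ⟨k, rfl⟩ : ∃ k, i = k + 2 := ⟨i - 2, by omega⟩
      rw [mem_biUnion]
      refine ⟨k, mem_range.mpr (by omega), ?_⟩
      rw [mem_filter, mem_powersetCard]
      refine ⟨⟨subset_univ _, hm E hE.1⟩, ?_⟩
      have h3 : E ∩ univ.filter (fun x : Fin g => (x : ℕ) < 2 * (k + 2) - 1)
          = E.filter (fun x : Fin g => (x : ℕ) < 2 * (k + 2) - 1) := by
        ext x
        rw [mem_inter, mem_filter, mem_filter]
        simp
      rw [h3]
      exact hi
    refine (card_le_card h1).trans (card_biUnion_le.trans ?_)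
    apply sum_le_sum
    intro i hi
    rw [mem_range] at hi
    have h2 := card_dense (univ.filter (fun x : Fin g => (x : ℕ) < 2 * (i + 2) - 1)) m (i + 2)
    have h3 : (univ.filter (fun x : Fin g => (x : ℕ) < 2 * (i + 2) - 1)).card = 2 * (i + 2) - 1 := by
      have hlt : 2 * (i + 2) - 1 < g := by omega
      have h4 : (univ.filter (fun x : Fin g => (x : ℕ) < 2 * (i + 2) - 1))
          = Finset.Iio (⟨2 * (i + 2) - 1, hlt⟩ : Fin g) := by
        ext x
        rw [mem_filter, Finset.mem_Iio, Fin.lt_def]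
        simp
      rw [h4, Fin.card_Iio]
    rw [h3] at h2
    exact h2
  have hg0 : (0 : ℝ) < g := by exact_mod_cast hg
  have hx : (m : ℝ) / g ≤ 1 / 100 := by
    rw [div_le_div_iff₀ hg0 (by norm_num)]
    have : (100 : ℝ) * m ≤ g := by exact_mod_cast hmg
    linarith
  set x := (m : ℝ) / g with hxdef
  have hx0 : 0 ≤ x := by positivity
  have hsum : ((∑ i ∈ range (m - 1), (2 * (i + 2) - 1).choose (i + 2) *
      (g - (i + 2)).choose (m - (i + 2)) : ℕ) : ℝ) ≤ 17 * x ^ 2 * (g.choose m : ℝ) := by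
    push_cast
    calc ∑ i ∈ range (m - 1), ((2 * (i + 2) - 1).choose (i + 2) : ℝ) *
          ((g - (i + 2)).choose (m - (i + 2)) : ℝ)
        ≤ ∑ i ∈ range (m - 1), (4 * x) ^ (i + 2) * (g.choose m : ℝ) := by
          apply sum_le_sum
          intro i hi
          rw [mem_range] at hi
          have h1 := choose_sub_sub (g := g) m (i + 2) (by omega) (by omega)
          have h2 : ((2 * (i + 2) - 1).choose (i + 2) : ℝ) ≤ 4 ^ (i + 2) := by
            have h3 : (2 * (i + 2) - 1).choose (i + 2) ≤ 2 ^ (2 * (i + 2) - 1) :=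
              Nat.choose_le_two_pow _ _
            have h4 : 2 ^ (2 * (i + 2) - 1) ≤ 4 ^ (i + 2) := by
              have h5 : (4 : ℕ) ^ (i + 2) = 2 ^ (2 * (i + 2)) := by
                rw [pow_mul]; norm_num
              rw [h5]
              exact Nat.pow_le_pow_right (by norm_num) (by omega)
            exact_mod_cast h3.trans h4
          rw [mul_pow]
          calc ((2 * (i + 2) - 1).choose (i + 2) : ℝ) * ((g - (i + 2)).choose (m - (i + 2)) : ℝ)
              ≤ 4 ^ (i + 2) * (x ^ (i + 2) * (g.choose m : ℝ)) :=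
                mul_le_mul h2 h1 (by positivity) (by positivity)
            _ = 4 ^ (i + 2) * x ^ (i + 2) * (g.choose m : ℝ) := by ring
      _ = (∑ i ∈ range (m - 1), (4 * x) ^ (i + 2)) * (g.choose m : ℝ) := by rw [sum_mul]
      _ ≤ ((4 * x) ^ 2 / (1 - 4 * x)) * (g.choose m : ℝ) := by
          apply mul_le_mul_of_nonneg_right _ (by positivity)
          exact geom_tail (4 * x) (by positivity) (by linarith) _
      _ ≤ 17 * x ^ 2 * (g.choose m : ℝ) := by
          apply mul_le_mul_of_nonneg_right _ (by positivity)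
          rw [div_le_iff₀ (by linarith)]
          nlinarith [pow_nonneg hx0 2]
  have h1 : (𝒰.card : ℝ) = deg 𝒰 ⟨0, hg⟩
      + ((𝒰.filter (fun E => ¬ (⟨0, hg⟩ : Fin g) ∈ E)).card : ℝ) := by exact_mod_cast hsplit
  have h2 : ((𝒰.filter (fun E => ¬ (⟨0, hg⟩ : Fin g) ∈ E)).card : ℝ)
      ≤ 17 * x ^ 2 * (g.choose m : ℝ) := le_trans (by exact_mod_cast hrest) hsum
  linarith

/-- a point of degree more than `D0 ≥ 3 m / g` catches almost everything -/
lemma star_bound {𝒰 : Finset (Finset (Fin g))} {m : ℕ} (hint : Int 𝒰) (hm : Szd 𝒰 m)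
    (hm2 : 2 ≤ m) (hmg : 100 * m ≤ g) (D0 : ℝ) (hD0 : 3 * ((m : ℝ) / g) ≤ D0) (i : Fin g)
    (hi : D0 * ((g - 1).choose (m - 1) : ℝ) < deg 𝒰 i) :
    (𝒰.card : ℝ) ≤ deg 𝒰 i + ((m : ℝ) / g) ^ 2 * (g.choose m : ℝ) := by
  classical
  have hsplit : 𝒰.card = deg 𝒰 i + (𝒰.filter (fun E => ¬ i ∈ E)).card := by
    unfold deg
    exact (card_filter_add_card_filter_not _).symm
  set X : Finset (Fin g) := univ.erase i with hX
  have hXc : X.card = g - 1 := by
    rw [hX, card_erase_of_mem (mem_univ _), card_univ, Fintype.card_fin]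
  set 𝒜 : Finset (Finset (Fin g)) := (𝒰.filter (fun E => ¬ i ∈ E)).image (fun E => X \ E) with h𝒜
  set ℬ : Finset (Finset (Fin g)) := (𝒰.filter (fun E => i ∈ E)).image (fun E => X \ E) with hℬ
  have hEX : ∀ E ∈ 𝒰.filter (fun E => ¬ i ∈ E), E ⊆ X := by
    intro E hE x hx
    rw [mem_filter] at hE
    rw [hX, mem_erase]
    refine ⟨?_, mem_univ _⟩
    rintro rfl
    exact hE.2 hx
  have hAc : 𝒜.card = (𝒰.filter (fun E => ¬ i ∈ E)).card := by
    apply card_image_of_injOn
    intro E hE F hF h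
    simp only at h
    rw [← Finset.sdiff_sdiff_eq_self (hEX E hE), ← Finset.sdiff_sdiff_eq_self (hEX F hF), h]
  have hBc : ℬ.card = (𝒰.filter (fun E => i ∈ E)).card := by
    apply card_image_of_injOn
    intro E hE F hF h
    rw [Finset.mem_coe, mem_filter] at hE hF
    simp only at h
    ext x
    by_cases hxi : x = i
    · rw [hxi]; exact ⟨fun _ => hF.2, fun _ => hE.2⟩
    · have hxX : x ∈ X := by
        rw [hX, mem_erase]; exact ⟨hxi, mem_univ _⟩
      have h1 : x ∈ X \ E ↔ x ∈ X \ F := by rw [h]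
      rw [mem_sdiff, mem_sdiff] at h1
      constructor
      · intro hx
        by_contra hc
        exact (h1.mpr ⟨hxX, hc⟩).2 hx
      · intro hx
        by_contra hc
        exact (h1.mp ⟨hxX, hc⟩).2 hx
  have hA1 : ∀ A ∈ 𝒜, A ⊆ X ∧ A.card = g - 1 - m := by
    intro A hA
    rw [h𝒜, mem_image] at hA
    obtain ⟨E, hE, rfl⟩ := hA
    refine ⟨sdiff_subset, ?_⟩
    rw [card_sdiff_of_subset (hEX E hE), hXc, hm E (mem_filter.mp hE).1]
  have hB1 : ∀ B ∈ ℬ, B ⊆ X ∧ B.card = g - m := by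
    intro B hB
    rw [hℬ, mem_image] at hB
    obtain ⟨E, hE, rfl⟩ := hB
    rw [mem_filter] at hE
    refine ⟨sdiff_subset, ?_⟩
    have h1 : X \ E = univ \ E := by
      ext x
      rw [mem_sdiff, mem_sdiff, hX, mem_erase]
      constructor
      · rintro ⟨⟨_, h1⟩, h2⟩; exact ⟨h1, h2⟩
      · rintro ⟨h1, h2⟩
        refine ⟨⟨?_, h1⟩, h2⟩
        rintro rfl
        exact h2 hE.2
    rw [h1, card_sdiff_of_subset (subset_univ _), card_univ, Fintype.card_fin, hm E hE.1]
  have hne : ∀ A ∈ 𝒜, ∀ B ∈ ℬ, A ∪ B ≠ X := by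
    intro A hA B hB hu
    rw [h𝒜, mem_image] at hA
    rw [hℬ, mem_image] at hB
    obtain ⟨E, hE, rfl⟩ := hA
    obtain ⟨F, hF, rfl⟩ := hB
    have hE' := mem_filter.mp hE
    have hF' := mem_filter.mp hF
    obtain ⟨x, hx1, hx2⟩ := hint E hE'.1 F hF'.1
    have hxX := hEX E hE hx1
    rw [← hu, mem_union, mem_sdiff, mem_sdiff] at hxX
    rcases hxX with h | h
    · exact h.2 hx1
    · exact h.2 hx2
  have hlt : 𝒜.card < (g - 3).choose (g - 1 - m) := by
    by_contra hc
    push Not at hc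
    have hc' : (X.card - 2).choose (g - 1 - m) ≤ 𝒜.card := by
      rw [hXc]
      have : g - 1 - 2 = g - 3 := by omega
      rw [this]; exact hc
    have h1 := KK.cross 𝒜 ℬ X (g - 1 - m) (g - m) 2 hA1 hB1 hne (by omega) (by omega) (by omega) hc'
    have h2 := KK.choose_diff (g - 1) (m - 1) 2 (by omega) (by omega)
    rw [hXc] at h1
    have e1 : g - 1 - (g - m) = m - 1 := by omega
    have e2 : (g - 1).choose (g - m) = (g - 1).choose (m - 1) := by
      rw [← Nat.choose_symm (by omega : m - 1 ≤ g - 1)]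
      congr 1
      omega
    rw [e1, e2] at h1
    have h3 : ℬ.card ≤ 2 * (g - 1 - 1).choose (m - 1 - 1) := by omega
    have h4 : (2 : ℝ) * ((g - 1 - 1).choose (m - 1 - 1) : ℝ) ≤ D0 * ((g - 1).choose (m - 1) : ℝ) := by
      have h5 := choose_sub_sub (g := g - 1) (m - 1) 1 (by omega) (by omega)
      rw [pow_one] at h5
      have hg1 : ((g - 1 : ℕ) : ℝ) = (g : ℝ) - 1 := by rw [Nat.cast_sub (by omega)]; simp
      have hm1 : ((m - 1 : ℕ) : ℝ) = (m : ℝ) - 1 := by rw [Nat.cast_sub (by omega)]; simp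
      have hg0 : (200 : ℝ) ≤ g := by
        have : 200 ≤ g := by omega
        exact_mod_cast this
      have h6 : 2 * (((m - 1 : ℕ) : ℝ) / ((g - 1 : ℕ) : ℝ)) ≤ D0 := by
        refine le_trans ?_ hD0
        rw [hg1, hm1, ← mul_div_assoc, ← mul_div_assoc, div_le_div_iff₀ (by linarith) (by linarith)]
        have : (0 : ℝ) ≤ m := Nat.cast_nonneg m
        nlinarith
      calc (2 : ℝ) * ((g - 1 - 1).choose (m - 1 - 1) : ℝ)
          ≤ 2 * ((((m - 1 : ℕ) : ℝ) / ((g - 1 : ℕ) : ℝ)) * ((g - 1).choose (m - 1) : ℝ)) := by linarith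
        _ = (2 * (((m - 1 : ℕ) : ℝ) / ((g - 1 : ℕ) : ℝ))) * ((g - 1).choose (m - 1) : ℝ) := by ring
        _ ≤ D0 * ((g - 1).choose (m - 1) : ℝ) := mul_le_mul_of_nonneg_right h6 (by positivity)
    have h7 : (deg 𝒰 i : ℝ) ≤ 2 * ((g - 1 - 1).choose (m - 1 - 1) : ℝ) := by
      have : deg 𝒰 i ≤ 2 * (g - 1 - 1).choose (m - 1 - 1) := by
        unfold deg
        rw [← hBc]
        exact h3
      exact_mod_cast this
    linarith
  have hfin : (𝒜.card : ℝ) ≤ ((m : ℝ) / g) ^ 2 * (g.choose m : ℝ) := by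
    have h1 : (g - 3).choose (g - 1 - m) = (g - 3).choose (m - 2) := by
      rw [← Nat.choose_symm (by omega : m - 2 ≤ g - 3)]
      congr 1
      omega
    have h2 : (g - 3).choose (m - 2) ≤ (g - 2).choose (m - 2) := Nat.choose_le_choose _ (by omega)
    have h3 := choose_sub_sub (g := g) m 2 (by omega) hm2
    have h4 : (𝒜.card : ℝ) ≤ ((g - 2).choose (m - 2) : ℝ) := by
      have : 𝒜.card ≤ (g - 2).choose (m - 2) := by omega
      exact_mod_cast this
    linarith
  have h1 : (𝒰.card : ℝ) = deg 𝒰 i + ((𝒰.filter (fun E => ¬ i ∈ E)).card : ℝ) := by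
    exact_mod_cast hsplit
  rw [hAc] at hfin
  linarith

/-- **Lemma B.** -/
theorem lemmaB (m : ℕ) (hm2 : 2 ≤ m) (hmg : 100 * m ≤ g) (D0 : ℝ)
    (hD0 : 3 * ((m : ℝ) / g) ≤ D0) : ∀ (N : ℕ) (𝒰 : Finset (Finset (Fin g))), tw 𝒰 = N →
    Int 𝒰 → Szd 𝒰 m → (∀ x, (deg 𝒰 x : ℝ) ≤ D0 * ((g - 1).choose (m - 1) : ℝ)) →
    (𝒰.card : ℝ) ≤ (2 * D0 * ((m : ℝ) / g) + 30 * ((m : ℝ) / g) ^ 2) * (g.choose m : ℝ) := by
  intro N
  have hg : 0 < g := by omega
  have hg0 : (0 : ℝ) < g := by exact_mod_cast hg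
  have hD00 : 0 ≤ D0 := le_trans (by positivity) hD0
  have hone : ((g - 1).choose (m - 1) : ℝ) ≤ ((m : ℝ) / g) * (g.choose m : ℝ) := by
    have := choose_sub_sub (g := g) m 1 (by omega) (by omega)
    rwa [pow_one] at this
  have hc0 : (0 : ℝ) ≤ (g.choose m : ℝ) := Nat.cast_nonneg _
  have hx0 : (0 : ℝ) ≤ (m : ℝ) / g := by positivity
  induction N using Nat.strong_induction_on with
  | _ N ih =>
    intro 𝒰 hN hint hsz hdeg
    by_cases hfull : ∀ i j : Fin g, i < j → ∀ E ∈ 𝒰, j ∈ E → i ∉ E → insert i (E.erase j) ∈ 𝒰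
    · have h1 := shifted_bound hint hsz hfull hmg hg
      have h2 := hdeg ⟨0, hg⟩
      have h3 : D0 * ((g - 1).choose (m - 1) : ℝ) ≤ D0 * (((m : ℝ) / g) * (g.choose m : ℝ)) :=
        mul_le_mul_of_nonneg_left hone hD00
      have h4 : 0 ≤ D0 * (((m : ℝ) / g) * (g.choose m : ℝ)) := by positivity
      have h5 : 0 ≤ ((m : ℝ) / g) ^ 2 * (g.choose m : ℝ) := by positivity
      calc (𝒰.card : ℝ) ≤ deg 𝒰 ⟨0, hg⟩ + 17 * ((m : ℝ) / g) ^ 2 * (g.choose m : ℝ) := h1
        _ ≤ 2 * (D0 * (((m : ℝ) / g) * (g.choose m : ℝ)))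
            + 30 * (((m : ℝ) / g) ^ 2 * (g.choose m : ℝ)) := by linarith
        _ = _ := by ring
    · push Not at hfull
      obtain ⟨i, j, hij, E, hE, hjE, hiE, hno⟩ := hfull
      have hlt := tw_shift_lt hij 𝒰 E hE ⟨hjE, hiE, hno⟩
      have hint' := shift_int hint i j
      have hsz' := shift_szd hsz i j
      by_cases hd : (deg (shift 𝒰 i j) i : ℝ) ≤ D0 * ((g - 1).choose (m - 1) : ℝ)
      · rw [← shift_card 𝒰 i j]
        apply ih _ (by omega) (shift 𝒰 i j) rfl hint' hsz'
        intro x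
        by_cases hx : x = i
        · rw [hx]; exact hd
        · refine le_trans ?_ (hdeg x)
          exact_mod_cast deg_shift_ne 𝒰 i j x hx
      · push Not at hd
        have h1 := star_bound hint' hsz' hm2 hmg D0 hD0 i hd
        have h2 : (deg (shift 𝒰 i j) i : ℝ) ≤ deg 𝒰 i + deg 𝒰 j := by
          exact_mod_cast deg_shift_self 𝒰 i j
        have h3 := hdeg i
        have h4 := hdeg j
        rw [shift_card] at h1
        have h5 : D0 * ((g - 1).choose (m - 1) : ℝ) ≤ D0 * (((m : ℝ) / g) * (g.choose m : ℝ)) :=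
          mul_le_mul_of_nonneg_left hone hD00
        have h6 : 0 ≤ ((m : ℝ) / g) ^ 2 * (g.choose m : ℝ) := by positivity
        calc (𝒰.card : ℝ) ≤ 2 * (D0 * (((m : ℝ) / g) * (g.choose m : ℝ)))
            + 30 * (((m : ℝ) / g) ^ 2 * (g.choose m : ℝ)) := by linarith
          _ = _ := by ring

/-- **Lemma B** for subsets of a finite set `X` -/
theorem lemmaB_set {α : Type*} [DecidableEq α] (X : Finset α) (m : ℕ) (𝒰 : Finset (Finset α))
    (h𝒰 : ∀ E ∈ 𝒰, E ⊆ X ∧ E.card = m) (hint : ∀ E ∈ 𝒰, ∀ F ∈ 𝒰, ∃ x, x ∈ E ∧ x ∈ F)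
    (hm2 : 2 ≤ m) (hmg : 100 * m ≤ X.card) (D0 : ℝ) (hD0 : 3 * ((m : ℝ) / X.card) ≤ D0)
    (hdeg : ∀ x ∈ X, ((𝒰.filter (fun E => x ∈ E)).card : ℝ)
      ≤ D0 * ((X.card - 1).choose (m - 1) : ℝ)) :
    (𝒰.card : ℝ) ≤ (2 * D0 * ((m : ℝ) / X.card) + 30 * ((m : ℝ) / X.card) ^ 2)
      * (X.card.choose m : ℝ) := by
  classical
  set g := X.card with hg
  set ι : Fin g ↪ α := X.equivFin.symm.toEmbedding.trans (Function.Embedding.subtype _) with hι
  have hιmem : ∀ i, ι i ∈ X := fun i => (X.equivFin.symm i).2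
  have hιsurj : ∀ x ∈ X, ∃ i, ι i = x := by
    intro x hx
    refine ⟨X.equivFin ⟨x, hx⟩, ?_⟩
    simp [hι]
  have hmap : ∀ A, A ⊆ X → (univ.filter (fun i => ι i ∈ A)).map ι = A := by
    intro A hA
    ext x
    rw [mem_map]
    constructor
    · rintro ⟨i, hi, rfl⟩
      exact (mem_filter.mp hi).2
    · intro hx
      obtain ⟨i, rfl⟩ := hιsurj x (hA hx)
      exact ⟨i, mem_filter.mpr ⟨mem_univ _, hx⟩, rfl⟩
  set 𝒰' : Finset (Finset (Fin g)) := univ.filter (fun A' => A'.map ι ∈ 𝒰) with h𝒰'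
  have hc : 𝒰.card ≤ 𝒰'.card := by
    apply Finset.card_le_card_of_injOn (fun A => univ.filter (fun i => ι i ∈ A))
    · intro A hA
      rw [Finset.mem_coe] at hA
      rw [h𝒰', Finset.mem_coe, mem_filter]
      refine ⟨mem_univ _, ?_⟩
      rw [hmap A (h𝒰 A hA).1]
      exact hA
    · intro A hA B hB hAB
      rw [Finset.mem_coe] at hA hB
      have h1 := hmap A (h𝒰 A hA).1
      have h2 := hmap B (h𝒰 B hB).1
      simp only at hAB
      rw [← h1, ← h2, hAB]
  have hint' : Int 𝒰' := by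
    intro E hE F hF
    rw [h𝒰', mem_filter] at hE hF
    obtain ⟨x, hx1, hx2⟩ := hint _ hE.2 _ hF.2
    rw [mem_map] at hx1 hx2
    obtain ⟨i, hi, rfl⟩ := hx1
    obtain ⟨j, hj, hij⟩ := hx2
    have := ι.injective hij
    subst this
    exact ⟨_, hi, hj⟩
  have hsz' : Szd 𝒰' m := by
    intro E hE
    rw [h𝒰', mem_filter] at hE
    have := (h𝒰 _ hE.2).2
    rwa [card_map] at this
  have hdeg' : ∀ i, (deg 𝒰' i : ℝ) ≤ D0 * ((g - 1).choose (m - 1) : ℝ) := by
    intro i
    refine le_trans ?_ (hdeg (ι i) (hιmem i))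
    have h1 : deg 𝒰' i ≤ (𝒰.filter (fun E => ι i ∈ E)).card := by
      unfold deg
      apply card_le_card_of_injOn (fun B => B.map ι)
      · intro E hE
        rw [Finset.mem_coe, mem_filter, h𝒰', mem_filter] at hE
        rw [Finset.mem_coe, mem_filter]
        exact ⟨hE.1.2, mem_map_of_mem ι hE.2⟩
      · intro B _ B' _ h
        exact map_injective ι h
    exact_mod_cast h1
  have h1 := lemmaB (g := g) m hm2 hmg D0 hD0 (tw 𝒰') 𝒰' rfl hint' hsz' hdeg'
  have h2 : (𝒰.card : ℝ) ≤ 𝒰'.card := by exact_mod_cast hc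
  linarith

end Pool.Agent.Helper44.LB
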